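import Pool.Agent.H300R2.BH.Defs
import Pool.Agent.H442R2.EHI.Ram

/-! T7: mean of Ramanujan sums along the values of a polynomial. -/

set_option autoImplicit false

namespace Pool.Agent.H475R2.BH

open Finset Polynomial
open Pool.Agent.H469R2.NK (e)
open Pool.Agent.H442R2.EHI
open Pool.Agent.H300R2.BH

/-- roots modulo `n`, as elements of `ZMod n` -/
noncomputable def rz (F : ℤ[X]) (n : ℕ) : ℕ :=
  Nat.card {x : ZMod n // (F.map (Int.castRingHom (ZMod n))).eval x = 0}

theorem eval_cast (F : ℤ[X]) (n : ℕ) (k : ℤ) :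
    (F.map (Int.castRingHom (ZMod n))).eval (k : ZMod n) = ((F.eval k : ℤ) : ZMod n) := by
  simp

theorem rho_eq_rz (F : ℤ[X]) (n : ℕ) (hn : 1 ≤ n) : rho F n = rz F n := by
  have : NeZero n := ⟨by omega⟩
  unfold rho rz
  rw [Nat.card_eq_fintype_card, Fintype.card_subtype]
  refine card_bij (fun k _ => (k : ZMod n)) ?_ ?_ ?_
  · intro k hk
    rw [mem_filter] at hk
    rw [mem_filter]
    refine ⟨mem_univ _, ?_⟩
    have h := eval_cast F n (k : ℤ)
    rw [Int.cast_natCast] at h
    rw [h, ZMod.intCast_zmod_eq_zero_iff_dvd]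
    exact hk.2
  · intro a ha b hb hab
    rw [mem_filter, mem_range] at ha hb
    have := (ZMod.natCast_eq_natCast_iff' a b n).1 hab
    rw [Nat.mod_eq_of_lt ha.1, Nat.mod_eq_of_lt hb.1] at this
    exact this
  · intro x hx
    rw [mem_filter] at hx
    refine ⟨x.val, ?_, ?_⟩
    · rw [mem_filter, mem_range]
      refine ⟨ZMod.val_lt x, ?_⟩
      rw [← ZMod.intCast_zmod_eq_zero_iff_dvd, ← eval_cast]
      rw [Int.cast_natCast, ZMod.natCast_zmod_val]
      exact hx.2
    · exact ZMod.natCast_zmod_val x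

theorem rz_mul (F : ℤ[X]) (m n : ℕ) (h : m.Coprime n) : rz F (m * n) = rz F m * rz F n := by
  unfold rz
  rw [← Nat.card_prod]
  let φ := ZMod.chineseRemainder h
  refine Nat.card_congr ?_
  have key : ∀ x : ZMod (m * n), (F.map (Int.castRingHom (ZMod (m * n)))).eval x = 0 ↔
      ((F.map (Int.castRingHom (ZMod m))).eval (φ x).1 = 0 ∧
        (F.map (Int.castRingHom (ZMod n))).eval (φ x).2 = 0) := by
    intro x
    have h1 : (φ ((F.map (Int.castRingHom (ZMod (m * n)))).eval x)).1 =
        (F.map (Int.castRingHom (ZMod m))).eval (φ x).1 := by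
      have := Polynomial.eval₂_hom (p := F.map (Int.castRingHom (ZMod (m * n))))
        ((RingHom.fst (ZMod m) (ZMod n)).comp φ.toRingHom) x
      rw [Polynomial.eval₂_map] at this
      have e1 : (((RingHom.fst (ZMod m) (ZMod n)).comp φ.toRingHom).comp
          (Int.castRingHom (ZMod (m * n)))) = Int.castRingHom (ZMod m) := RingHom.ext_int _ _
      rw [e1] at this
      rw [Polynomial.eval_map (Int.castRingHom (ZMod m))]
      exact this.symm
    have h2 : (φ ((F.map (Int.castRingHom (ZMod (m * n)))).eval x)).2 =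
        (F.map (Int.castRingHom (ZMod n))).eval (φ x).2 := by
      have := Polynomial.eval₂_hom (p := F.map (Int.castRingHom (ZMod (m * n))))
        ((RingHom.snd (ZMod m) (ZMod n)).comp φ.toRingHom) x
      rw [Polynomial.eval₂_map] at this
      have e1 : (((RingHom.snd (ZMod m) (ZMod n)).comp φ.toRingHom).comp
          (Int.castRingHom (ZMod (m * n)))) = Int.castRingHom (ZMod n) := RingHom.ext_int _ _
      rw [e1] at this
      rw [Polynomial.eval_map (Int.castRingHom (ZMod n))]
      exact this.symm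
    rw [← h1, ← h2, ← map_eq_zero_iff φ φ.injective, Prod.ext_iff]
    rfl
  exact {
    toFun := fun x => (⟨(φ x.1).1, ((key x.1).1 x.2).1⟩, ⟨(φ x.1).2, ((key x.1).1 x.2).2⟩)
    invFun := fun y => ⟨φ.symm (y.1.1, y.2.1), (key _).2 (by
      rw [RingEquiv.apply_symm_apply]
      exact ⟨y.1.2, y.2.2⟩)⟩
    left_inv := fun x => by
      ext
      simp
    right_inv := fun y => by
      ext <;> simp }

theorem rho_mul (F : ℤ[X]) (m n : ℕ) (hm : 1 ≤ m) (hn : 1 ≤ n) (h : m.Coprime n) :
    rho F (m * n) = rho F m * rho F n := by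
  rw [rho_eq_rz F _ (Nat.mul_pos hm hn), rho_eq_rz F _ hm, rho_eq_rz F _ hn, rz_mul F m n h]

theorem rho_one (F : ℤ[X]) : rho F 1 = 1 := by
  unfold rho
  simp

/-- `rho` as an arithmetic function -/
noncomputable def rf (F : ℤ[X]) : ArithmeticFunction ℂ :=
  ⟨fun n => if n = 0 then 0 else (rho F n : ℂ), by simp⟩

theorem rf_apply (F : ℤ[X]) (n : ℕ) (hn : 1 ≤ n) : rf F n = (rho F n : ℂ) := by
  show (if n = 0 then 0 else (rho F n : ℂ)) = _
  rw [if_neg (by omega)]

theorem rf_mult (F : ℤ[X]) : (rf F).IsMultiplicative := by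
  rw [ArithmeticFunction.IsMultiplicative.iff_ne_zero]
  refine ⟨?_, ?_⟩
  · rw [rf_apply F 1 le_rfl, rho_one]; simp
  · intro m n hm hn h
    rw [rf_apply F m (by omega), rf_apply F n (by omega),
      rf_apply F (m * n) (Nat.mul_pos (by omega) (by omega)),
      rho_mul F m n (by omega) (by omega) h]
    push_cast
    rfl

/-- number of `k < e * t` with `e ∣ F(k)` -/
theorem count_mul (F : ℤ[X]) (e t : ℕ) :
    ((range (e * t)).filter (fun k : ℕ => (e : ℤ) ∣ F.eval (k : ℤ))).card = t * rho F e := by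
  induction t with
  | zero => simp
  | succ t ih =>
    have h1 : range (e * (t + 1)) = range (e * t) ∪ (range e).map (addLeftEmbedding (e * t)) := by
      rw [Nat.mul_succ, range_add_eq_union]
    rw [h1, filter_union, card_union_of_disjoint, ih]
    · rw [filter_map, card_map, Nat.succ_mul]
      congr 1
      unfold rho
      congr 1
      refine filter_congr fun k _ => ?_
      simp only [Function.comp, addLeftEmbedding_apply]
      have h2 : ((e * t + k : ℕ) : ℤ) - (k : ℤ) ∣
          F.eval ((e * t + k : ℕ) : ℤ) - F.eval (k : ℤ) := sub_dvd_eval_sub _ _ _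
      have h3 : (e : ℤ) ∣ F.eval ((e * t + k : ℕ) : ℤ) - F.eval (k : ℤ) := by
        refine dvd_trans ?_ h2
        push_cast
        exact ⟨t, by ring⟩
      exact (dvd_iff_dvd_of_dvd_sub h3)
    · rw [disjoint_left]
      intro x hx hx'
      rw [mem_filter, mem_range] at hx
      rw [mem_filter, mem_map] at hx'
      obtain ⟨⟨y, hy, hxy⟩, _⟩ := hx'
      simp only [addLeftEmbedding_apply] at hxy
      omega

/-- Ramanujan sum for squarefree modulus -/
theorem mob_cq (q n : ℕ) (hq : Squarefree q) :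
    ((ArithmeticFunction.moebius q : ℤ) : ℂ) * cq q n =
      ∑ d ∈ q.divisors, ((ArithmeticFunction.moebius d : ℤ) : ℂ) *
        (if d ∣ n then (d : ℂ) else 0) := by
  have hq0 : q ≠ 0 := hq.ne_zero
  rw [cq_eq, H336V.RamanAux.raman_eq q (by omega), mul_sum]
  rw [← Nat.sum_div_divisors q (fun d => ((ArithmeticFunction.moebius d : ℤ) : ℂ) *
        (if d ∣ n then (d : ℂ) else 0))]
  refine sum_congr rfl fun d hd => ?_
  rw [Nat.mem_divisors] at hd
  obtain ⟨⟨c, hc⟩, _⟩ := hd
  have hd0 : 0 < d := by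
    rcases Nat.eq_zero_or_pos d with h | h
    · subst h; simp at hc; omega
    · exact h
  have hqd : q / d = c := by rw [hc]; exact Nat.mul_div_cancel_left c hd0
  rw [hqd]
  have hcop : d.Coprime c := Nat.coprime_of_squarefree_mul (hc ▸ hq)
  have h1 : (ArithmeticFunction.moebius q : ℤ) * ArithmeticFunction.moebius d =
      ArithmeticFunction.moebius c := by
    rw [hc, ArithmeticFunction.isMultiplicative_moebius.map_mul_of_coprime hcop]
    have h2 : (ArithmeticFunction.moebius d : ℤ) * ArithmeticFunction.moebius d = 1 := by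
      have hsd : Squarefree d := hq.squarefree_of_dvd ⟨c, hc⟩
      have := ArithmeticFunction.moebius_sq_eq_one_of_squarefree hsd
      rw [sq] at this
      exact this
    linear_combination (ArithmeticFunction.moebius c : ℤ) * h2
  have h1' : ((ArithmeticFunction.moebius q : ℤ) : ℂ) * ((ArithmeticFunction.moebius d : ℤ) : ℂ) =
      ((ArithmeticFunction.moebius c : ℤ) : ℂ) := by
    rw [← h1]; push_cast; rfl
  rw [← mul_assoc, h1']
  congr 1
  have h3 : ((c : ℤ) ∣ (n : ℤ)) ↔ c ∣ n := Int.natCast_dvd_natCast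
  by_cases h4 : c ∣ n
  · rw [if_pos (h3.2 h4), if_pos h4]
  · rw [if_neg (fun h => h4 (h3.1 h)), if_neg h4]

theorem toNat_dvd (q d : ℕ) (hq : 1 ≤ q) (hd : d ∣ q) (m : ℤ) :
    d ∣ (m % (q : ℤ)).toNat ↔ (d : ℤ) ∣ m := by
  have h0 : 0 ≤ m % (q : ℤ) := Int.emod_nonneg _ (by omega)
  rw [← Int.natCast_dvd_natCast, Int.toNat_of_nonneg h0]
  have h1 : (d : ℤ) ∣ (q : ℤ) := Int.natCast_dvd_natCast.2 hd
  exact EuclideanDomain.dvd_mod_iff h1

theorem phi_sqf (q : ℕ) (hq : Squarefree q) :
    (Nat.totient q : ℂ) = ∏ p ∈ q.primeFactors, ((p : ℂ) - 1) := by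
  have h := Nat.totient_mul_prod_primeFactors q
  rw [Nat.prod_primeFactors_of_squarefree hq, mul_comm] at h
  have h1 := Nat.eq_of_mul_eq_mul_left (Nat.pos_of_ne_zero hq.ne_zero) h
  rw [h1]
  push_cast
  refine prod_congr rfl fun p hp => ?_
  have := (Nat.prime_of_mem_primeFactors hp).one_le
  rw [Nat.cast_sub this]
  simp

theorem term (F : ℤ[X]) (q : ℕ) (hq : Squarefree q) :
    (((ArithmeticFunction.moebius q : ℤ) : ℂ) / (Nat.totient q : ℂ)) * mq F q = (TT F q : ℂ) := by
  have hq0 : q ≠ 0 := hq.ne_zero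
  have hqC : (q : ℂ) ≠ 0 := by exact_mod_cast hq0
  have h1 : ((ArithmeticFunction.moebius q : ℤ) : ℂ) * mq F q =
      ∑ d ∈ q.divisors, ((ArithmeticFunction.moebius d : ℤ) : ℂ) * rf F d := by
    unfold mq
    rw [mul_left_comm, mul_sum]
    simp_rw [mob_cq q _ hq]
    rw [sum_comm, mul_sum]
    refine sum_congr rfl fun d hd => ?_
    rw [Nat.mem_divisors] at hd
    obtain ⟨⟨c, hc⟩, _⟩ := hd
    have hd0 : 1 ≤ d := by
      rcases Nat.eq_zero_or_pos d with h | h
      · subst h; simp at hc; omega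
      · exact h
    rw [← mul_sum, rf_apply F d hd0]
    have h2 : ∑ k ∈ range q, (if d ∣ ((F.eval (k : ℤ)) % (q : ℤ)).toNat then (d : ℂ) else 0) =
        (c * rho F d : ℕ) * (d : ℂ) := by
      rw [← count_mul F d c, ← hc, ← sum_filter, sum_const, nsmul_eq_mul]
      congr 3
      refine filter_congr fun k _ => ?_
      exact toNat_dvd q d (by omega) ⟨c, hc⟩ _
    rw [h2]
    have h3 : (q : ℂ) = (d : ℂ) * (c : ℂ) := by rw [hc]; push_cast; rfl
    have hdC : (d : ℂ) ≠ 0 := by
      have : d ≠ 0 := by omega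
      exact_mod_cast this
    have hcC : (c : ℂ) ≠ 0 := by
      intro h
      rw [h, mul_zero] at h3
      exact hqC h3
    rw [h3]
    push_cast
    field_simp
  rw [div_mul_eq_mul_div, h1,
    ← ArithmeticFunction.IsMultiplicative.prodPrimeFactors_one_sub_of_squarefree (rf F)
      (rf_mult F) hq, phi_sqf q hq, ← prod_div_distrib]
  unfold TT tt
  push_cast
  refine prod_congr rfl fun p hp => ?_
  rw [rf_apply F p (Nat.prime_of_mem_primeFactors hp).one_le]

/-- T7 (SingAlg.lean). -/
theorem gq_eq (F : ℤ[X]) (Q : ℕ) :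
    ∑ q ∈ Icc 1 Q, (((ArithmeticFunction.moebius q : ℤ) : ℂ) / (Nat.totient q : ℂ)) * mq F q =
      (GG Q F : ℂ) := by
  unfold GG
  push_cast
  rw [sum_filter]
  refine sum_congr rfl fun q hq => ?_
  by_cases h : Squarefree q
  · rw [if_pos h, term F q h]
  · rw [if_neg h, ArithmeticFunction.moebius_eq_zero_of_not_squarefree h]
    simp

end Pool.Agent.H475R2.BH
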