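import Mathlib
import Pool.Agent.H923R2.FP.Stubs

/-! Task F1b: removing the first letter `s`. -/

set_option autoImplicit false

namespace Pool.Agent.H923R2.FP.T_F1b

open Pool.Agent.H923R2.FP

theorem ssum_comb {Q R : Type} (f g h : List (Lt Q R) → List (Lt Q R) → ℂ) (c d : ℂ)
    (l w : List (Lt Q R)) :
    ssum (fun a b => c * f a b - d * g a b + h a b) l w =
      c * ssum f l w - d * ssum g l w + ssum h l w := by
  induction w generalizing l with
  | nil => simp
  | cons z w ih =>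
    simp only [ssum_cons, ih]
    split_ifs <;> ring

theorem ssum_zero {Q R : Type} (l w : List (Lt Q R)) :
    ssum (fun _ _ => (0 : ℂ)) l w = 0 := by
  induction w generalizing l with
  | nil => simp
  | cons z w ih => simp [ssum_cons, ih]

variable {A Q R : Type} [CStarAlgebra A] [Ring Q] [StarRing Q] [Algebra ℂ Q]
  [Ring R] [StarRing R] [Algebra ℂ R] {τ : A →ₗ[ℂ] ℂ} {π : Q →⋆ₐ[ℂ] A} {ρ : R →⋆ₐ[ℂ] A} {s : A}

theorem lemA (hF : FTS τ) (hS : Sys τ π ρ s) (y r : List (Lt Q R))
    (hy : ∀ z ∈ y, z.isS = false) :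
    τ (ev (vl π ρ s) y * (s * ev (vl π ρ s) r)) =
      ssum (fun a b => τ (ev (vl π ρ s) a) * τ (ev (vl π ρ s) y * ev (vl π ρ s) b)) [] r := by
  rw [hF.comm, mul_assoc, ← ev_append, hS.sd, ssum_append, ssum_noS _ _ y hy, add_zero]
  refine ssum_congr (fun a b => ?_) _ _
  rw [ev_append, hF.comm (ev (vl π ρ s) b)]

theorem part1 (hF : FTS τ) (hS : Sys τ π ρ s) (l r : List (Lt Q R))
    (hl : ∀ z ∈ l, z.isS = false) (α : A) :
    phi τ (vl π ρ s) (s * ev (vl π ρ s) r) α l =
      ssum (fun a b => τ (ev (vl π ρ s) a) * phi τ (vl π ρ s) (ev (vl π ρ s) b) α l) [] r := by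
  induction l generalizing α with
  | nil => simp [ssum_zero]
  | cons z l ih =>
    have hl' : ∀ x ∈ l, x.isS = false := fun x hx => hl x (List.mem_cons_of_mem _ hx)
    rw [phi_cons, ih hl']
    have e1 := lemA hF hS l r hl'
    have e2 := lemA hF hS (z :: l) r hl
    rw [ev_cons] at e2
    have e3 : ssum (fun a b => τ (ev (vl π ρ s) a) *
        phi τ (vl π ρ s) (ev (vl π ρ s) b) α (z :: l)) [] r =
        (if z.isQ then τ (α * vl π ρ s z) else 0) *
          ssum (fun a b => τ (ev (vl π ρ s) a) * τ (ev (vl π ρ s) l * ev (vl π ρ s) b)) [] r -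
        (if z.isQ then τ α else 0) *
          ssum (fun a b => τ (ev (vl π ρ s) a) *
            τ (vl π ρ s z * ev (vl π ρ s) l * ev (vl π ρ s) b)) [] r +
        ssum (fun a b => τ (ev (vl π ρ s) a) *
          phi τ (vl π ρ s) (ev (vl π ρ s) b) (α * vl π ρ s z) l) [] r := by
      rw [← ssum_comb]
      refine ssum_congr (fun a b => ?_) _ _
      rw [phi_cons]
      split_ifs <;> ring
    rw [e3, ← e1, ← e2]
    split_ifs <;> ring

theorem part2 (hF : FTS τ) (hS : Sys τ π ρ s) (l r p : List (Lt Q R))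
    (hl : ∀ z ∈ l, z.isS = false) :
    phi τ (vl π ρ s) 1 (ev (vl π ρ s) l * (s * ev (vl π ρ s) p)) r =
      ssum (fun a b => τ (ev (vl π ρ s) a) *
        phi τ (vl π ρ s) 1 (ev (vl π ρ s) l * ev (vl π ρ s) b) r) [] p +
      ssum (fun a b => τ (ev (vl π ρ s) a) * phi τ (vl π ρ s) 1 (ev (vl π ρ s) l) b) p r := by
  induction r generalizing p with
  | nil => simp [ssum_zero]
  | cons z r ih =>
    rw [phi_cons, ssum_cons]
    have h0 : ev (vl π ρ s) l * (s * ev (vl π ρ s) p) * vl π ρ s z =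
        ev (vl π ρ s) l * (s * ev (vl π ρ s) (p ++ [z])) := by
      rw [ev_append, ev_cons, ev_nil, mul_one, mul_assoc, mul_assoc]
    rw [h0, ih (p ++ [z]), ssum_append, ssum_cons, ssum_nil, add_zero]
    have e1 := lemA hF hS l p hl
    have e2 := lemA hF hS l (p ++ [z]) hl
    rw [ssum_append, ssum_cons, ssum_nil, add_zero] at e2
    have e3 : ssum (fun a b => τ (ev (vl π ρ s) a) *
        phi τ (vl π ρ s) 1 (ev (vl π ρ s) l * ev (vl π ρ s) b) (z :: r)) [] p =
        (if z.isQ then τ (ev (vl π ρ s) r * 1) else 0) *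
          ssum (fun a b => τ (ev (vl π ρ s) a) *
            τ (ev (vl π ρ s) l * ev (vl π ρ s) (b ++ [z]))) [] p -
        (if z.isQ then τ (vl π ρ s z * ev (vl π ρ s) r * 1) else 0) *
          ssum (fun a b => τ (ev (vl π ρ s) a) * τ (ev (vl π ρ s) l * ev (vl π ρ s) b)) [] p +
        ssum (fun a b => τ (ev (vl π ρ s) a) *
          phi τ (vl π ρ s) 1 (ev (vl π ρ s) l * ev (vl π ρ s) (b ++ [z])) r) [] p := by
      rw [← ssum_comb]
      refine ssum_congr (fun a b => ?_) _ _
      rw [phi_cons, ev_append, ev_cons, ev_nil, mul_one (vl π ρ s z), ← mul_assoc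
        (ev (vl π ρ s) l)]
      split_ifs <;> ring
    rw [e3, e2, ← e1]
    simp only [List.nil_append, ev_nil, mul_one]
    rcases z with x | x | _
    · simp only [Lt.isQ, Lt.isS, if_true, Bool.false_eq_true, if_false, add_zero]
      ring
    · simp only [Lt.isQ, Lt.isS, Bool.false_eq_true, if_false, add_zero, zero_add]
      ring
    · simp only [Lt.isQ, Lt.isS, if_true, Bool.false_eq_true, if_false, zero_add]
      ring

theorem t_F1b : S_F1b := by
  intro A Q R _ _ _ _ _ _ _ τ π ρ s hF hS l r hl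
  rw [phi_append, phi_cons]
  have hs : (Lt.s : Lt Q R).isQ = false := rfl
  have e0 : ev (vl π ρ s) (Lt.s :: r) * 1 = s * ev (vl π ρ s) r := by
    rw [ev_cons, mul_one]; rfl
  have e1 : (1 : A) * ev (vl π ρ s) l * vl π ρ s (Lt.s : Lt Q R) =
      ev (vl π ρ s) l * (s * ev (vl π ρ s) []) := by
    rw [one_mul, ev_nil, mul_one]; rfl
  rw [e0, e1, part1 hF hS l r hl 1, part2 hF hS l r [] hl, hs, ssum_nil, zero_add]
  simp only [Bool.false_eq_true, if_false, zero_add]
  rw [← ssum_add]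
  refine ssum_congr (fun a b => ?_) _ _
  rw [phi_append, mul_one, one_mul]
  ring

end Pool.Agent.H923R2.FP.T_F1b
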