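import Mathlib

/-!
Clausen's formula for truncated sums, modulo the square of a prime.
-/

set_option autoImplicit false
set_option linter.unusedSectionVars false
set_option linter.unusedSimpArgs false
set_option linter.unusedVariables false

namespace Pool.Agent.H475R2

open Polynomial

/-- the second order operator -/
noncomputable def opE (μ l : ℤ) (f : ℤ[X]) : ℤ[X] :=
  (X - C μ * X ^ 2) * derivative (derivative f) + (1 - 2 * C μ * X) * derivative f - C l * f

/-- auxiliary operator -/
noncomputable def opY (μ l : ℤ) (f : ℤ[X]) : ℤ[X] :=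
  (X - C μ * X ^ 2) * derivative (derivative f) + (1 - 2 * C μ * X) * derivative f - 2 * C l * f

/-- the symmetric square -/
noncomputable def opL (μ l : ℤ) (f : ℤ[X]) : ℤ[X] :=
  (X - C μ * X ^ 2) * derivative (opY μ l f) + (1 - 2 * C μ * X) * opY μ l f -
    2 * C l * (X - C μ * X ^ 2) * derivative f

theorem opL_add (μ l : ℤ) (f g : ℤ[X]) : opL μ l (f + g) = opL μ l f + opL μ l g := by
  unfold opL opY
  simp only [derivative_add, derivative_sub, derivative_mul, derivative_X, derivative_C,
    derivative_one, derivative_ofNat, derivative_X_pow]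
  ring

theorem opL_C_mul (μ l a : ℤ) (f : ℤ[X]) : opL μ l (C a * f) = C a * opL μ l f := by
  unfold opL opY
  simp only [derivative_add, derivative_sub, derivative_mul, derivative_X, derivative_C,
    derivative_one, derivative_ofNat, derivative_X_pow, derivative_zero]
  ring

theorem opL_sub (μ l : ℤ) (f g : ℤ[X]) : opL μ l (f - g) = opL μ l f - opL μ l g := by
  unfold opL opY
  simp only [derivative_add, derivative_sub, derivative_mul, derivative_X, derivative_C,
    derivative_one, derivative_ofNat, derivative_X_pow]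
  ring

theorem opL_sq (μ l : ℤ) (f : ℤ[X]) : opL μ l (f ^ 2) =
    6 * (X - C μ * X ^ 2) * derivative f * opE μ l f + 2 * (X - C μ * X ^ 2) * f * derivative (opE μ l f) +
      2 * (1 - 2 * C μ * X) * f * opE μ l f := by
  have h : f ^ 2 = f * f := by ring
  rw [h]
  unfold opL opY opE
  simp only [derivative_add, derivative_sub, derivative_mul, derivative_X, derivative_C,
    derivative_one, derivative_ofNat, derivative_X_pow, map_ofNat, Nat.cast_ofNat]
  ring

theorem opY_pow (μ l : ℤ) (k : ℕ) : opY μ l ((X - C μ * X ^ 2) ^ (k + 1)) =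
    C (((k : ℤ) + 1) ^ 2) * (X - C μ * X ^ 2) ^ k -
      C (4 * μ * (k + 1) ^ 2 + 2 * μ * (k + 1) + 2 * l) * (X - C μ * X ^ 2) ^ (k + 1) ∧
    (X - C μ * X ^ 2) * derivative ((X - C μ * X ^ 2 : ℤ[X]) ^ k) =
      (k : ℤ[X]) * (X - C μ * X ^ 2) ^ k * (1 - 2 * C μ * X) := by
  have hda : derivative (X - C μ * X ^ 2 : ℤ[X]) = 1 - 2 * C μ * X := by
    simp only [derivative_sub, derivative_mul, derivative_X, derivative_C, derivative_X_pow]
    simp only [map_ofNat, Nat.cast_ofNat]
    ring
  have hdb : derivative (1 - 2 * C μ * X : ℤ[X]) = - 2 * C μ := by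
    simp only [derivative_sub, derivative_mul, derivative_X, derivative_C, derivative_one,
      derivative_ofNat]
    ring
  have hbb : (1 - 2 * C μ * X : ℤ[X]) ^ 2 = 1 - 4 * C μ * (X - C μ * X ^ 2) := by ring
  unfold opY
  generalize (X - C μ * X ^ 2 : ℤ[X]) = a at *
  generalize (1 - 2 * C μ * X : ℤ[X]) = b at *
  have hD : a * derivative (a ^ k) = (k : ℤ[X]) * a ^ k * b := by
    rw [derivative_pow, hda]
    rcases k with _ | k
    · simp
    · simp only [Nat.add_sub_cancel]
      simp only [map_natCast]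
      ring
  have d1 : derivative (a ^ (k + 1)) = ((k : ℤ[X]) + 1) * a ^ k * b := by
    rw [derivative_pow, hda]
    simp
  refine ⟨?_, hD⟩
  rw [d1]
  have d2 : derivative (((k : ℤ[X]) + 1) * a ^ k * b) = ((k : ℤ[X]) + 1) *
      (derivative (a ^ k) * b + a ^ k * (- 2 * C μ)) := by
    rw [mul_assoc, derivative_mul, derivative_mul, hdb]
    simp
  rw [d2]
  simp only [map_add, map_mul, map_pow, map_natCast, map_one, map_ofNat]
  linear_combination (((k : ℤ[X]) + 1) * b) * hD + (((k : ℤ[X]) + 1) ^ 2 * a ^ k) * hbb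

theorem opL_pow (μ l : ℤ) (k : ℕ) : opL μ l ((X - C μ * X ^ 2) ^ (k + 1)) =
    (1 - 2 * C μ * X) * (C (((k : ℤ) + 1) ^ 3) * (X - C μ * X ^ 2) ^ k -
      C ((4 * μ * (k + 1) ^ 2 + 2 * μ * (k + 1) + 2 * l) * (k + 2) + 2 * l * (k + 1)) *
        (X - C μ * X ^ 2) ^ (k + 1)) := by
  obtain ⟨hY, hD⟩ := opY_pow μ l k
  obtain ⟨-, hD1⟩ := opY_pow μ l (k + 1)
  unfold opL
  rw [hY]
  rw [derivative_sub, derivative_C_mul, derivative_C_mul]
  generalize (X - C μ * X ^ 2 : ℤ[X]) = a at *
  generalize (1 - 2 * C μ * X : ℤ[X]) = b at *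
  push_cast at hD1
  simp only [map_add, map_mul, map_pow, map_natCast, map_one, map_ofNat]
  linear_combination (((k : ℤ[X]) + 1) ^ 2) * hD -
    ((4 * C μ * (k + 1) ^ 2 + 2 * C μ * (k + 1) + 2 * C l) + 2 * C l) * hD1

theorem opL_one (μ l : ℤ) : opL μ l 1 = (1 - 2 * C μ * X) * (-C (2 * l)) := by
  unfold opL opY
  simp only [derivative_add, derivative_sub, derivative_mul, derivative_X, derivative_C,
    derivative_one, derivative_ofNat, derivative_X_pow, derivative_zero, map_mul, map_ofNat]
  ring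

/-- truncated sum in the quadratic argument -/
noncomputable def sF (μ : ℤ) (u : ℕ → ℤ) (N : ℕ) : ℤ[X] :=
  ∑ k ∈ Finset.range N, C (u k) * (X - C μ * X ^ 2) ^ k

/-- truncated sum -/
noncomputable def sf (t : ℕ → ℤ) (N : ℕ) : ℤ[X] := ∑ k ∈ Finset.range N, C (t k) * X ^ k

theorem opL_sF {μ l : ℤ} {u : ℕ → ℤ} 
    (hu : ∀ k : ℕ, u (k + 1) * ((k : ℤ) + 1) ^ 3 =
      u k * ((4 * μ * k ^ 2 + 2 * μ * k + 2 * l) * (k + 1) + 2 * l * k)) (N : ℕ) :
    opL μ l (sF μ u (N + 1)) =
      -((1 - 2 * C μ * X) * (C (u (N + 1) * ((N : ℤ) + 1) ^ 3) * (X - C μ * X ^ 2) ^ N)) := by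
  induction N with
  | zero =>
    unfold sF
    rw [Finset.sum_range_one, pow_zero, opL_C_mul, opL_one, hu 0]
    simp only [map_mul, Nat.cast_zero]
    simp
    ring
  | succ N ih =>
    have : sF μ u (N + 1 + 1) = sF μ u (N + 1) + C (u (N + 1)) * (X - C μ * X ^ 2) ^ (N + 1) := by
      unfold sF; rw [Finset.sum_range_succ]
    rw [this, opL_add, ih, opL_C_mul, opL_pow, hu (N + 1)]
    simp only [map_mul, map_pow, map_add, map_natCast, map_one, map_ofNat]
    push_cast
    ring

theorem opE_sf {μ l : ℤ} {t : ℕ → ℤ} 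
    (ht : ∀ k : ℕ, t (k + 1) * ((k : ℤ) + 1) ^ 2 = t k * (μ * k * (k + 1) + l)) (N : ℕ) :
    opE μ l (sf t (N + 1)) = -(C (t (N + 1) * ((N : ℤ) + 1) ^ 2) * X ^ N) := by
  induction N with
  | zero =>
    unfold sf
    rw [Finset.sum_range_one, pow_zero, ht 0]
    unfold opE
    simp only [derivative_mul, derivative_C, derivative_one, derivative_zero, map_mul]
    simp
    ring
  | succ N ih =>
    have : sf t (N + 1 + 1) = sf t (N + 1) + C (t (N + 1)) * X ^ (N + 1) := by
      unfold sf; rw [Finset.sum_range_succ]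
    have e : opE μ l (sf t (N + 1) + C (t (N + 1)) * X ^ (N + 1)) =
        opE μ l (sf t (N + 1)) + C (t (N + 1)) * ((X - C μ * X ^ 2) * derivative (derivative (X ^ (N + 1)))
          + (1 - 2 * C μ * X) * derivative (X ^ (N + 1)) - C l * X ^ (N + 1)) := by
      unfold opE
      simp only [derivative_add, derivative_C_mul]
      ring
    rw [this, e, ih, ht (N + 1)]
    have hX : X * derivative ((X : ℤ[X]) ^ N) = (N : ℤ[X]) * X ^ N := by
      rw [derivative_X_pow]
      rcases N with _ | N
      · simp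
      · simp only [Nat.add_sub_cancel, map_natCast]
        ring
    have d1 : derivative ((X : ℤ[X]) ^ (N + 1)) = ((N : ℤ[X]) + 1) * X ^ N := by
      rw [derivative_X_pow]; simp
    have d2 : derivative (((N : ℤ[X]) + 1) * X ^ N) = ((N : ℤ[X]) + 1) * derivative (X ^ N) := by
      rw [derivative_mul]; simp
    rw [d1, d2]
    simp only [map_mul, map_pow, map_add, map_natCast, map_one]
    push_cast
    linear_combination (C (t (N + 1)) * (1 - C μ * X) * (N + 1)) * hX

/-- `X` times the derivative does not lower the order. -/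
theorem dvd_theta {m : ℕ} {f : ℤ[X]} (h : X ^ m ∣ f) : X ^ m ∣ X * derivative f := by
  rw [X_pow_dvd_iff] at h ⊢
  intro d hd
  rcases d with _ | d
  · simp
  · rw [coeff_X_mul, coeff_derivative, h (d + 1) hd, zero_mul]

theorem coeff_theta (f : ℤ[X]) (m : ℕ) : (X * derivative f).coeff m = m * f.coeff m := by
  rcases m with _ | m
  · simp
  · rw [coeff_X_mul, coeff_derivative]; push_cast; ring

theorem opL_theta (μ l : ℤ) (f : ℤ[X]) : X * opL μ l f =
    X * derivative (X * derivative (X * derivative f)) +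
      X * (-(2 * C μ * (X * derivative (X * derivative (X * derivative f))) +
        3 * C μ * (X * derivative (X * derivative f)) + (C μ + 4 * C l) * (X * derivative f) + 2 * C l * f) +
        X * C μ * (C μ * (X * derivative (X * derivative (X * derivative f))) +
        3 * C μ * (X * derivative (X * derivative f)) + (2 * C μ + 4 * C l) * (X * derivative f) +
        4 * C l * f)) := by
  unfold opL opY
  simp only [derivative_add, derivative_sub, derivative_mul, derivative_X, derivative_C,
    derivative_one, derivative_ofNat, derivative_X_pow, derivative_zero, map_ofNat, Nat.cast_ofNat]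
  ring

/-- Uniqueness of the solutions. -/
theorem order_up {μ l : ℤ} {f : ℤ[X]} {N : ℕ} (h0 : f.coeff 0 = 0) (hL : X ^ N ∣ opL μ l f) :
    ∀ m : ℕ, m ≤ N + 1 → X ^ m ∣ f := by
  intro m
  induction m with
  | zero => intro _; rw [pow_zero]; exact one_dvd _
  | succ m ih =>
    intro hm
    have h1 := ih (by omega)
    rw [X_pow_dvd_iff]
    intro d hd
    rcases Nat.lt_succ_iff_lt_or_eq.1 hd with h | h
    · exact (X_pow_dvd_iff.1 h1) d h
    · subst h
      rcases Nat.eq_zero_or_pos d with h2 | h2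
      · rw [h2]; exact h0
      · obtain ⟨e, rfl⟩ : ∃ e, d = e + 1 := ⟨d - 1, by omega⟩
        have t1 := dvd_theta h1
        have t2 := dvd_theta t1
        have t3 := dvd_theta t2
        have key := congrArg (fun g : ℤ[X] => g.coeff (e + 1)) (opL_theta μ l f)
        simp only [coeff_add (X * derivative (X * derivative (X * derivative f)))] at key
        rw [coeff_X_mul, coeff_X_mul, coeff_X_mul] at key
        have q1 : (opL μ l f).coeff e = 0 := (X_pow_dvd_iff.1 hL) e (by omega)
        have q2 : X ^ (e + 1) ∣ (-(2 * C μ * (X * derivative (X * derivative (X * derivative f))) +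
            3 * C μ * (X * derivative (X * derivative f)) + (C μ + 4 * C l) * (X * derivative f) +
              2 * C l * f) +
            X * C μ * (C μ * (X * derivative (X * derivative (X * derivative f))) +
            3 * C μ * (X * derivative (X * derivative f)) + (2 * C μ + 4 * C l) * (X * derivative f) +
            4 * C l * f)) := by
          apply dvd_add
          · apply (dvd_neg).2
            exact dvd_add (dvd_add (dvd_add (t3.mul_left _) (t2.mul_left _)) (t1.mul_left _))
              (h1.mul_left _)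
          · exact (dvd_add (dvd_add (dvd_add (t3.mul_left _) (t2.mul_left _)) (t1.mul_left _))
              (h1.mul_left _)).mul_left _
        have q3 := (X_pow_dvd_iff.1 q2) e (by omega)
        rw [q1, q3, add_zero] at key
        have q4 : (X * derivative (X * derivative (X * derivative f))).coeff (e + 1) =
            ((e + 1 : ℕ) : ℤ) ^ 3 * f.coeff (e + 1) := by
          rw [coeff_theta, coeff_theta, coeff_theta]; ring
        rw [coeff_X_mul] at q4
        rw [q4] at key
        rcases mul_eq_zero.1 key.symm with h | h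
        · exfalso
          have := pow_eq_zero_iff (three_ne_zero) |>.1 h
          norm_cast at this
        · exact h

/-- Clausen's formula for truncated sums. -/
theorem clausen {μ l : ℤ} {t u : ℕ → ℤ} (ht0 : t 0 = 1) (hu0 : u 0 = 1)
    (ht : ∀ k : ℕ, t (k + 1) * ((k : ℤ) + 1) ^ 2 = t k * (μ * k * (k + 1) + l))
    (hu : ∀ k : ℕ, u (k + 1) * ((k : ℤ) + 1) ^ 3 =
      u k * ((4 * μ * k ^ 2 + 2 * μ * k + 2 * l) * (k + 1) + 2 * l * k)) (N : ℕ) :
    X ^ (N + 1) ∣ sF μ u (N + 1) - sf t (N + 1) ^ 2 := by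
  refine order_up (μ := μ) (l := l) (N := N) ?_ ?_ (N + 1) le_rfl
  · have h1 : (sF μ u (N + 1)).coeff 0 = 1 := by
      rw [coeff_zero_eq_eval_zero]
      unfold sF
      rw [eval_finsetSum, Finset.sum_range_succ']
      simp [hu0]
    have h2 : (sf t (N + 1)).coeff 0 = 1 := by
      rw [coeff_zero_eq_eval_zero]
      unfold sf
      rw [eval_finsetSum, Finset.sum_range_succ']
      simp [ht0]
    rw [coeff_sub, h1, pow_two, mul_coeff_zero, h2]
    ring
  · rw [opL_sub, opL_sF hu, opL_sq, opE_sf ht]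
    have hX : (X : ℤ[X]) ^ N ∣ (X - C μ * X ^ 2) ^ N := by
      apply pow_dvd_pow_of_dvd
      exact ⟨1 - C μ * X, by ring⟩
    apply dvd_sub
    · apply (dvd_neg).2
      exact (hX.mul_left _).mul_left _
    · refine dvd_add (dvd_add ?_ ?_) ?_
      · exact ((dvd_neg).2 (dvd_mul_left _ _)).mul_left _
      · have h3 : X ^ N ∣ X * derivative (-(C (t (N + 1) * ((N : ℤ) + 1) ^ 2) * X ^ N)) :=
          dvd_theta ((dvd_neg).2 (dvd_mul_left _ _))
        obtain ⟨g, hg⟩ := h3
        refine ⟨2 * (1 - C μ * X) * sf t (N + 1) * g, ?_⟩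
        linear_combination (2 * (1 - C μ * X) * sf t (N + 1)) * hg
      · exact ((dvd_neg).2 (dvd_mul_left _ _)).mul_left _

/-- Clausen's formula modulo `p ^ 2`. -/
theorem clausen_mod {μ l : ℤ} {t u : ℕ → ℤ} (ht0 : t 0 = 1) (hu0 : u 0 = 1)
    (ht : ∀ k : ℕ, t (k + 1) * ((k : ℤ) + 1) ^ 2 = t k * (μ * k * (k + 1) + l))
    (hu : ∀ k : ℕ, u (k + 1) * ((k : ℤ) + 1) ^ 3 =
      u k * ((4 * μ * k ^ 2 + 2 * μ * k + 2 * l) * (k + 1) + 2 * l * k)) {p : ℕ} (hp : 0 < p)
    (hu2 : ∀ k < p, p ≤ 2 * k → (p : ℤ) ^ 2 ∣ u k)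
    (ht2 : ∀ i < p, ∀ j < p, p ≤ i + j → (p : ℤ) ^ 2 ∣ t i * t j) :
    ∃ G : ℤ[X], sF μ u p = sf t p ^ 2 + C ((p : ℤ) ^ 2) * G := by
  obtain ⟨N, rfl⟩ : ∃ N, p = N + 1 := ⟨p - 1, by omega⟩
  have h := clausen ht0 hu0 ht hu N
  have key : C (((N + 1 : ℕ) : ℤ) ^ 2) ∣ sF μ u (N + 1) - sf t (N + 1) ^ 2 := by
    rw [C_dvd_iff_dvd_coeff]
    intro m
    rcases Nat.lt_or_ge m (N + 1) with hm | hm
    · rw [(X_pow_dvd_iff.1 h) m hm]; exact dvd_zero _
    · rw [coeff_sub]
      apply dvd_sub
      · unfold sF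
        rw [finsetSum_coeff]
        apply Finset.dvd_sum
        intro k hk
        rw [coeff_C_mul]
        rcases Nat.lt_or_ge (2 * k) (N + 1) with h1 | h1
        · have : ((X - C μ * X ^ 2 : ℤ[X]) ^ k).coeff m = 0 := by
            apply coeff_eq_zero_of_natDegree_lt
            have hd : (X - C μ * X ^ 2 : ℤ[X]).natDegree ≤ 2 := by
              refine (natDegree_sub_le _ _).trans ?_
              apply max_le
              · rw [natDegree_X]; omega
              · exact natDegree_C_mul_X_pow_le _ _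
            have := natDegree_pow_le (p := (X - C μ * X ^ 2 : ℤ[X])) (n := k)
            have h3 : k * (X - C μ * X ^ 2 : ℤ[X]).natDegree ≤ k * 2 := Nat.mul_le_mul_left _ hd
            omega
          rw [this, mul_zero]; exact dvd_zero _
        · exact (hu2 k (Finset.mem_range.1 hk) h1).mul_right _
      · have hc : ∀ i, (sf t (N + 1)).coeff i = if i < N + 1 then t i else 0 := by
          intro i
          unfold sf
          rw [finsetSum_coeff]
          simp only [coeff_C_mul, coeff_X_pow, mul_ite, mul_one, mul_zero]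
          rw [Finset.sum_ite_eq]
          simp
        rw [pow_two (sf t (N + 1)), coeff_mul]
        apply Finset.dvd_sum
        rintro ⟨i, j⟩ hij
        rw [Finset.HasAntidiagonal.mem_antidiagonal] at hij
        simp only at hij
        rw [hc, hc]
        split_ifs with h1 h2
        · exact ht2 i h1 j h2 (by omega)
        · rw [mul_zero]; exact dvd_zero _
        · rw [zero_mul]; exact dvd_zero _
        · rw [zero_mul]; exact dvd_zero _
  obtain ⟨G, hG⟩ := key
  exact ⟨G, by rw [← hG]; ring⟩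

/-- Clausen's formula modulo `p ^ 2` at an element of a commutative ring. -/
theorem clausen_eval {μ l : ℤ} {t u : ℕ → ℤ} (ht0 : t 0 = 1) (hu0 : u 0 = 1)
    (ht : ∀ k : ℕ, t (k + 1) * ((k : ℤ) + 1) ^ 2 = t k * (μ * k * (k + 1) + l))
    (hu : ∀ k : ℕ, u (k + 1) * ((k : ℤ) + 1) ^ 3 =
      u k * ((4 * μ * k ^ 2 + 2 * μ * k + 2 * l) * (k + 1) + 2 * l * k)) {p : ℕ} (hp : 0 < p)
    (hu2 : ∀ k < p, p ≤ 2 * k → (p : ℤ) ^ 2 ∣ u k)
    (ht2 : ∀ i < p, ∀ j < p, p ≤ i + j → (p : ℤ) ^ 2 ∣ t i * t j)
    {A : Type*} [CommRing A] (c : A) :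
    (p : A) ^ 2 ∣ (∑ k ∈ Finset.range p, (u k : A) * (c - μ * c ^ 2) ^ k) -
      (∑ k ∈ Finset.range p, (t k : A) * c ^ k) ^ 2 := by
  obtain ⟨G, hG⟩ := clausen_mod ht0 hu0 ht hu hp hu2 ht2
  refine ⟨aeval c G, ?_⟩
  have := congrArg (aeval c) hG
  unfold sF sf at this
  simp only [map_sum, map_add, map_mul, map_sub, map_pow, aeval_X, aeval_C, map_natCast] at this
  simp only [eq_intCast, algebraMap_int_eq] at this
  rw [this]
  ring

end Pool.Agent.H475R2
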