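import Pool.Agent.H475R2.Cl

/-!
The two sequences to which the truncated Clausen formula is applied.
-/

set_option autoImplicit false
set_option linter.unusedSectionVars false
set_option linter.unusedSimpArgs false
set_option linter.unusedVariables false

namespace Pool.Agent.H475R2

/-- `C(2k,k) C(3k,k)` -/
def t3 (k : ℕ) : ℤ := ((Nat.choose (2 * k) k * Nat.choose (3 * k) k : ℕ) : ℤ)

/-- `C(2k,k)^2 C(3k,k)` -/
def u3 (k : ℕ) : ℤ := ((Nat.choose (2 * k) k ^ 2 * Nat.choose (3 * k) k : ℕ) : ℤ)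

/-- `C(2k,k)^2` -/
def t2 (k : ℕ) : ℤ := ((Nat.choose (2 * k) k ^ 2 : ℕ) : ℤ)

/-- `C(2k,k)^3` -/
def u2 (k : ℕ) : ℤ := ((Nat.choose (2 * k) k ^ 3 : ℕ) : ℤ)

theorem ch2 (k : ℕ) : ((Nat.choose (2 * (k + 1)) (k + 1) : ℕ) : ℤ) * (k + 1) =
    2 * (2 * k + 1) * (Nat.choose (2 * k) k : ℕ) := by
  have := Nat.succ_mul_centralBinom_succ k
  unfold Nat.centralBinom at this
  have h := congrArg (fun x : ℕ => (x : ℤ)) this
  push_cast at h ⊢
  linear_combination h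

theorem ch3 (k : ℕ) : ((Nat.choose (3 * (k + 1)) (k + 1) : ℕ) : ℤ) * (2 * (k + 1) * (2 * k + 1)) =
    3 * (3 * k + 2) * (3 * k + 1) * (Nat.choose (3 * k) k : ℕ) := by
  have h1 := Nat.choose_mul_factorial_mul_factorial (show k ≤ 3 * k by omega)
  have h2 := Nat.choose_mul_factorial_mul_factorial (show k + 1 ≤ 3 * (k + 1) by omega)
  rw [show 3 * k - k = 2 * k by omega] at h1
  rw [show 3 * (k + 1) - (k + 1) = 2 * k + 1 + 1 by omega, show Nat.factorial (3 * (k + 1)) =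
    Nat.factorial (3 * k + 1 + 1 + 1) from rfl, Nat.factorial_succ k, Nat.factorial_succ (2 * k + 1),
    Nat.factorial_succ (2 * k), Nat.factorial_succ (3 * k + 1 + 1), Nat.factorial_succ (3 * k + 1),
    Nat.factorial_succ (3 * k), ← h1] at h2
  have h3 := congrArg (fun x : ℕ => (x : ℤ)) h2
  push_cast at h3
  have hk : ((Nat.factorial k : ℕ) : ℤ) ≠ 0 := by exact_mod_cast Nat.factorial_ne_zero k
  have h2k : ((Nat.factorial (2 * k) : ℕ) : ℤ) ≠ 0 := by exact_mod_cast Nat.factorial_ne_zero (2 * k)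
  have hk1 : ((k : ℤ) + 1) ≠ 0 := by positivity
  apply mul_left_cancel₀ (mul_ne_zero (mul_ne_zero hk h2k) hk1)
  push_cast
  linear_combination h3

theorem t3_rec (k : ℕ) : t3 (k + 1) * ((k : ℤ) + 1) ^ 2 = t3 k * (27 * k * (k + 1) + 6) := by
  unfold t3
  have h1 := ch2 k
  have h2 := ch3 k
  have hk : (2 * (k : ℤ) + 1) ≠ 0 := by positivity
  apply mul_left_cancel₀ (mul_ne_zero (two_ne_zero) hk)
  push_cast at h1 h2 ⊢
  linear_combination ((2 * (k : ℤ) + 1) * (2 * (k + 1)) * ((Nat.choose (3 * (k + 1)) (k + 1) : ℕ) : ℤ)) * h1 +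
    (2 * (2 * (k : ℤ) + 1) * (Nat.choose (2 * k) k : ℕ)) * h2

theorem u3_rec (k : ℕ) : u3 (k + 1) * ((k : ℤ) + 1) ^ 3 =
    u3 k * ((4 * 27 * k ^ 2 + 2 * 27 * k + 2 * 6) * (k + 1) + 2 * 6 * k) := by
  have h1 := ch2 k
  have h2 := t3_rec k
  have e1 : u3 (k + 1) = (Nat.choose (2 * (k + 1)) (k + 1) : ℕ) * t3 (k + 1) := by
    unfold u3 t3; push_cast; ring
  have e2 : u3 k = (Nat.choose (2 * k) k : ℕ) * t3 k := by
    unfold u3 t3; push_cast; ring
  rw [e1, e2]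
  linear_combination (t3 (k + 1) * ((k : ℤ) + 1) ^ 2) * h1 + (2 * (2 * (k : ℤ) + 1) * (Nat.choose (2 * k) k : ℕ)) * h2

theorem t2_rec (k : ℕ) : t2 (k + 1) * ((k : ℤ) + 1) ^ 2 = t2 k * (16 * k * (k + 1) + 4) := by
  unfold t2
  have h1 := ch2 k
  push_cast at h1 ⊢
  linear_combination (((Nat.choose (2 * (k + 1)) (k + 1) : ℕ) : ℤ) * (k + 1) +
    2 * (2 * k + 1) * (Nat.choose (2 * k) k : ℕ)) * h1

theorem u2_rec (k : ℕ) : u2 (k + 1) * ((k : ℤ) + 1) ^ 3 =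
    u2 k * ((4 * 16 * k ^ 2 + 2 * 16 * k + 2 * 4) * (k + 1) + 2 * 4 * k) := by
  have h1 := ch2 k
  have h2 := t2_rec k
  have e1 : u2 (k + 1) = (Nat.choose (2 * (k + 1)) (k + 1) : ℕ) * t2 (k + 1) := by
    unfold u2 t2; push_cast; ring
  have e2 : u2 k = (Nat.choose (2 * k) k : ℕ) * t2 k := by
    unfold u2 t2; push_cast; ring
  rw [e1, e2]
  linear_combination (t2 (k + 1) * ((k : ℤ) + 1) ^ 2) * h1 + (2 * (2 * (k : ℤ) + 1) * (Nat.choose (2 * k) k : ℕ)) * h2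

theorem p_dvd_ch2 {p k : ℕ} (hp : p.Prime) (hk : k < p) (h : p ≤ 2 * k) :
    (p : ℤ) ∣ (Nat.choose (2 * k) k : ℕ) := by
  exact_mod_cast hp.dvd_choose hk (by omega) h

theorem t3_fac (k : ℕ) : t3 k * (Nat.factorial k : ℕ) ^ 3 = (Nat.factorial (3 * k) : ℕ) := by
  unfold t3
  have h1 := Nat.choose_mul_factorial_mul_factorial (show k ≤ 3 * k by omega)
  have h2 := Nat.choose_mul_factorial_mul_factorial (show k ≤ 2 * k by omega)
  rw [show 3 * k - k = 2 * k by omega] at h1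
  rw [show 2 * k - k = k by omega] at h2
  have h3 : Nat.choose (2 * k) k * Nat.choose (3 * k) k * Nat.factorial k ^ 3 = Nat.factorial (3 * k) := by
    rw [← h1, ← h2]; ring
  exact_mod_cast h3

theorem coprime_fac {p k : ℕ} (hp : p.Prime) (hk : k < p) (m n : ℕ) :
    IsCoprime ((p : ℤ) ^ m) (((Nat.factorial k : ℕ) : ℤ) ^ n) := by
  apply IsCoprime.pow
  rw [Nat.isCoprime_iff_coprime, Nat.Prime.coprime_iff_not_dvd hp]
  intro h
  exact absurd ((hp.dvd_factorial).1 h) (by omega)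

theorem p_dvd_t3 {p k : ℕ} (hp : p.Prime) (hk : k < p) (h : p ≤ 3 * k) : (p : ℤ) ∣ t3 k := by
  have h1 : (p : ℤ) ∣ t3 k * (Nat.factorial k : ℕ) ^ 3 := by
    rw [t3_fac]
    exact_mod_cast (hp.dvd_factorial).2 h
  have h2 := coprime_fac hp hk 1 3
  rw [pow_one] at h2
  exact h2.dvd_of_dvd_mul_right h1

theorem p2_dvd_t3 {p k : ℕ} (hp : p.Prime) (hk : k < p) (h : 2 * p ≤ 3 * k) : (p : ℤ) ^ 2 ∣ t3 k := by
  have h1 : (p : ℤ) ^ 2 ∣ t3 k * (Nat.factorial k : ℕ) ^ 3 := by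
    rw [t3_fac]
    have h3 : Nat.factorial p * Nat.factorial p ∣ Nat.factorial (p + p) :=
      Nat.factorial_mul_factorial_dvd_factorial_add p p
    have h4 : p ∣ Nat.factorial p := (hp.dvd_factorial).2 le_rfl
    have h5 : p ^ 2 ∣ Nat.factorial (3 * k) := by
      rw [pow_two]
      exact ((mul_dvd_mul h4 h4).trans h3).trans (Nat.factorial_dvd_factorial (by omega))
    exact_mod_cast h5
  exact (coprime_fac hp hk 2 3).dvd_of_dvd_mul_right h1

theorem t3_prod {p : ℕ} (hp : p.Prime) (i : ℕ) (hi : i < p) (j : ℕ) (hj : j < p) (h : p ≤ i + j) :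
    (p : ℤ) ^ 2 ∣ t3 i * t3 j := by
  rcases Nat.lt_or_ge (3 * i) p with h1 | h1
  · exact (p2_dvd_t3 hp hj (by omega)).mul_left _
  · rcases Nat.lt_or_ge (3 * j) p with h2 | h2
    · exact (p2_dvd_t3 hp hi (by omega)).mul_right _
    · rw [pow_two]
      exact mul_dvd_mul (p_dvd_t3 hp hi h1) (p_dvd_t3 hp hj h2)

theorem t2_prod {p : ℕ} (hp : p.Prime) (i : ℕ) (hi : i < p) (j : ℕ) (hj : j < p) (h : p ≤ i + j) :
    (p : ℤ) ^ 2 ∣ t2 i * t2 j := by
  unfold t2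
  push_cast
  rcases Nat.lt_or_ge (2 * i) p with h1 | h1
  · exact (pow_dvd_pow_of_dvd (p_dvd_ch2 hp hj (by omega)) 2).mul_left _
  · exact (pow_dvd_pow_of_dvd (p_dvd_ch2 hp hi h1) 2).mul_right _

theorem u3_dvd {p : ℕ} (hp : p.Prime) (k : ℕ) (hk : k < p) (h : p ≤ 2 * k) : (p : ℤ) ^ 2 ∣ u3 k := by
  unfold u3
  push_cast
  exact (pow_dvd_pow_of_dvd (p_dvd_ch2 hp hk h) 2).mul_right _

theorem u2_dvd {p : ℕ} (hp : p.Prime) (k : ℕ) (hk : k < p) (h : p ≤ 2 * k) : (p : ℤ) ^ 2 ∣ u2 k := by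
  unfold u2
  push_cast
  exact (pow_dvd_pow_of_dvd (p_dvd_ch2 hp hk h) 2).trans (pow_dvd_pow _ (by norm_num))

/-- Truncated Clausen for the signature (1/3, 2/3). -/
theorem clausen3 {p : ℕ} (hp : p.Prime) {A : Type*} [CommRing A] (c : A) :
    (p : A) ^ 2 ∣ (∑ k ∈ Finset.range p, (u3 k : A) * (c * (1 - 27 * c)) ^ k) -
      (∑ k ∈ Finset.range p, (t3 k : A) * c ^ k) ^ 2 := by
  have := clausen_eval (μ := 27) (l := 6) (t := t3) (u := u3) (by decide) (by decide) t3_rec u3_rec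
    hp.pos (u3_dvd hp) (t3_prod hp) c
  have e : c - ((27 : ℤ) : A) * c ^ 2 = c * (1 - 27 * c) := by push_cast; ring
  rw [e] at this
  exact this

/-- Truncated Clausen for the signature (1/2, 1/2). -/
theorem clausen2 {p : ℕ} (hp : p.Prime) {A : Type*} [CommRing A] (c : A) :
    (p : A) ^ 2 ∣ (∑ k ∈ Finset.range p, (u2 k : A) * (c * (1 - 16 * c)) ^ k) -
      (∑ k ∈ Finset.range p, (t2 k : A) * c ^ k) ^ 2 := by
  have := clausen_eval (μ := 16) (l := 4) (t := t2) (u := u2) (by decide) (by decide) t2_rec u2_rec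
    hp.pos (u2_dvd hp) (t2_prod hp) c
  have e : c - ((16 : ℤ) : A) * c ^ 2 = c * (1 - 16 * c) := by push_cast; ring
  rw [e] at this
  exact this

end Pool.Agent.H475R2
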