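import Pool.Agent.H475R2.In2

/-!
The endomorphism `(1 + sqrt(-11)) / 2`: explicit data.
-/

set_option autoImplicit false
set_option linter.unusedSectionVars false
set_option linter.unusedSimpArgs false
set_option linter.unusedVariables false

namespace Pool.Agent.H475R2

open Polynomial

section ids

variable {A : Type*} [CommRing A] (X s v : A)

theorem id11_1 (h : s ^ 2 - s + 3 = 0) :
    (X ^ 3 + 36 * v ^ 2 * X ^ 2 + 48 * (5 - 2 * s) * v ^ 4 * X + 16 * (5 - 2 * s) ^ 2 * v ^ 6) *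
      (X ^ 3 - 96 * (5 - 2 * s) * v ^ 4 * X - 128 * (5 - 2 * s) ^ 2 * v ^ 6) ^ 2 =
    (X ^ 3 + 12 * (1 - s ^ 2) * v ^ 2 * X ^ 2 + 96 * (5 - 2 * s) * v ^ 4 * X +
        64 * (5 - 2 * s) ^ 2 * v ^ 6) ^ 3 +
      36 * v ^ 2 * (X ^ 3 + 12 * (1 - s ^ 2) * v ^ 2 * X ^ 2 + 96 * (5 - 2 * s) * v ^ 4 * X +
        64 * (5 - 2 * s) ^ 2 * v ^ 6) ^ 2 * (s ^ 2 * X ^ 2) +
      48 * (5 - 2 * s) * v ^ 4 * (X ^ 3 + 12 * (1 - s ^ 2) * v ^ 2 * X ^ 2 +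
        96 * (5 - 2 * s) * v ^ 4 * X + 64 * (5 - 2 * s) ^ 2 * v ^ 6) * (s ^ 2 * X ^ 2) ^ 2 +
      16 * (5 - 2 * s) ^ 2 * v ^ 6 * (s ^ 2 * X ^ 2) ^ 3 := by
  linear_combination ((24576)*X^4*s^5*v^10 + (-49152)*X^4*s^4*v^10 + (-64)*X^6*s^6*v^6 + (-215040)*X^4*s^3*v^10 +
    (-18432)*X^5*s^4*v^8 + (-896)*X^6*s^5*v^6 + (239616)*X^4*s^2*v^10 + (-9216)*X^5*s^3*v^8 +
    (-1680)*X^6*s^4*v^6 + (1105920)*X^4*s*v^10 + (138240)*X^5*s^2*v^8 + (2160)*X^6*s^3*v^6 +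
    (-1382400)*X^4*v^10 + (165888)*X^5*s*v^8 + (9504)*X^6*s^2*v^6 + (96)*X^7*s^3*v^4 +
    (-414720)*X^5*v^8 + (3024)*X^6*s*v^6 + (288)*X^7*s^2*v^4 + (-27216)*X^6*v^6 + (-864)*X^7*v^4) * h

theorem id11_3 (h : s ^ 2 - s + 3 = 0) :
    (X ^ 3 + 36 * v ^ 2 * X ^ 2 + 48 * (5 - 2 * s) * v ^ 4 * X + 16 * (5 - 2 * s) ^ 2 * v ^ 6) *
      (s ^ 3 * X ^ 3 + (X ^ 3 - 96 * (5 - 2 * s) * v ^ 4 * X -
        128 * (5 - 2 * s) ^ 2 * v ^ 6)) ^ 2 * ((-2 - s) * (X + 4 * (1 - s) * v ^ 2) ^ 2) =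
    (s ^ 2 * X ^ 2 * ((X ^ 3 + 4 * (11 + s) * v ^ 2 * X ^ 2 + 16 * (16 - s) * v ^ 4 * X) +
        (36 * v ^ 2 + X) * ((-2 - s) * (X + 4 * (1 - s) * v ^ 2) ^ 2)) +
        (X ^ 3 + 12 * (1 - s ^ 2) * v ^ 2 * X ^ 2 +
        96 * (5 - 2 * s) * v ^ 4 * X + 64 * (5 - 2 * s) ^ 2 * v ^ 6) *
        ((-2 - s) * (X + 4 * (1 - s) * v ^ 2) ^ 2)) *
      (s ^ 2 * X ^ 3 - (X ^ 3 + 12 * (1 - s ^ 2) * v ^ 2 * X ^ 2 +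
        96 * (5 - 2 * s) * v ^ 4 * X + 64 * (5 - 2 * s) ^ 2 * v ^ 6)) ^ 2 := by
  linear_combination ((1048576)*X^3*s^8*v^16 + (-10485760)*X^3*s^7*v^16 + (33030144)*X^3*s^6*v^16 +
    (-4259840)*X^4*s^7*v^14 + (-1024)*X^6*s^9*v^10 + (-2621440)*X^3*s^5*v^16 +
    (26148864)*X^4*s^6*v^14 + (-196608)*X^5*s^7*v^12 + (4096)*X^6*s^8*v^10 +
    (-194969600)*X^3*s^4*v^16 + (-27934720)*X^4*s^5*v^14 + (5226496)*X^5*s^6*v^12 +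
    (55040)*X^6*s^7*v^10 + (2048)*X^7*s^8*v^8 + (393216000)*X^3*s^3*v^16 +
    (-118521856)*X^4*s^4*v^14 + (-16130048)*X^5*s^5*v^12 + (305920)*X^6*s^6*v^10 +
    (7680)*X^7*s^7*v^8 + (-245760000)*X^3*s^2*v^16 + (303464448)*X^4*s^3*v^14 +
    (-14254080)*X^5*s^4*v^12 + (-2625280)*X^6*s^5*v^10 + (-25984)*X^7*s^6*v^8 + (-640)*X^8*s^7*v^6
    + (-153239552)*X^4*s^2*v^14 + (93470720)*X^5*s^3*v^12 + (1881088)*X^6*s^4*v^10 +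
    (-212224)*X^7*s^5*v^8 + (-5056)*X^8*s^6*v^6 + (-101744640)*X^4*s*v^14 +
    (-61591552)*X^5*s^2*v^12 + (11976960)*X^6*s^3*v^10 + (391296)*X^7*s^4*v^8 + (-5264)*X^8*s^5*v^6
    + (44236800)*X^4*v^14 + (-53968896)*X^5*s*v^12 + (-14271744)*X^6*s^2*v^10 +
    (622720)*X^7*s^3*v^8 + (32208)*X^8*s^4*v^6 + (480)*X^9*s^5*v^4 + (35389440)*X^5*v^12 +
    (-8204544)*X^6*s*v^10 + (-1466368)*X^7*s^2*v^8 + (14400)*X^8*s^3*v^6 + (816)*X^9*s^4*v^4 +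
    (8)*X^10*s^5*v^2 + (10271232)*X^6*v^10 + (-224640)*X^7*s*v^8 + (-72656)*X^8*s^2*v^6 +
    (-1056)*X^9*s^3*v^4 + (-28)*X^10*s^4*v^2 + (1292544)*X^7*v^8 + (14256)*X^8*s*v^6 +
    (-2256)*X^9*s^2*v^4 + (-80)*X^10*s^3*v^2 + (-1)*X^11*s^4 + (68256)*X^8*v^6 + (864)*X^9*s*v^4 +
    (-44)*X^10*s^2*v^2 + (-2)*X^11*s^3 + (1728)*X^9*v^4 + (-1)*X^11*s^2) * h

theorem id11_4 (h : s ^ 2 - s + 3 = 0) :
    (X ^ 3 + 36 * v ^ 2 * X ^ 2 + 48 * (5 - 2 * s) * v ^ 4 * X + 16 * (5 - 2 * s) ^ 2 * v ^ 6) *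
      ((3 * X ^ 2 + 8 * (11 + s) * v ^ 2 * X + 16 * (16 - s) * v ^ 4) *
          ((-2 - s) * (X + 4 * (1 - s) * v ^ 2) ^ 2) -
        (X ^ 3 + 4 * (11 + s) * v ^ 2 * X ^ 2 + 16 * (16 - s) * v ^ 4 * X) *
          ((-2 - s) * (2 * (X + 4 * (1 - s) * v ^ 2)))) ^ 2 =
    (1 - s) ^ 2 * ((-2 - s) * (X + 4 * (1 - s) * v ^ 2) ^ 2) *
      ((X ^ 3 + 4 * (11 + s) * v ^ 2 * X ^ 2 + 16 * (16 - s) * v ^ 4 * X) ^ 3 +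
      36 * v ^ 2 * (X ^ 3 + 4 * (11 + s) * v ^ 2 * X ^ 2 + 16 * (16 - s) * v ^ 4 * X) ^ 2 *
        ((-2 - s) * (X + 4 * (1 - s) * v ^ 2) ^ 2) +
      48 * (5 - 2 * s) * v ^ 4 * (X ^ 3 + 4 * (11 + s) * v ^ 2 * X ^ 2 + 16 * (16 - s) * v ^ 4 * X) *
        ((-2 - s) * (X + 4 * (1 - s) * v ^ 2) ^ 2) ^ 2 +
      16 * (5 - 2 * s) ^ 2 * v ^ 6 * ((-2 - s) * (X + 4 * (1 - s) * v ^ 2) ^ 2) ^ 3) := by
  linear_combination ((-4194304)*s^14*v^22 + (25165824)*s^13*v^22 + (8388608)*X*s^13*v^20 + (15728640)*s^12*v^22 +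
    (-41943040)*X*s^12*v^20 + (-372244480)*s^11*v^22 + (-67108864)*X*s^11*v^20 +
    (-7340032)*X^2*s^12*v^18 + (430964736)*s^10*v^22 + (548405248)*X*s^10*v^20 +
    (27787264)*X^2*s^11*v^18 + (1975517184)*s^9*v^22 + (101711872)*X*s^9*v^20 +
    (72351744)*X^2*s^10*v^18 + (3670016)*X^3*s^11*v^16 + (-4080009216)*s^8*v^22 +
    (-2906652672)*X*s^8*v^20 + (-243531776)*X^2*s^9*v^18 + (-9043968)*X^3*s^10*v^16 +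
    (-4570742784)*s^7*v^22 + (-349175808)*X*s^7*v^20 + (-498597888)*X^2*s^8*v^18 +
    (-30474240)*X^3*s^9*v^16 + (-1146880)*X^4*s^10*v^14 + (15398338560)*s^6*v^22 +
    (10446962688)*X*s^6*v^20 + (467402752)*X^2*s^7*v^18 + (-2490368)*X^3*s^8*v^16 +
    (1409024)*X^4*s^9*v^14 + (2866806784)*s^5*v^22 + (1852833792)*X*s^5*v^20 +
    (3614965760)*X^2*s^6*v^18 + (156958720)*X^3*s^7*v^16 + (2760704)*X^4*s^8*v^14 +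
    (229376)*X^5*s^9*v^12 + (-31520194560)*s^4*v^22 + (-29886513152)*X*s^4*v^20 +
    (-521011200)*X^2*s^5*v^18 + (739901440)*X^3*s^6*v^16 + (26910720)*X^4*s^7*v^14 +
    (-106496)*X^5*s^8*v^12 + (12532580352)*s^3*v^22 + (10621026304)*X*s^3*v^20 +
    (-13846446080)*X^2*s^4*v^18 + (-897843200)*X^3*s^5*v^16 + (59334656)*X^4*s^6*v^14 +
    (1855488)*X^5*s^7*v^12 + (-28672)*X^6*s^8*v^10 + (29448208384)*s^2*v^22 +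
    (38407241728)*X*s^2*v^20 + (8291745792)*X^2*s^3*v^18 + (-3217620992)*X^3*s^4*v^16 +
    (-279035904)*X^4*s^5*v^14 + (-4222976)*X^5*s^6*v^12 + (30720)*X^6*s^7*v^10 +
    (-30953963520)*s*v^22 + (-40647000064)*X*s*v^20 + (17005543424)*X^2*s^2*v^18 +
    (3584425984)*X^3*s^3*v^16 + (-316141568)*X^4*s^4*v^14 + (-33021952)*X^5*s^5*v^12 +
    (-610304)*X^6*s^6*v^10 + (2048)*X^7*s^7*v^8 + (8808038400)*v^22 + (11911823360)*X*v^20 +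
    (-20617625600)*X^2*s*v^18 + (3393388544)*X^3*s^2*v^16 + (764547072)*X^4*s^3*v^14 +
    (2670592)*X^5*s^4*v^12 + (-718848)*X^6*s^5*v^10 + (-11776)*X^7*s^6*v^8 + (6254755840)*X^2*v^18
    + (-5374214144)*X^3*s*v^16 + (318337024)*X^4*s^2*v^14 + (87130112)*X^5*s^3*v^12 +
    (3161088)*X^6*s^4*v^10 + (59904)*X^7*s^5*v^8 + (-64)*X^8*s^6*v^6 + (1653342208)*X^3*v^16 +
    (-786825216)*X^4*s*v^14 + (22917120)*X^5*s^2*v^12 + (6282240)*X^6*s^3*v^10 +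
    (160256)*X^7*s^4*v^8 + (1792)*X^8*s^5*v^6 + (234733568)*X^4*v^14 + (-70328320)*X^5*s*v^12 +
    (3280384)*X^6*s^2*v^10 + (278016)*X^7*s^3*v^8 + (-272)*X^8*s^4*v^6 + (17760256)*X^5*v^12 +
    (-6423552)*X^6*s*v^10 + (158208)*X^7*s^2*v^8 + (6416)*X^8*s^3*v^6 + (-96)*X^9*s^4*v^4 +
    (1040384)*X^6*v^10 + (-880384)*X^7*s*v^8 + (-18640)*X^8*s^2*v^6 + (16)*X^9*s^3*v^4 +
    (199168)*X^7*v^8 + (-77440)*X^8*s*v^6 + (-1696)*X^9*s^2*v^4 + (36800)*X^8*v^6 +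
    (-2560)*X^9*s*v^4 + (-32)*X^10*s^2*v^2 + (3328)*X^9*v^4 + (4)*X^10*s*v^2 + (136)*X^10*v^2 +
    (1)*X^11*s + (2)*X^11) * h

end ids

end Pool.Agent.H475R2
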