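import Pool.Agent.H475R2.In2

/-!
The endomorphism `sqrt(-2)`: explicit data.
-/

set_option autoImplicit false
set_option linter.unusedSectionVars false
set_option linter.unusedSimpArgs false
set_option linter.unusedVariables false

namespace Pool.Agent.H475R2

open Polynomial

section ids

variable {A : Type*} [CommRing A] (X s v : A)

theorem id8_1 (h : s ^ 2 + 2 = 0) :
    (X ^ 3 + 36 * v ^ 2 * X ^ 2 + 48 * (4 + 10 * s) * v ^ 4 * X + 16 * (4 + 10 * s) ^ 2 * v ^ 6) *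
      (X ^ 3 - 96 * (4 + 10 * s) * v ^ 4 * X - 128 * (4 + 10 * s) ^ 2 * v ^ 6) ^ 2 =
    (X ^ 3 + 12 * (1 - (1 - s) ^ 2) * v ^ 2 * X ^ 2 + 96 * (4 + 10 * s) * v ^ 4 * X +
        64 * (4 + 10 * s) ^ 2 * v ^ 6) ^ 3 +
      36 * v ^ 2 * (X ^ 3 + 12 * (1 - (1 - s) ^ 2) * v ^ 2 * X ^ 2 + 96 * (4 + 10 * s) * v ^ 4 * X +
        64 * (4 + 10 * s) ^ 2 * v ^ 6) ^ 2 * ((1 - s) ^ 2 * X ^ 2) +
      48 * (4 + 10 * s) * v ^ 4 * (X ^ 3 + 12 * (1 - (1 - s) ^ 2) * v ^ 2 * X ^ 2 +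
        96 * (4 + 10 * s) * v ^ 4 * X + 64 * (4 + 10 * s) ^ 2 * v ^ 6) * ((1 - s) ^ 2 * X ^ 2) ^ 2 +
      16 * (4 + 10 * s) ^ 2 * v ^ 6 * ((1 - s) ^ 2 * X ^ 2) ^ 3 := by
  linear_combination ((-3072000)*X^4*s^5*v^10 + (11366400)*X^4*s^4*v^10 + (-1600)*X^6*s^6*v^6 +
    (-7864320)*X^4*s^3*v^10 + (-460800)*X^5*s^4*v^8 + (14080)*X^6*s^5*v^6 +
    (-18677760)*X^4*s^2*v^10 + (1889280)*X^5*s^3*v^8 + (-49088)*X^6*s^4*v^6 + (-7864320)*X^4*s*v^10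
    + (-1935360)*X^5*s^2*v^8 + (73728)*X^6*s^3*v^6 + (-983040)*X^4*v^10 + (-2027520)*X^5*s*v^8 +
    (-10624)*X^6*s^2*v^6 + (-480)*X^7*s^3*v^4 + (-368640)*X^5*v^8 + (-88576)*X^6*s*v^6 +
    (2160)*X^7*s^2*v^4 + (-31232)*X^6*v^6 + (-2880)*X^7*s*v^4 + (-960)*X^7*v^4) * h

theorem id8_3 (h : s ^ 2 + 2 = 0) :
    (X ^ 3 + 36 * v ^ 2 * X ^ 2 + 48 * (4 + 10 * s) * v ^ 4 * X + 16 * (4 + 10 * s) ^ 2 * v ^ 6) *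
      ((1 - s) ^ 3 * X ^ 3 + (X ^ 3 - 96 * (4 + 10 * s) * v ^ 4 * X -
        128 * (4 + 10 * s) ^ 2 * v ^ 6)) ^ 2 * (-2 * X + 8 * (1 - 2 * s) * v ^ 2) =
    ((1 - s) ^ 2 * X ^ 2 * ((X ^ 2 + 8 * (4 + s) * v ^ 2 * X) + (36 * v ^ 2 + X) *
        (-2 * X + 8 * (1 - 2 * s) * v ^ 2)) + (X ^ 3 + 12 * (1 - (1 - s) ^ 2) * v ^ 2 * X ^ 2 +
        96 * (4 + 10 * s) * v ^ 4 * X + 64 * (4 + 10 * s) ^ 2 * v ^ 6) *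
        (-2 * X + 8 * (1 - 2 * s) * v ^ 2)) *
      ((1 - s) ^ 2 * X ^ 3 - (X ^ 3 + 12 * (1 - (1 - s) ^ 2) * v ^ 2 * X ^ 2 +
        96 * (4 + 10 * s) * v ^ 4 * X + 64 * (4 + 10 * s) ^ 2 * v ^ 6)) ^ 2 := by
  linear_combination ((-655360000)*X^3*s^6*v^14 + (262144000)*X^3*s^5*v^14 + (812646400)*X^3*s^4*v^14 +
    (-371916800)*X^4*s^5*v^12 + (-25600)*X^6*s^7*v^8 + (41943040)*X^3*s^3*v^14 +
    (425820160)*X^4*s^4*v^12 + (-3686400)*X^5*s^5*v^10 + (145920)*X^6*s^6*v^8 +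
    (-310378496)*X^3*s^2*v^14 + (409403392)*X^4*s^3*v^12 + (-53207040)*X^5*s^4*v^10 +
    (-225280)*X^6*s^5*v^8 + (-10880)*X^7*s^6*v^6 + (-134217728)*X^3*s*v^14 +
    (-103153664)*X^4*s^2*v^12 + (90021888)*X^5*s^3*v^10 + (-1200640)*X^6*s^4*v^8 +
    (73856)*X^7*s^5*v^6 + (-16777216)*X^3*v^14 + (-122421248)*X^4*s*v^12 + (53624832)*X^5*s^2*v^10
    + (-652288)*X^6*s^3*v^8 + (-195328)*X^7*s^4*v^6 + (-960)*X^8*s^5*v^4 + (-20971520)*X^4*v^12 +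
    (-5603328)*X^5*s*v^10 + (4926464)*X^6*s^2*v^8 + (139136)*X^7*s^3*v^6 + (5808)*X^8*s^4*v^4 +
    (-8)*X^9*s^5*v^2 + (-3735552)*X^5*v^10 + (3170304)*X^6*s*v^8 + (5120)*X^7*s^2*v^6 +
    (-13344)*X^8*s^3*v^4 + (16)*X^9*s^4*v^2 + (413696)*X^6*v^8 + (132608)*X^7*s*v^6 +
    (10128)*X^8*s^2*v^4 + (88)*X^9*s^3*v^2 + (-1)*X^10*s^4 + (59392)*X^7*v^6 + (1344)*X^8*s*v^4 +
    (-320)*X^9*s^2*v^2 + (6)*X^10*s^3 + (1344)*X^8*v^4 + (352)*X^9*s*v^2 + (-13)*X^10*s^2 +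
    (-128)*X^9*v^2 + (12)*X^10*s + (-4)*X^10) * h

theorem id8_4 (h : s ^ 2 + 2 = 0) :
    (X ^ 3 + 36 * v ^ 2 * X ^ 2 + 48 * (4 + 10 * s) * v ^ 4 * X + 16 * (4 + 10 * s) ^ 2 * v ^ 6) *
      ((2 * X + 8 * (4 + s) * v ^ 2) * (-2 * X + 8 * (1 - 2 * s) * v ^ 2) -
        (X ^ 2 + 8 * (4 + s) * v ^ 2 * X) * (-2)) ^ 2 =
    s ^ 2 * (-2 * X + 8 * (1 - 2 * s) * v ^ 2) * ((X ^ 2 + 8 * (4 + s) * v ^ 2 * X) ^ 3 +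
      36 * v ^ 2 * (X ^ 2 + 8 * (4 + s) * v ^ 2 * X) ^ 2 * (-2 * X + 8 * (1 - 2 * s) * v ^ 2) +
      48 * (4 + 10 * s) * v ^ 4 * (X ^ 2 + 8 * (4 + s) * v ^ 2 * X) *
        (-2 * X + 8 * (1 - 2 * s) * v ^ 2) ^ 2 +
      16 * (4 + 10 * s) ^ 2 * v ^ 6 * (-2 * X + 8 * (1 - 2 * s) * v ^ 2) ^ 3) := by
  linear_combination ((-104857600)*s^6*v^14 + (125829120)*s^5*v^14 + (-36700160)*X*s^5*v^12 + (229638144)*s^4*v^14 +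
    (82313216)*X*s^4*v^12 + (-87031808)*s^3*v^14 + (42729472)*X*s^3*v^12 + (-2555904)*X^2*s^4*v^10
    + (-81788928)*s^2*v^14 + (-56754176)*X*s^2*v^12 + (15728640)*X^2*s^3*v^10 + (8192)*X^3*s^4*v^8
    + (12582912)*s*v^14 + (-4980736)*X*s*v^12 + (-3686400)*X^2*s^2*v^10 + (454656)*X^3*s^3*v^8 +
    (8388608)*v^14 + (7340032)*X*v^12 + (-5505024)*X^2*s*v^10 + (983040)*X^3*s^2*v^8 +
    (4096)*X^4*s^3*v^6 + (1867776)*X^2*v^10 + (-802816)*X^3*s*v^8 + (77312)*X^4*s^2*v^6 +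
    (98304)*X^3*v^8 + (-2048)*X^4*s*v^6 + (768)*X^5*s^2*v^4 + (-15360)*X^4*v^6 + (3648)*X^5*s*v^4 +
    (-1152)*X^5*v^4 + (64)*X^6*s*v^2 + (40)*X^6*v^2 + (2)*X^7) * h

end ids

end Pool.Agent.H475R2
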