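import Mathlib
import Pool.Agent.H925R3.DC.Stubs

/-! Task RED: reduction modulo a prime of good reduction is a homomorphism. -/

set_option autoImplicit false

namespace Pool.Agent.H475R2.DC_RED

open Pool.Agent.H925R3.DC

section general

variable {K k : Type} [Field K] [Field k] {O : Subring K} (φ : O →+* k)

theorem ns_iff {F : Type} [Field F] (a b x y : F) : (crv F a b).Nonsingular x y ↔
    y ^ 2 = x ^ 3 + a * x + b ∧ (3 * x ^ 2 + a ≠ 0 ∨ 2 * y ≠ 0) := by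
  rw [WeierstrassCurve.Affine.nonsingular_iff', WeierstrassCurve.Affine.equation_iff]
  simp [crv]
  intro _
  constructor
  · rintro (h | h)
    · left
      intro h'
      apply h
      linear_combination -h'
    · right
      exact h
  · rintro (h | h)
    · left
      intro h'
      apply h
      linear_combination -h'
    · right
      exact h

theorem y_mem (hval : ∀ x : K, x ∈ O ∨ x⁻¹ ∈ O) (a b : O) {x y : K}
    (h : (crv K a b).Nonsingular x y) (hx : x ∈ O) : y ∈ O := by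
  rw [ns_iff] at h
  have h2 : y ^ 2 ∈ O := by
    rw [h.1]
    exact O.add_mem (O.add_mem (O.pow_mem hx 3) (O.mul_mem a.2 hx)) b.2
  rcases hval y with hy | hy
  · exact hy
  · by_cases h0 : y = 0
    · rw [h0]; exact O.zero_mem
    · have : y = y ^ 2 * y⁻¹ := by field_simp
      rw [this]
      exact O.mul_mem h2 hy

theorem red_ns (h2 : (2 : k) ≠ 0) (a b : O) (hd : 4 * φ a ^ 3 + 27 * φ b ^ 2 ≠ 0) (x y : O)
    (h : (crv K a b).Nonsingular (x : K) (y : K)) :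
    (crv k (φ a) (φ b)).Nonsingular (φ x) (φ y) := by
  rw [ns_iff] at h ⊢
  have h1 : y ^ 2 = x ^ 3 + a * x + b := by
    apply Subtype.ext
    push_cast
    exact h.1
  have h3 : φ y ^ 2 = φ x ^ 3 + φ a * φ x + φ b := by
    have := congrArg φ h1
    simpa using this
  refine ⟨h3, ?_⟩
  by_contra hcon
  rw [not_or, not_not, not_not] at hcon
  obtain ⟨e1, e2⟩ := hcon
  have e3 : φ y = 0 := by
    rcases mul_eq_zero.mp e2 with h | h
    · exact absurd h h2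
    · exact h
  apply hd
  have ea : φ a = -3 * φ x ^ 2 := by linear_combination e1
  have eb : φ b = 2 * φ x ^ 3 := by
    rw [e3, ea] at h3
    linear_combination -h3
  rw [ea, eb]
  ring

open Classical in
/-- reduction of points -/
noncomputable def redF (hval : ∀ x : K, x ∈ O ∨ x⁻¹ ∈ O) (h2 : (2 : k) ≠ 0) (a b : O)
    (hd : 4 * φ a ^ 3 + 27 * φ b ^ 2 ≠ 0) :
    (crv K a b).Point → (crv k (φ a) (φ b)).Point
  | .zero => .zero
  | .some x y h => if hx : x ∈ O then .some (φ ⟨x, hx⟩) (φ ⟨y, y_mem hval a b h hx⟩)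
      (red_ns φ h2 a b hd ⟨x, hx⟩ ⟨y, y_mem hval a b h hx⟩ h) else .zero

variable (hval : ∀ x : K, x ∈ O ∨ x⁻¹ ∈ O) (h2 : (2 : k) ≠ 0) (a b : O)
    (hd : 4 * φ a ^ 3 + 27 * φ b ^ 2 ≠ 0)

theorem redF_zero : redF φ hval h2 a b hd 0 = 0 := rfl

theorem redF_mem (x y : O) (h : (crv K a b).Nonsingular (x : K) (y : K))
    (h' : (crv k (φ a) (φ b)).Nonsingular (φ x) (φ y)) :
    redF φ hval h2 a b hd (.some (x : K) (y : K) h) = .some (φ x) (φ y) h' := by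
  simp only [redF]
  rw [dif_pos x.2]

theorem redF_not (x y : K) (h : (crv K a b).Nonsingular x y) (hx : x ∉ O) :
    redF φ hval h2 a b hd (.some x y h) = 0 := by
  simp only [redF]
  rw [dif_neg hx]
  rfl

theorem add_neg_eq {F : Type} [Field F] [DecidableEq F] {a b : F}
    (P Q S : (crv F a b).Point) (h : P + Q = S) : S + -Q = P := by
  rw [← h, add_neg_cancel_right]

variable [DecidableEq K] [DecidableEq k]

theorem negY_crv {F : Type} [Field F] (a b x y : F) : (crv F a b).negY x y = -y := by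
  simp [WeierstrassCurve.Affine.negY, crv]

theorem some_congr {F : Type} [Field F] {a b x y x' y' : F} (h : (crv F a b).Nonsingular x y)
    (h' : (crv F a b).Nonsingular x' y') (hx : x = x') (hy : y = y') :
    (.some x y h : (crv F a b).Point) = .some x' y' h' := by
  subst hx; subst hy; rfl

/-- nonintegral plus integral -/
theorem case3 (h1 : REDA) (h3 : REDC) (hunit : ∀ x : O, φ x ≠ 0 → (x : K)⁻¹ ∈ O)
    (x₁ y₁ x₂ y₂ : K) (n₁ : (crv K a b).Nonsingular x₁ y₁) (n₂ : (crv K a b).Nonsingular x₂ y₂)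
    (hx₁ : x₁ ∉ O) (hx₂ : x₂ ∈ O) :
    redF φ hval h2 a b hd (.some x₁ y₁ n₁ + .some x₂ y₂ n₂) =
      redF φ hval h2 a b hd (.some x₁ y₁ n₁) + redF φ hval h2 a b hd (.some x₂ y₂ n₂) := by
  obtain ⟨x₃, y₃, n₃, hx₃, hS⟩ := h3 K O hval a b x₁ y₁ x₂ y₂ n₁ n₂ hx₁ hx₂
  have hy₂ : y₂ ∈ O := y_mem hval a b n₂ hx₂
  have hy₃ : y₃ ∈ O := y_mem hval a b n₃ hx₃
  rw [redF_not φ hval h2 a b hd x₁ y₁ n₁ hx₁, zero_add, hS]
  rw [redF_mem φ hval h2 a b hd ⟨x₃, hx₃⟩ ⟨y₃, hy₃⟩ n₃ (red_ns φ h2 a b hd ⟨x₃, hx₃⟩ ⟨y₃, hy₃⟩ n₃),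
    redF_mem φ hval h2 a b hd ⟨x₂, hx₂⟩ ⟨y₂, hy₂⟩ n₂ (red_ns φ h2 a b hd ⟨x₂, hx₂⟩ ⟨y₂, hy₂⟩ n₂)]
  by_cases hop : φ ⟨x₃, hx₃⟩ = φ ⟨x₂, hx₂⟩ ∧ φ ⟨y₃, hy₃⟩ = φ ⟨y₂, hy₂⟩
  · exact some_congr _ _ hop.1 hop.2
  · exfalso
    have n₂' : (crv K a b).Nonsingular x₂ (-y₂) := by
      have := (WeierstrassCurve.Affine.nonsingular_neg (W' := crv K (a : K) (b : K)) x₂ y₂).mpr n₂
      rwa [negY_crv] at this
    have hne : -(.some x₂ y₂ n₂ : (crv K a b).Point) = .some x₂ (-y₂) n₂' := by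
      rw [WeierstrassCurve.Affine.Point.neg_some]
      exact some_congr _ _ rfl (negY_crv _ _ _ _)
    have hsum := add_neg_eq _ _ _ hS
    rw [hne] at hsum
    have hop' : ¬ (φ ⟨x₃, hx₃⟩ = φ ⟨x₂, hx₂⟩ ∧ φ ⟨y₃, hy₃⟩ = - φ (-⟨y₂, hy₂⟩)) := by
      rw [map_neg, neg_neg]
      exact hop
    obtain ⟨x₄, y₄, n₄, _, _, _, h4, _⟩ := h1 K k O φ hval hunit h2 a b hd ⟨x₃, hx₃⟩ ⟨y₃, hy₃⟩
      ⟨x₂, hx₂⟩ (-⟨y₂, hy₂⟩) n₃ n₂' hop'
    have h5 : (.some (x₄ : K) (y₄ : K) n₄ : (crv K a b).Point) = .some x₁ y₁ n₁ := by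
      rw [← h4]
      exact hsum
    have h6 : (x₄ : K) = x₁ := by
      have := h5
      injection this
    exact hx₁ (h6 ▸ x₄.2)

theorem redF_add (h1 : REDA) (hb : REDB) (h3 : REDC) (hunit : ∀ x : O, φ x ≠ 0 → (x : K)⁻¹ ∈ O)
    (P Q : (crv K a b).Point) : redF φ hval h2 a b hd (P + Q) =
      redF φ hval h2 a b hd P + redF φ hval h2 a b hd Q := by
  rcases P with _ | ⟨x₁, y₁, n₁⟩
  · rw [← WeierstrassCurve.Affine.Point.zero_def, redF_zero, zero_add, zero_add]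
  rcases Q with _ | ⟨x₂, y₂, n₂⟩
  · rw [← WeierstrassCurve.Affine.Point.zero_def, redF_zero, add_zero, add_zero]
  by_cases hx₁ : x₁ ∈ O
  · by_cases hx₂ : x₂ ∈ O
    · have hy₁ : y₁ ∈ O := y_mem hval a b n₁ hx₁
      have hy₂ : y₂ ∈ O := y_mem hval a b n₂ hx₂
      by_cases hop : φ ⟨x₁, hx₁⟩ = φ ⟨x₂, hx₂⟩ ∧ φ ⟨y₁, hy₁⟩ = - φ ⟨y₂, hy₂⟩
      · rw [redF_mem φ hval h2 a b hd ⟨x₁, hx₁⟩ ⟨y₁, hy₁⟩ n₁
          (red_ns φ h2 a b hd ⟨x₁, hx₁⟩ ⟨y₁, hy₁⟩ n₁),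
          redF_mem φ hval h2 a b hd ⟨x₂, hx₂⟩ ⟨y₂, hy₂⟩ n₂
          (red_ns φ h2 a b hd ⟨x₂, hx₂⟩ ⟨y₂, hy₂⟩ n₂),
          WeierstrassCurve.Affine.Point.add_of_Y_eq hop.1 (by rw [negY_crv]; exact hop.2)]
        rcases hS : (.some x₁ y₁ n₁ + .some x₂ y₂ n₂ : (crv K a b).Point) with _ | ⟨x₃, y₃, n₃⟩
        · rw [hS]; exact redF_zero φ hval h2 a b hd
        · rw [hS]; apply redF_not
          exact hb K k O φ hval hunit h2 a b hd ⟨x₁, hx₁⟩ ⟨y₁, hy₁⟩ ⟨x₂, hx₂⟩ ⟨y₂, hy₂⟩ n₁ n₂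
            hop.1 hop.2 x₃ y₃ n₃ hS
      · obtain ⟨x₃, y₃, n₃, n₁', n₂', n₃', e1, e2⟩ := h1 K k O φ hval hunit h2 a b hd
          ⟨x₁, hx₁⟩ ⟨y₁, hy₁⟩ ⟨x₂, hx₂⟩ ⟨y₂, hy₂⟩ n₁ n₂ hop
        have e1' : (.some x₁ y₁ n₁ + .some x₂ y₂ n₂ : (crv K a b).Point) =
            .some (x₃ : K) (y₃ : K) n₃ := e1
        rw [e1', redF_mem φ hval h2 a b hd x₃ y₃ n₃ n₃', ← e2,
          redF_mem φ hval h2 a b hd ⟨x₁, hx₁⟩ ⟨y₁, hy₁⟩ n₁ n₁',
          redF_mem φ hval h2 a b hd ⟨x₂, hx₂⟩ ⟨y₂, hy₂⟩ n₂ n₂']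
    · rw [add_comm, case3 φ hval h2 a b hd h1 h3 hunit x₂ y₂ x₁ y₁ n₂ n₁ hx₂ hx₁, add_comm]
  · by_cases hx₂ : x₂ ∈ O
    · exact case3 φ hval h2 a b hd h1 h3 hunit x₁ y₁ x₂ y₂ n₁ n₂ hx₁ hx₂
    · rw [redF_not φ hval h2 a b hd x₁ y₁ n₁ hx₁, redF_not φ hval h2 a b hd x₂ y₂ n₂ hx₂, add_zero]
      rcases hS : (.some x₁ y₁ n₁ + .some x₂ y₂ n₂ : (crv K a b).Point) with _ | ⟨x₃, y₃, n₃⟩
      · rw [hS]; exact redF_zero φ hval h2 a b hd
      · rw [hS]; apply redF_not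
        intro hx₃
        have n₂' : (crv K a b).Nonsingular x₂ (-y₂) := by
          have := (WeierstrassCurve.Affine.nonsingular_neg
            (W' := crv K (a : K) (b : K)) x₂ y₂).mpr n₂
          rwa [negY_crv] at this
        have hne : -(.some x₂ y₂ n₂ : (crv K a b).Point) = .some x₂ (-y₂) n₂' := by
          rw [WeierstrassCurve.Affine.Point.neg_some]
          exact some_congr _ _ rfl (negY_crv _ _ _ _)
        have hsum := add_neg_eq _ _ _ hS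
        rw [hne, add_comm] at hsum
        obtain ⟨x₄, y₄, n₄, hx₄, h4⟩ := h3 K O hval a b x₂ (-y₂) x₃ y₃ n₂' n₃ hx₂ hx₃
        have h5 : (.some x₄ y₄ n₄ : (crv K a b).Point) = .some x₁ y₁ n₁ := by
          rw [← h4]
          exact hsum
        have h6 : x₄ = x₁ := by
          have := h5
          injection this
        exact hx₁ (h6 ▸ hx₄)

end general

/-! ### The rational numbers with denominator prime to `p` -/

section rat

variable (p : ℕ) [Fact p.Prime]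

/-- the rational numbers with denominator prime to `p` -/
def OO : Subring ℚ where
  carrier := {x | (x.den : ZMod p) ≠ 0}
  mul_mem' := by
    intro x y hx hy
    simp only [Set.mem_ofPred_eq, Ne, ZMod.natCast_eq_zero_iff] at hx hy ⊢
    intro h
    have := h.trans (Rat.mul_den_dvd x y)
    rcases (Fact.out : p.Prime).dvd_mul.mp this with h | h
    · exact hx h
    · exact hy h
  one_mem' := by simp
  add_mem' := by
    intro x y hx hy
    simp only [Set.mem_ofPred_eq, Ne, ZMod.natCast_eq_zero_iff] at hx hy ⊢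
    intro h
    have := h.trans (Rat.add_den_dvd x y)
    rcases (Fact.out : p.Prime).dvd_mul.mp this with h | h
    · exact hx h
    · exact hy h
  zero_mem' := by simp
  neg_mem' := by
    intro x hx
    simpa using hx

theorem mem_OO (x : ℚ) : x ∈ OO p ↔ (x.den : ZMod p) ≠ 0 := Iff.rfl

/-- the reduction modulo `p` -/
def ph : OO p →+* ZMod p where
  toFun x := ((x : ℚ) : ZMod p)
  map_one' := by simp
  map_mul' := by
    intro x y
    exact Rat.cast_mul_of_ne_zero x.2 y.2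
  map_zero' := by simp
  map_add' := by
    intro x y
    exact Rat.cast_add_of_ne_zero x.2 y.2

theorem inv_mem_OO (x : ℚ) (h : (x.num : ZMod p) ≠ 0) : x⁻¹ ∈ OO p := by
  rw [mem_OO]
  intro h'
  rw [ZMod.natCast_eq_zero_iff] at h'
  apply h
  rw [ZMod.intCast_zmod_eq_zero_iff_dvd]
  have h1 : ((x⁻¹).den : ℤ) ∣ x.num := by
    rw [Rat.inv_def]
    exact Rat.den_dvd _ _
  exact (by exact_mod_cast h' : (p : ℤ) ∣ ((x⁻¹).den : ℤ)).trans h1

theorem val_OO (x : ℚ) : x ∈ OO p ∨ x⁻¹ ∈ OO p := by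
  by_cases h : x ∈ OO p
  · exact Or.inl h
  · right
    apply inv_mem_OO
    intro h'
    rw [mem_OO, not_not, ZMod.natCast_eq_zero_iff] at h
    rw [ZMod.intCast_zmod_eq_zero_iff_dvd] at h'
    have h1 : p ∣ x.num.natAbs := Int.natCast_dvd.mp h'
    have h2 := Nat.dvd_gcd h1 h
    rw [x.reduced] at h2
    exact (Fact.out : p.Prime).one_lt.ne' (Nat.dvd_one.mp h2)

theorem unit_OO (x : OO p) (h : ph p x ≠ 0) : (x : ℚ)⁻¹ ∈ OO p := by
  apply inv_mem_OO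
  intro h'
  apply h
  change (((x : ℚ)) : ZMod p) = 0
  rw [Rat.cast_def, h', zero_div]

end rat

theorem red (h1 : REDA) (h2 : REDB) (h3 : REDC) : RED := by
  intro p hp a b hp2 hdisc
  have ha : (a : ℚ) ∈ OO p := by rw [mem_OO]; simp
  have hb : (b : ℚ) ∈ OO p := by rw [mem_OO]; simp
  have ea : ph p ⟨(a : ℚ), ha⟩ = (a : ZMod p) := by
    change ((a : ℚ) : ZMod p) = _
    exact Rat.cast_intCast a
  have eb : ph p ⟨(b : ℚ), hb⟩ = (b : ZMod p) := by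
    change ((b : ℚ) : ZMod p) = _
    exact Rat.cast_intCast b
  have h20 : (2 : ZMod p) ≠ 0 := by
    intro h
    have h' : ((2 : ℕ) : ZMod p) = 0 := by exact_mod_cast h
    rw [ZMod.natCast_eq_zero_iff] at h'
    have := Nat.le_of_dvd (by norm_num) h'
    omega
  have hd : 4 * ph p ⟨(a : ℚ), ha⟩ ^ 3 + 27 * ph p ⟨(b : ℚ), hb⟩ ^ 2 ≠ 0 := by
    rw [ea, eb]
    intro h
    apply hdisc
    rw [← ZMod.intCast_zmod_eq_zero_iff_dvd]
    push_cast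
    exact h
  rw [← ea, ← eb]
  refine ⟨⟨⟨redF (ph p) (val_OO p) h20 ⟨(a : ℚ), ha⟩ ⟨(b : ℚ), hb⟩ hd, redF_zero _ _ _ _ _ _⟩,
    redF_add (ph p) (val_OO p) h20 ⟨(a : ℚ), ha⟩ ⟨(b : ℚ), hb⟩ hd h1 h2 h3 (unit_OO p)⟩, ?_⟩
  intro x y h
  constructor
  · intro hx
    exact redF_not (ph p) (val_OO p) h20 ⟨(a : ℚ), ha⟩ ⟨(b : ℚ), hb⟩ hd x y h
      (by rw [mem_OO, not_not]; exact hx)
  · intro hx
    have hx' : x ∈ OO p := hx
    have hy' : y ∈ OO p := y_mem (val_OO p) ⟨(a : ℚ), ha⟩ ⟨(b : ℚ), hb⟩ h hx'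
    exact ⟨hy', red_ns (ph p) h20 ⟨(a : ℚ), ha⟩ ⟨(b : ℚ), hb⟩ hd ⟨x, hx'⟩ ⟨y, hy'⟩ h,
      redF_mem (ph p) (val_OO p) h20 ⟨(a : ℚ), ha⟩ ⟨(b : ℚ), hb⟩ hd ⟨x, hx'⟩ ⟨y, hy'⟩ h _⟩

end Pool.Agent.H475R2.DC_RED
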