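import Mathlib

/-!
The curve `y^2 = x^3 + a x^2 + b x + c` over a field: sum and product of the abscissas of `P + Q`
and `P - Q`, and the additivity of the invariant differential.
-/

set_option autoImplicit false
set_option linter.unusedSectionVars false

namespace Pool.Agent.H475R2

open WeierstrassCurve

/-- The curve `y^2 = x^3 + a x^2 + b x + c`. -/
def EW {L : Type*} [Field L] (a b c : L) : WeierstrassCurve.Affine L := ⟨0, a, 0, b, c⟩

section

variable {L : Type*} [Field L] {a b c : L}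

/-- the cubic -/
def fx (a b c x : L) : L := x ^ 3 + a * x ^ 2 + b * x + c

/-- the derivative of the cubic -/
def dfx (a b x : L) : L := 3 * x ^ 2 + 2 * a * x + b

theorem equation_iff' (x y : L) : (EW a b c).Equation x y ↔ y ^ 2 = fx a b c x := by
  rw [WeierstrassCurve.Affine.equation_iff]
  simp [EW, fx]

theorem eq_of_nonsing {x y : L} (h : (EW a b c).Nonsingular x y) : y ^ 2 = fx a b c x :=
  (equation_iff' x y).1 h.1

theorem negY' (x y : L) : (EW a b c).negY x y = -y := by
  simp [EW, WeierstrassCurve.Affine.negY]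

theorem nonsing_iff (h2 : (2 : L) ≠ 0) (x y : L) :
    (EW a b c).Nonsingular x y ↔ y ^ 2 = fx a b c x ∧ (y ≠ 0 ∨ dfx a b x ≠ 0) := by
  rw [WeierstrassCurve.Affine.nonsingular_iff, equation_iff']
  simp only [EW, dfx]
  constructor
  · rintro ⟨h, h'⟩
    refine ⟨h, ?_⟩
    rcases h' with h' | h'
    · right
      intro h0
      apply h'
      simp
      linear_combination -h0
    · left
      intro h0
      apply h'
      simp [h0]
  · rintro ⟨h, h'⟩
    refine ⟨h, ?_⟩
    rcases h' with h' | h'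
    · right
      intro h0
      apply h'
      have : 2 * y = 0 := by
        simp at h0
        linear_combination h0
      rcases mul_eq_zero.1 this with h | h
      · exact absurd h h2
      · exact h
    · left
      intro h0
      apply h'
      simp at h0
      linear_combination -h0

variable [DecidableEq L]

/-- Third point, generic slope. -/
theorem addX' (x1 x2 l : L) : (EW a b c).addX x1 x2 l = l ^ 2 - a - x1 - x2 := by
  simp [EW, WeierstrassCurve.Affine.addX]

theorem addY' (x1 x2 y1 l : L) :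
    (EW a b c).addY x1 x2 y1 l = -(l * (l ^ 2 - a - x1 - x2 - x1) + y1) := by
  simp [EW, WeierstrassCurve.Affine.addY, WeierstrassCurve.Affine.negAddY,
    WeierstrassCurve.Affine.negY, WeierstrassCurve.Affine.addX]

theorem slope_ne {x1 x2 : L} (y1 y2 : L) (h : x1 ≠ x2) :
    (EW a b c).slope x1 x2 y1 y2 = (y1 - y2) / (x1 - x2) := by
  rw [WeierstrassCurve.Affine.slope_of_X_ne h]

theorem slope_self {x y : L} (h2 : (2 : L) ≠ 0) (hy : y ≠ 0) :
    (EW a b c).slope x x y y = dfx a b x / (2 * y) := by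
  rw [WeierstrassCurve.Affine.slope_of_Y_ne rfl]
  · simp [EW, WeierstrassCurve.Affine.negY, dfx]
    congr 1
    ring
  · rw [negY']
    intro h
    have : 2 * y = 0 := by linear_combination h
    rcases mul_eq_zero.1 this with h | h
    · exact absurd h h2
    · exact absurd h hy

/-- The sum of two points with distinct abscissas. -/
theorem add_ne {x1 x2 y1 y2 : L} (h1 : (EW a b c).Nonsingular x1 y1)
    (h2 : (EW a b c).Nonsingular x2 y2) (hx : x1 ≠ x2) :
    ∃ (x3 y3 l : L) (h3 : (EW a b c).Nonsingular x3 y3),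
      Affine.Point.some x1 y1 h1 + Affine.Point.some x2 y2 h2 = Affine.Point.some x3 y3 h3 ∧
      l * (x1 - x2) = y1 - y2 ∧ x3 = l ^ 2 - a - x1 - x2 ∧ y3 = -(l * (x3 - x1) + y1) := by
  have hxy : ¬(x1 = x2 ∧ y1 = (EW a b c).negY x2 y2) := fun h => hx h.1
  have hd : x1 - x2 ≠ 0 := sub_ne_zero.2 hx
  have e1 : (EW a b c).addX x1 x2 ((EW a b c).slope x1 x2 y1 y2) =
    ((y1 - y2) / (x1 - x2)) ^ 2 - a - x1 - x2 := by rw [addX', slope_ne _ _ hx]
  refine ⟨_, _, (y1 - y2) / (x1 - x2), _, WeierstrassCurve.Affine.Point.add_some hxy, ?_, e1, ?_⟩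
  · field_simp
  · rw [e1, addY', slope_ne _ _ hx]

/-- The double of a point. -/
theorem add_self' (ht : (2 : L) ≠ 0) {x y : L} (h : (EW a b c).Nonsingular x y) (hy : y ≠ 0) :
    ∃ (x3 y3 l : L) (h3 : (EW a b c).Nonsingular x3 y3),
      Affine.Point.some x y h + Affine.Point.some x y h = Affine.Point.some x3 y3 h3 ∧
      l * (2 * y) = dfx a b x ∧ x3 = l ^ 2 - a - x - x ∧ y3 = -(l * (x3 - x) + y) := by
  have hxy : ¬(x = x ∧ y = (EW a b c).negY x y) := by
    rintro ⟨-, h⟩
    rw [negY'] at h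
    have : 2 * y = 0 := by linear_combination h
    rcases mul_eq_zero.1 this with h | h
    · exact absurd h ht
    · exact absurd h hy
  have e1 : (EW a b c).addX x x ((EW a b c).slope x x y y) =
    (dfx a b x / (2 * y)) ^ 2 - a - x - x := by rw [addX', slope_self ht hy]
  refine ⟨_, _, dfx a b x / (2 * y), _, WeierstrassCurve.Affine.Point.add_some hxy, ?_, e1, ?_⟩
  · field_simp
  · rw [e1, addY', slope_self ht hy]

theorem neg_some' {x y : L} (h : (EW a b c).Nonsingular x y) :
    ∃ h' : (EW a b c).Nonsingular x (-y),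
      -Affine.Point.some x y h = Affine.Point.some x (-y) h' := by
  have h' : (EW a b c).Nonsingular x (-y) := by
    have := (WeierstrassCurve.Affine.nonsingular_neg (W' := EW a b c) x y).2 h
    rwa [negY'] at this
  refine ⟨h', ?_⟩
  rw [WeierstrassCurve.Affine.Point.neg_some]
  simp only [negY']

theorem some_congr {x1 x2 y1 y2 : L} {h1 : (EW a b c).Nonsingular x1 y1}
    {h2 : (EW a b c).Nonsingular x2 y2} (hx : x1 = x2) (hy : y1 = y2) :
    (Affine.Point.some x1 y1 h1 : (EW a b c).Point) = Affine.Point.some x2 y2 h2 := by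
  subst hx; subst hy; rfl

/-- Two points with the same abscissa are equal or opposite. -/
theorem eq_or_neg {x y1 y2 : L} (h1 : (EW a b c).Nonsingular x y1)
    (h2 : (EW a b c).Nonsingular x y2) : y1 = y2 ∨ y1 = -y2 := by
  have e1 := eq_of_nonsing h1
  have e2 := eq_of_nonsing h2
  have : (y1 - y2) * (y1 + y2) = 0 := by linear_combination e1 - e2
  rcases mul_eq_zero.1 this with h | h
  · left; linear_combination h
  · right; linear_combination h

/-- Sum and product of the abscissas of `P + Q` and `P - Q`. -/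
theorem addsub {x1 x2 y1 y2 : L} (h1 : (EW a b c).Nonsingular x1 y1)
    (h2 : (EW a b c).Nonsingular x2 y2) (hx : x1 ≠ x2) :
    ∃ (x3 y3 x4 y4 : L) (h3 : (EW a b c).Nonsingular x3 y3) (h4 : (EW a b c).Nonsingular x4 y4),
      Affine.Point.some x1 y1 h1 + Affine.Point.some x2 y2 h2 = Affine.Point.some x3 y3 h3 ∧
      Affine.Point.some x1 y1 h1 - Affine.Point.some x2 y2 h2 = Affine.Point.some x4 y4 h4 ∧
      (x1 - x2) ^ 2 * (x3 + x4) =
        2 * (x1 + x2) * (x1 * x2) + 4 * a * (x1 * x2) + 2 * b * (x1 + x2) + 4 * c ∧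
      (x1 - x2) ^ 2 * (x3 * x4) =
        (x1 * x2) ^ 2 - 2 * b * (x1 * x2) - 4 * c * (x1 + x2) - (4 * a * c - b ^ 2) := by
  obtain ⟨x3, y3, l, h3, e3, hl, hx3, -⟩ := add_ne h1 h2 hx
  obtain ⟨h2', en⟩ := neg_some' h2
  obtain ⟨x4, y4, m, h4, e4, hm, hx4, -⟩ := add_ne h1 h2' hx
  have f1 := eq_of_nonsing h1
  have f2 := eq_of_nonsing h2
  unfold fx at f1 f2
  have hd : x1 - x2 ≠ 0 := sub_ne_zero.2 hx
  refine ⟨x3, y3, x4, y4, h3, h4, e3, by rw [sub_eq_add_neg, en, e4], ?_, ?_⟩
  · rw [hx3, hx4]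
    have e1 : (l * (x1 - x2)) ^ 2 + (m * (x1 - x2)) ^ 2 = 2 * y1 ^ 2 + 2 * y2 ^ 2 := by
      rw [hl, hm]; ring
    linear_combination e1 + 2 * f1 + 2 * f2
  · rw [hx3, hx4]
    have e1 : (l * (x1 - x2)) ^ 2 + (m * (x1 - x2)) ^ 2 = 2 * y1 ^ 2 + 2 * y2 ^ 2 := by
      rw [hl, hm]; ring
    have e2 : (x1 - x2) * (l * m * (x1 - x2) -
        (x1 ^ 2 + x1 * x2 + x2 ^ 2 + a * (x1 + x2) + b)) = 0 := by
      have : (l * (x1 - x2)) * (m * (x1 - x2)) = y1 ^ 2 - y2 ^ 2 := by rw [hl, hm]; ring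
      linear_combination this + f1 - f2
    have e3 : l * m * (x1 - x2) = x1 ^ 2 + x1 * x2 + x2 ^ 2 + a * (x1 + x2) + b := by
      rcases mul_eq_zero.1 e2 with h | h
      · exact absurd h hd
      · linear_combination h
    linear_combination (l * m * (x1 - x2) + (x1 ^ 2 + x1 * x2 + x2 ^ 2 + a * (x1 + x2) + b)) * e3
      - (a + x1 + x2) * e1 - 2 * (a + x1 + x2) * f1 - 2 * (a + x1 + x2) * f2

/-- Abscissa of the double. -/
theorem dup {x y : L} (ht : (2 : L) ≠ 0) (h : (EW a b c).Nonsingular x y) (hy : y ≠ 0) :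
    ∃ (x3 y3 : L) (h3 : (EW a b c).Nonsingular x3 y3),
      Affine.Point.some x y h + Affine.Point.some x y h = Affine.Point.some x3 y3 h3 ∧
      (4 * fx a b c x) * x3 = x ^ 4 - 2 * b * x ^ 2 - 8 * c * x - (4 * a * c - b ^ 2) := by
  obtain ⟨x3, y3, l, h3, e3, hl, hx3, -⟩ := add_self' ht h hy
  have f1 := eq_of_nonsing h
  refine ⟨x3, y3, h3, e3, ?_⟩
  rw [hx3]
  have e1 : (l * (2 * y)) ^ 2 = (dfx a b x) ^ 2 := by rw [hl]
  unfold fx at *
  unfold dfx at *
  linear_combination e1 + (-4 * l ^ 2) * f1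

end

end Pool.Agent.H475R2
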