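import Pool.Agent.H475R2.Ell1

/-!
Additivity of the invariant differential with respect to a derivation.
-/

set_option autoImplicit false
set_option linter.unusedSectionVars false

namespace Pool.Agent.H475R2

open WeierstrassCurve

variable {L : Type*} [Field L] [DecidableEq L] {a b c : L}

/-- A derivation killing the coefficients of the curve. -/
structure Dn (a b c : L) (d : L → L) : Prop where
  add : ∀ u v, d (u + v) = d u + d v
  mul : ∀ u v, d (u * v) = u * d v + v * d u
  ha : d a = 0
  hb : d b = 0
  hc : d c = 0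

namespace Dn

variable {d : L → L}

theorem zero (h : Dn a b c d) : d 0 = 0 := by
  have := h.add 0 0
  simp only [add_zero] at this
  linear_combination -this

theorem one (h : Dn a b c d) : d 1 = 0 := by
  have := h.mul 1 1
  simp only [mul_one, one_mul] at this
  linear_combination -this

theorem neg (h : Dn a b c d) (u : L) : d (-u) = -d u := by
  have := h.add u (-u)
  rw [add_neg_cancel, h.zero] at this
  linear_combination -this

theorem sub (h : Dn a b c d) (u v : L) : d (u - v) = d u - d v := by
  rw [sub_eq_add_neg, h.add, h.neg]; ring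

theorem sq (h : Dn a b c d) (u : L) : d (u ^ 2) = 2 * u * d u := by
  rw [pow_two, h.mul]; ring

theorem cub (h : Dn a b c d) (u : L) : d (u ^ 3) = 3 * u ^ 2 * d u := by
  rw [pow_succ, h.mul, h.sq]; ring

theorem two (h : Dn a b c d) : d 2 = 0 := by
  have : (2 : L) = 1 + 1 := by norm_num
  rw [this, h.add, h.one]; ring

theorem three (h : Dn a b c d) : d 3 = 0 := by
  have : (3 : L) = 2 + 1 := by norm_num
  rw [this, h.add, h.one, h.two]; ring

theorem fxd (h : Dn a b c d) (u : L) : d (fx a b c u) = dfx a b u * d u := by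
  unfold fx dfx
  rw [h.add, h.add, h.add, h.mul a, h.mul b, h.ha, h.hb, h.hc, h.sq, h.cub]; ring

end Dn

/-- `w` is the value of the invariant differential at the point. -/
def Om (d : L → L) (w : L) : (EW a b c).Point → Prop
  | .zero => w = 0
  | .some x y _ => d x = 2 * y * w ∧ d y = dfx a b x * w

variable {d : L → L}

theorem Om.neg (hd : Dn a b c d) {w : L} {P : (EW a b c).Point} (h : Om d w P) : Om d (-w) (-P) := by
  rcases P with _ | ⟨x, y, hP⟩
  · have h' : w = 0 := h
    have : -(Affine.Point.zero : (EW a b c).Point) = Affine.Point.zero := rfl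
    rw [this]
    show -w = 0
    rw [h', neg_zero]
  · obtain ⟨h', e⟩ := neg_some' hP
    rw [e]
    obtain ⟨h1, h2⟩ := h
    refine ⟨?_, ?_⟩
    · rw [h1]; ring
    · rw [hd.neg, h2]; ring

theorem Om.unique (ht : (2 : L) ≠ 0) {w w' : L} {P : (EW a b c).Point} (h : Om d w P) (h' : Om d w' P) :
    w = w' := by
  rcases P with _ | ⟨x, y, hP⟩
  · have h1 : w = 0 := h
    have h2 : w' = 0 := h'
    rw [h1, h2]
  · obtain ⟨h1, h2⟩ := h
    obtain ⟨h3, h4⟩ := h'
    rcases ((nonsing_iff ht x y).1 hP).2 with hy | hy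
    · have : (2 * y) * (w - w') = 0 := by linear_combination h3 - h1
      rcases mul_eq_zero.1 this with h | h
      · exact absurd h (mul_ne_zero ht hy)
      · linear_combination h
    · have : (dfx a b x) * (w - w') = 0 := by linear_combination h4 - h2
      rcases mul_eq_zero.1 this with h | h
      · exact absurd h hy
      · linear_combination h

/-- The computation for three collinear points. -/
theorem line_comp (hd : Dn a b c d) {x1 x2 x3 y1 y2 y3 l w1 w2 : L}
    (Ea : a = l ^ 2 - x1 - x2 - x3)
    (Eb : b = 2 * l * y1 - 2 * l ^ 2 * x1 + x1 * x2 + x1 * x3 + x2 * x3)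
    (hy2 : y2 = y1 - l * (x1 - x2)) (hy3 : y3 = -(l * (x3 - x1) + y1))
    (dx1 : d x1 = 2 * y1 * w1) (dy1 : d y1 = dfx a b x1 * w1) (dx2 : d x2 = 2 * y2 * w2)
    (dl : d l = w1 * (x1 - x3) + w2 * (x2 - x3)) :
    d x3 = 2 * y3 * (w1 + w2) ∧ d y3 = dfx a b x3 * (w1 + w2) := by
  have F1 : dfx a b x1 = 2 * l * y1 + (x1 - x2) * (x1 - x3) := by
    unfold dfx
    linear_combination (2 * x1) * Ea + Eb
  have F3 : dfx a b x3 = -2 * l * y3 + (x3 - x1) * (x3 - x2) := by
    unfold dfx
    rw [hy3]
    linear_combination (2 * x3) * Ea + Eb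
  have hx3 : x3 = l ^ 2 - a - x1 - x2 := by linear_combination Ea
  have hdx3 : d x3 = 2 * y3 * (w1 + w2) := by
    have e := congrArg d hx3
    rw [hd.sub, hd.sub, hd.sub, hd.sq, hd.ha, dl, dx1, dx2] at e
    rw [e, hy3, hy2]
    ring
  refine ⟨hdx3, ?_⟩
  have e := congrArg d hy3
  rw [hd.neg, hd.add, hd.mul, hd.sub, hdx3, dl, dx1, dy1, F1] at e
  rw [e, F3, hy3]
  ring

theorem Om.add (ht : (2 : L) ≠ 0) (hd : Dn a b c d) {w1 w2 : L} {P Q : (EW a b c).Point}
    (h1 : Om d w1 P) (h2 : Om d w2 Q) : Om d (w1 + w2) (P + Q) := by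
  rcases P with _ | ⟨x1, y1, hP⟩
  · have h1' : w1 = 0 := h1
    have : (Affine.Point.zero : (EW a b c).Point) + Q = Q := zero_add Q
    rw [this, h1', zero_add]
    exact h2
  rcases Q with _ | ⟨x2, y2, hQ⟩
  · have h2' : w2 = 0 := h2
    have : (Affine.Point.some x1 y1 hP) + (Affine.Point.zero : (EW a b c).Point) =
      Affine.Point.some x1 y1 hP := add_zero _
    rw [this, h2', add_zero]
    exact h1
  by_cases hx : x1 = x2
  · subst hx
    have opp : ∀ (hQ : (EW a b c).Nonsingular x1 y2), y1 = -y2 → Om d w2 (Affine.Point.some x1 y2 hQ) →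
        Om d (w1 + w2) (Affine.Point.some x1 y1 hP + Affine.Point.some x1 y2 hQ) := by
      intro hQ hy h2
      obtain ⟨h', e⟩ := neg_some' hQ
      have e2 : (Affine.Point.some x1 (-y2) h' : (EW a b c).Point) = Affine.Point.some x1 y1 hP :=
        some_congr rfl hy.symm
      rw [e2] at e
      have hw := Om.neg hd h2
      rw [e] at hw
      have := Om.unique ht h1 hw
      have e3 : Affine.Point.some x1 y1 hP + Affine.Point.some x1 y2 hQ = (0 : (EW a b c).Point) := by
        rw [← e]
        exact neg_add_cancel _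
      have e4 : w1 + w2 = 0 := by linear_combination this
      rw [e3, e4]
      exact (rfl : (0:L) = 0)
    rcases eq_or_neg hP hQ with hy | hy
    · subst hy
      by_cases hy0 : y1 = 0
      · exact opp hQ (by rw [hy0]; simp) h2
      · have hw : w1 = w2 := Om.unique ht h1 h2
        subst hw
        obtain ⟨x3, y3, l, h3, e3, hl, hx3, hy3⟩ := add_self' ht hP hy0
        rw [e3]
        obtain ⟨dx, dy⟩ := h1
        refine line_comp hd (x1 := x1) (x2 := x1) (l := l) (y1 := y1) (y2 := y1) ?_ ?_ ?_ hy3 dx dy dx ?_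
        · linear_combination hx3
        · unfold dfx at hl
          linear_combination -hl + (-2 * x1) * hx3
        · ring
        · have e := congrArg d hl
          rw [hd.mul, hd.mul, hd.two] at e
          have e5 : d (dfx a b x1) = (6 * x1 + 2 * a) * d x1 := by
            unfold dfx
            rw [hd.add, hd.add, hd.mul 3, hd.mul (2 * a), hd.mul 2, hd.sq, hd.ha, hd.hb, hd.three,
              hd.two]
            ring
          rw [e5, dx, dy] at e
          have : (2 * y1) * (d l - (w1 * (x1 - x3) + w1 * (x1 - x3))) = 0 := by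
            rw [hx3]
            linear_combination e + 2 * w1 * l * hl
          rcases mul_eq_zero.1 this with h | h
          · exact absurd h (mul_ne_zero ht hy0)
          · linear_combination h
    · exact opp hQ hy h2
  · obtain ⟨x3, y3, l, h3, e3, hl, hx3, hy3⟩ := add_ne hP hQ hx
    rw [e3]
    obtain ⟨dx1, dy1⟩ := h1
    obtain ⟨dx2, dy2⟩ := h2
    have hdd : x1 - x2 ≠ 0 := sub_ne_zero.2 hx
    have f1 := eq_of_nonsing hP
    have f2 := eq_of_nonsing hQ
    unfold fx at f1 f2
    have Ea : a = l ^ 2 - x1 - x2 - x3 := by linear_combination hx3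
    have hy2 : y2 = y1 - l * (x1 - x2) := by linear_combination hl
    have Eb : b = 2 * l * y1 - 2 * l ^ 2 * x1 + x1 * x2 + x1 * x3 + x2 * x3 := by
      have : (x1 - x2) * (b - (2 * l * y1 - 2 * l ^ 2 * x1 + x1 * x2 + x1 * x3 + x2 * x3)) = 0 := by
        rw [hy2] at f2
        linear_combination f2 - f1 + (x2 ^ 2 - x1 ^ 2) * Ea
      rcases mul_eq_zero.1 this with h | h
      · exact absurd h hdd
      · linear_combination h
    refine line_comp hd Ea Eb hy2 hy3 dx1 dy1 dx2 ?_
    have F1 : dfx a b x1 = 2 * l * y1 + (x1 - x2) * (x1 - x3) := by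
      unfold dfx
      linear_combination (2 * x1) * Ea + Eb
    have F2 : dfx a b x2 = 2 * l * y2 + (x2 - x1) * (x2 - x3) := by
      unfold dfx
      rw [hy2]
      linear_combination (2 * x2) * Ea + Eb
    have e := congrArg d hl
    rw [hd.mul, hd.sub, hd.sub, dx1, dx2, dy1, dy2, F1, F2] at e
    have : (x1 - x2) * (d l - (w1 * (x1 - x3) + w2 * (x2 - x3))) = 0 := by
      linear_combination e
    rcases mul_eq_zero.1 this with h | h
    · exact absurd h hdd
    · linear_combination h

/-- The points with a given value of the invariant differential form a group. -/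
theorem Om.zsmul (ht : (2 : L) ≠ 0) (hd : Dn a b c d) {w : L} {P : (EW a b c).Point}
    (h : Om d w P) (n : ℤ) : Om d (n * w) (n • P) := by
  induction n using Int.induction_on with
  | zero => simp only [Int.cast_zero, zero_mul, zero_smul]; exact (rfl : (0:L) = 0)
  | succ n ih =>
    rw [add_smul, one_smul]
    push_cast
    rw [add_mul, one_mul]
    push_cast at ih
    exact Om.add ht hd ih h
  | pred n ih =>
    rw [sub_smul, one_smul, sub_eq_add_neg]
    have e : (((-(n:ℤ) - 1 : ℤ)) : L) * w = ((-(n:ℤ) : ℤ) : L) * w + -w := by push_cast; ring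
    rw [← sub_eq_add_neg (-(n:ℤ)) 1, e]
    exact Om.add ht hd ih (Om.neg hd h)

end Pool.Agent.H475R2
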