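import Pool.Agent.H475R2.Ell2

/-!
Representations of abscissas by coprime polynomials.
-/

set_option autoImplicit false
set_option linter.unusedSectionVars false

namespace Pool.Agent.H475R2

open WeierstrassCurve

section ideal

variable {S : Type*} [CommRing S]

/-- forms of the addition-subtraction map -/
def fA (s t u : S) : S := t ^ 2 - 4 * s * u
def fB (a b c s t u : S) : S := 2 * t * s + 4 * a * s * u + 2 * b * t * u + 4 * c * u ^ 2
def fC (a b c s t u : S) : S := s ^ 2 - 2 * b * s * u - 4 * c * t * u - (4 * a * c - b ^ 2) * u ^ 2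

/-- discriminant -/
def dsc (a b c : S) : S :=
  16 * (a ^ 2 * b ^ 2 - 4 * b ^ 3 - 4 * a ^ 3 * c - 27 * c ^ 2 + 18 * a * b * c)

theorem mem_stu {a b c s t u : S} (hD : IsUnit (dsc a b c)) (I : Ideal S) [I.IsPrime]
    (hA : fA s t u ∈ I) (hB : fB a b c s t u ∈ I) (hC : fC a b c s t u ∈ I) :
    s ∈ I ∧ t ∈ I ∧ u ∈ I := by
  let W : WeierstrassCurve S := ⟨0, a, 0, b, c⟩
  have hW : W.Δ = dsc a b c := by
    simp only [W, WeierstrassCurve.Δ, WeierstrassCurve.b₂, WeierstrassCurve.b₄,
      WeierstrassCurve.b₆, WeierstrassCurve.b₈, dsc]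
    ring
  have : W.IsElliptic := ⟨by rw [hW]; exact hD⟩
  have key := WeierstrassCurve.addSubMapCoeff_condition W ![s, t, u]
  have e0 : (MvPolynomial.eval ![s, t, u]) (W.addSubMap 0) = fC a b c s t u := by
    simp only [WeierstrassCurve.addSubMap, W, fC]
    simp [WeierstrassCurve.b₂, WeierstrassCurve.b₄,
      WeierstrassCurve.b₆, WeierstrassCurve.b₈]
  have e1 : (MvPolynomial.eval ![s, t, u]) (W.addSubMap 1) = fB a b c s t u := by
    simp only [WeierstrassCurve.addSubMap, W, fB]
    simp [WeierstrassCurve.b₂, WeierstrassCurve.b₄,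
      WeierstrassCurve.b₆, WeierstrassCurve.b₈]
  have e2 : (MvPolynomial.eval ![s, t, u]) (W.addSubMap 2) = fA s t u := by
    simp only [WeierstrassCurve.addSubMap, W, fA]
    simp
  have h4 : ∀ i : Fin 3, (![s, t, u] i) ^ 4 ∈ I := by
    intro i
    rw [← key i, Fin.sum_univ_three, e0, e1, e2]
    exact I.add_mem (I.add_mem (I.mul_mem_left _ hC) (I.mul_mem_left _ hB)) (I.mul_mem_left _ hA)
  refine ⟨?_, ?_, ?_⟩
  · exact Ideal.IsPrime.mem_of_pow_mem ‹_› 4 (by simpa using h4 0)
  · exact Ideal.IsPrime.mem_of_pow_mem ‹_› 4 (by simpa using h4 1)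
  · exact Ideal.IsPrime.mem_of_pow_mem ‹_› 4 (by simpa using h4 2)

theorem not_both {N D : S} (h : IsCoprime N D) (I : Ideal S) [hI : I.IsPrime] :
    ¬ (N ∈ I ∧ D ∈ I) := by
  rintro ⟨h1, h2⟩
  obtain ⟨u, v, e⟩ := h
  apply hI.ne_top
  rw [Ideal.eq_top_iff_one, ← e]
  exact I.add_mem (I.mul_mem_left _ h1) (I.mul_mem_left _ h2)

theorem unit_ideal {a b c N1 D1 N2 D2 : S} (hD : IsUnit (dsc a b c))
    (h1 : IsCoprime N1 D1) (h2 : IsCoprime N2 D2) (I : Ideal S) [hI : I.IsPrime] :
    ¬ (fA (N1 * N2) (N1 * D2 + N2 * D1) (D1 * D2) ∈ I ∧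
      fB a b c (N1 * N2) (N1 * D2 + N2 * D1) (D1 * D2) ∈ I ∧
      fC a b c (N1 * N2) (N1 * D2 + N2 * D1) (D1 * D2) ∈ I) := by
  rintro ⟨hA, hB, hC⟩
  obtain ⟨hs, ht, hu⟩ := mem_stu hD I hA hB hC
  have n1 := not_both h1 I
  have n2 := not_both h2 I
  rcases hI.mem_or_mem hs with h | h
  · have d1 : D1 ∉ I := fun h' => n1 ⟨h, h'⟩
    have : N2 * D1 ∈ I := by
      have := I.sub_mem ht (I.mul_mem_right D2 h)
      simpa using this
    rcases hI.mem_or_mem this with h' | h'
    · rcases hI.mem_or_mem hu with h'' | h''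
      · exact d1 h''
      · exact n2 ⟨h', h''⟩
    · exact d1 h'
  · have d2 : D2 ∉ I := fun h' => n2 ⟨h, h'⟩
    have : N1 * D2 ∈ I := by
      have := I.sub_mem ht (I.mul_mem_right D1 h)
      simpa using this
    rcases hI.mem_or_mem this with h' | h'
    · rcases hI.mem_or_mem hu with h'' | h''
      · exact n1 ⟨h', h''⟩
      · exact d2 h''
    · exact d2 h'

theorem coprime_of_prime {N D : S} (h : ∀ I : Ideal S, I.IsPrime → ¬ (N ∈ I ∧ D ∈ I)) :
    IsCoprime N D := by
  by_contra hn
  have h1 : Ideal.span {N, D} ≠ ⊤ := by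
    intro ht
    apply hn
    rw [Ideal.eq_top_iff_one, Ideal.mem_span_pair] at ht
    exact ht
  obtain ⟨M, hM, hle⟩ := Ideal.exists_le_maximal _ h1
  exact h M hM.isPrime ⟨hle (Ideal.subset_span (by simp)), hle (Ideal.subset_span (by simp))⟩

end ideal

section spec

variable {L : Type*} [Field L] [DecidableEq L] {a b c : L}

/-- `(n : d)` is the abscissa of the point. -/
def XR (n d : L) : (EW a b c).Point → Prop
  | .zero => d = 0
  | .some x _ _ => n = x * d

theorem XR.neg {n d : L} {P : (EW a b c).Point} (h : XR n d P) : XR n d (-P) := by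
  rcases P with _ | ⟨x, y, hP⟩
  · exact h
  · obtain ⟨h', e⟩ := neg_some' hP
    rw [e]
    exact h

/-- The addition-subtraction relation holds for all points. -/
theorem spec (ht : (2 : L) ≠ 0) {P Q : (EW a b c).Point} {n1 d1 n2 d2 n3 d3 n4 d4 : L}
    (h1 : XR n1 d1 P) (h2 : XR n2 d2 Q) (h3 : XR n3 d3 (P - Q))
    (z1 : ¬ (n1 = 0 ∧ d1 = 0)) (z2 : ¬ (n2 = 0 ∧ d2 = 0)) (z3 : ¬ (n3 = 0 ∧ d3 = 0))
    (eA : fA (n1 * n2) (n1 * d2 + n2 * d1) (d1 * d2) = d3 * d4)
    (eB : fB a b c (n1 * n2) (n1 * d2 + n2 * d1) (d1 * d2) = d4 * n3 + n4 * d3)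
    (eC : fC a b c (n1 * n2) (n1 * d2 + n2 * d1) (d1 * d2) = n3 * n4) :
    XR n4 d4 (P + Q) := by
  unfold fA at eA
  unfold fB at eB
  unfold fC at eC
  rcases P with _ | ⟨x1, y1, hP⟩
  · have h1' : d1 = 0 := h1
    have hn1 : n1 ≠ 0 := fun h => z1 ⟨h, h1'⟩
    rcases Q with _ | ⟨x2, y2, hQ⟩
    · have h2' : d2 = 0 := h2
      have e : (Affine.Point.zero : (EW a b c).Point) - Affine.Point.zero = Affine.Point.zero :=
        sub_zero (0 : (EW a b c).Point)
      have e' : (Affine.Point.zero : (EW a b c).Point) + Affine.Point.zero = Affine.Point.zero :=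
        add_zero (0 : (EW a b c).Point)
      rw [e] at h3
      rw [e']
      have h3' : d3 = 0 := h3
      have hn3 : n3 ≠ 0 := fun h => z3 ⟨h, h3'⟩
      show d4 = 0
      have : d4 * n3 = 0 := by
        rw [h1', h2', h3'] at eB
        linear_combination -eB
      rcases mul_eq_zero.1 this with h | h
      · exact h
      · exact absurd h hn3
    · have h2' : n2 = x2 * d2 := h2
      have hd2 : d2 ≠ 0 := fun h => z2 ⟨by rw [h2', h]; ring, h⟩
      have e : (Affine.Point.zero : (EW a b c).Point) - Affine.Point.some x2 y2 hQ =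
        -Affine.Point.some x2 y2 hQ := zero_sub _
      have e' : (Affine.Point.zero : (EW a b c).Point) + Affine.Point.some x2 y2 hQ =
        Affine.Point.some x2 y2 hQ := zero_add _
      rw [e] at h3
      rw [e']
      have h3' : n3 = x2 * d3 := by
        have := XR.neg h3
        rw [neg_neg] at this
        exact this
      show n4 = x2 * d4
      rw [h1'] at eA eB
      have hA : d3 * d4 ≠ 0 := by
        rw [← eA]
        have : (n1 * d2 + n2 * 0) ^ 2 - 4 * (n1 * n2) * (0 * d2) = (n1 * d2) ^ 2 := by ring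
        rw [this]
        exact pow_ne_zero 2 (mul_ne_zero hn1 hd2)
      have hd3 : d3 ≠ 0 := left_ne_zero_of_mul hA
      have : d3 * (n4 - x2 * d4) = 0 := by
        rw [h2'] at eA eB
        rw [h3'] at eB
        linear_combination -eB + 2 * x2 * eA
      rcases mul_eq_zero.1 this with h | h
      · exact absurd h hd3
      · linear_combination h
  rcases Q with _ | ⟨x2, y2, hQ⟩
  · have h1' : n1 = x1 * d1 := h1
    have h2' : d2 = 0 := h2
    have hn2 : n2 ≠ 0 := fun h => z2 ⟨h, h2'⟩
    have hd1 : d1 ≠ 0 := fun h => z1 ⟨by rw [h1', h]; ring, h⟩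
    have e : Affine.Point.some x1 y1 hP - (Affine.Point.zero : (EW a b c).Point) =
      Affine.Point.some x1 y1 hP := sub_zero _
    have e' : Affine.Point.some x1 y1 hP + (Affine.Point.zero : (EW a b c).Point) =
      Affine.Point.some x1 y1 hP := add_zero _
    rw [e] at h3
    rw [e']
    have h3' : n3 = x1 * d3 := h3
    show n4 = x1 * d4
    rw [h2'] at eA eB
    have hA : d3 * d4 ≠ 0 := by
      rw [← eA]
      have : (n1 * 0 + n2 * d1) ^ 2 - 4 * (n1 * n2) * (d1 * 0) = (n2 * d1) ^ 2 := by ring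
      rw [this]
      exact pow_ne_zero 2 (mul_ne_zero hn2 hd1)
    have hd3 : d3 ≠ 0 := left_ne_zero_of_mul hA
    have : d3 * (n4 - x1 * d4) = 0 := by
      rw [h1'] at eA eB
      rw [h3'] at eB
      linear_combination -eB + 2 * x1 * eA
    rcases mul_eq_zero.1 this with h | h
    · exact absurd h hd3
    · linear_combination h
  have h1' : n1 = x1 * d1 := h1
  have h2' : n2 = x2 * d2 := h2
  have hd1 : d1 ≠ 0 := fun h => z1 ⟨by rw [h1', h]; ring, h⟩
  have hd2 : d2 ≠ 0 := fun h => z2 ⟨by rw [h2', h]; ring, h⟩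
  by_cases hx : x1 = x2
  · subst hx
    have opp : ∀ (hQ : (EW a b c).Nonsingular x1 y2), y1 = -y2 →
        (Affine.Point.some x1 y1 hP : (EW a b c).Point) + Affine.Point.some x1 y2 hQ = 0 := by
      intro hQ hy
      obtain ⟨h', e⟩ := neg_some' hQ
      have e2 : (Affine.Point.some x1 (-y2) h' : (EW a b c).Point) = Affine.Point.some x1 y1 hP :=
        some_congr rfl hy.symm
      rw [← e2, ← e]
      exact neg_add_cancel _
    have hA0 : d3 * d4 = 0 := by
      rw [← eA, h1', h2']; ring
    rcases eq_or_neg hP hQ with hy | hy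
    · subst hy
      have e : (Affine.Point.some x1 y1 hP : (EW a b c).Point) - Affine.Point.some x1 y1 hQ = 0 :=
        sub_self _
      rw [e] at h3
      have h3' : d3 = 0 := h3
      have hn3 : n3 ≠ 0 := fun h => z3 ⟨h, h3'⟩
      by_cases hy0 : y1 = 0
      · rw [opp hQ (by rw [hy0]; simp)]
        show d4 = 0
        have f1 := eq_of_nonsing hP
        rw [hy0] at f1
        unfold fx at f1
        have : d4 * n3 = 0 := by
          rw [h1', h2', h3'] at eB
          linear_combination -eB - 4 * (d1 * d2) ^ 2 * f1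
        rcases mul_eq_zero.1 this with h | h
        · exact h
        · exact absurd h hn3
      · obtain ⟨x3, y3, hh3, e3, hx3⟩ := dup ht hP hy0
        have e3' : (Affine.Point.some x1 y1 hP : (EW a b c).Point) + Affine.Point.some x1 y1 hQ =
          Affine.Point.some x3 y3 hh3 := e3
        rw [e3']
        show n4 = x3 * d4
        have f1 := eq_of_nonsing hP
        have hB0 : d4 * n3 ≠ 0 := by
          have : d4 * n3 = 4 * (d1 * d2) ^ 2 * y1 ^ 2 := by
            rw [h1', h2', h3'] at eB
            unfold fx at f1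
            linear_combination -eB - 4 * (d1 * d2) ^ 2 * f1
          rw [this]
          have h4 : (4 : L) ≠ 0 := by
            have : (4 : L) = 2 * 2 := by norm_num
            rw [this]; exact mul_ne_zero ht ht
          exact mul_ne_zero (mul_ne_zero h4 (pow_ne_zero 2 (mul_ne_zero hd1 hd2))) (pow_ne_zero 2 hy0)
        have : n3 * (n4 - x3 * d4) = 0 := by
          rw [h1', h2'] at eC
          rw [h1', h2', h3'] at eB
          unfold fx at hx3
          linear_combination -eC + x3 * eB + (-(d1 * d2) ^ 2) * hx3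
        rcases mul_eq_zero.1 this with h | h
        · exact absurd h hn3
        · linear_combination h
    · rw [opp hQ hy]
      show d4 = 0
      by_cases hy0 : y1 = 0
      · -- 2-torsion: `P = Q`
        have hy2 : y2 = 0 := by
          have := hy
          rw [hy0] at this
          linear_combination this
        have ee : (Affine.Point.some x1 y2 hQ : (EW a b c).Point) = Affine.Point.some x1 y1 hP :=
          some_congr rfl (by rw [hy0, hy2])
        rw [ee, sub_self] at h3
        have h3' : d3 = 0 := h3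
        have hn3 : n3 ≠ 0 := fun h => z3 ⟨h, h3'⟩
        have f1 := eq_of_nonsing hP
        rw [hy0] at f1
        unfold fx at f1
        have : d4 * n3 = 0 := by
          rw [h1', h2', h3'] at eB
          linear_combination -eB - 4 * (d1 * d2) ^ 2 * f1
        rcases mul_eq_zero.1 this with h | h
        · exact h
        · exact absurd h hn3
      · have hd3 : d3 ≠ 0 := by
          intro h30
          obtain ⟨h', e⟩ := neg_some' hQ
          have e2 : (Affine.Point.some x1 (-y2) h' : (EW a b c).Point) =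
            Affine.Point.some x1 y1 hP := some_congr rfl hy.symm
          obtain ⟨x3, y3, hh3, e3, hx3⟩ := dup ht hP hy0
          rw [sub_eq_add_neg, e, e2, e3] at h3
          have : n3 = x3 * d3 := h3
          exact z3 ⟨by rw [this, h30]; ring, h30⟩
        rcases mul_eq_zero.1 hA0 with h | h
        · exact absurd h hd3
        · exact h
  · obtain ⟨x3, y3, x4, y4, hh3, hh4, e3, e4, hs, hp⟩ := addsub hP hQ hx
    rw [e4] at h3
    rw [e3]
    have h3' : n3 = x4 * d3 := h3
    show n4 = x3 * d4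
    have hdx : x1 - x2 ≠ 0 := sub_ne_zero.2 hx
    have hA : d3 * d4 ≠ 0 := by
      rw [← eA]
      have : (n1 * d2 + n2 * d1) ^ 2 - 4 * (n1 * n2) * (d1 * d2) =
        (x1 - x2) ^ 2 * (d1 * d2) ^ 2 := by rw [h1', h2']; ring
      rw [this]
      exact mul_ne_zero (pow_ne_zero 2 hdx) (pow_ne_zero 2 (mul_ne_zero hd1 hd2))
    have hd3 : d3 ≠ 0 := left_ne_zero_of_mul hA
    have : d3 * (n4 - x3 * d4) = 0 := by
      rw [h1', h2'] at eA eB
      rw [h3'] at eB
      linear_combination -eB + (x3 + x4) * eA - (d1 * d2) ^ 2 * hs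
    rcases mul_eq_zero.1 this with h | h
    · exact absurd h hd3
    · linear_combination h

end spec

end Pool.Agent.H475R2
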