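import Pool.Agent.H475R2.Ell3

/-!
Representations of abscissas by coprime polynomials: the induction step.
-/

set_option autoImplicit false
set_option linter.unusedSectionVars false
set_option linter.unusedSimpArgs false

namespace Pool.Agent.H475R2

open WeierstrassCurve Polynomial

variable {R : Type*} [CommRing R] [IsDomain R] {L : Type*} [Field L] [DecidableEq L]

/-- Abscissa given by a reduced fraction with monic numerator, together with its value at `0`. -/
def Rep (ι : R[X] →+* L) {a b c : L} (P P0 : (EW a b c).Point) (n : ℕ) : Prop :=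
  ∃ N D : R[X], N.Monic ∧ N.natDegree = n ∧ D.natDegree < n ∧ IsCoprime N D ∧
    XR (ι N) (ι D) P ∧ XR (ι (C (N.eval 0))) (ι (C (D.eval 0))) P0

variable {ι : R[X] →+* L} {ra rb rc : R}

theorem Rep.ne_zero (hι : Function.Injective ι) {a b c : L} {P P0 : (EW a b c).Point} {n : ℕ}
    (h : Rep ι P P0 n) : P ≠ 0 := by
  rintro rfl
  obtain ⟨N, D, hN, hn, hD, hc, h1, -⟩ := h
  have h1' : ι D = 0 := h1
  have hD0 : D = 0 := by
    apply hι; rw [h1', map_zero]
  subst hD0
  obtain ⟨u, v, e⟩ := hc
  rw [mul_zero, add_zero] at e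
  have hu : IsUnit N := IsUnit.of_mul_eq_one _ (by rw [mul_comm]; exact e)
  have := hN.isUnit_iff.1 hu
  rw [this, natDegree_one] at hn
  omega

theorem coprime_eval {N D : R[X]} (h : IsCoprime N D) : IsCoprime (N.eval 0) (D.eval 0) := by
  have := IsCoprime.map h (evalRingHom (0 : R))
  simpa using this

theorem step_alg (hι : Function.Injective ι) (ht : (2 : L) ≠ 0)
    (hΔ : IsUnit (dsc (C ra) (C rb) (C rc) : R[X]))
    {P Q P0 Q0 : (EW (ι (C ra)) (ι (C rb)) (ι (C rc))).Point} {n1 n2 n3 n4 : ℕ}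
    (h1 : Rep ι P P0 n1) (h2 : Rep ι Q Q0 n2) (h3 : Rep ι (P - Q) (P0 - Q0) n3)
    (hne : P + Q ≠ 0) (hn : n3 + n4 = 2 * n1 + 2 * n2) (hn4 : 0 < n4) :
    Rep ι (P + Q) (P0 + Q0) n4 := by
  have hP := h1.ne_zero hι
  have hQ := h2.ne_zero hι
  have hPQ := h3.ne_zero hι
  obtain ⟨N1, D1, mN1, dN1, dD1, c1, x1, e1⟩ := h1
  obtain ⟨N2, D2, mN2, dN2, dD2, c2, x2, e2⟩ := h2
  obtain ⟨N3, D3, mN3, dN3, dD3, c3, x3, e3⟩ := h3
  set A := fA (N1 * N2) (N1 * D2 + N2 * D1) (D1 * D2) with hA
  set B := fB (C ra) (C rb) (C rc) (N1 * N2) (N1 * D2 + N2 * D1) (D1 * D2) with hB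
  set CC := fC (C ra) (C rb) (C rc) (N1 * N2) (N1 * D2 + N2 * D1) (D1 * D2) with hC
  have U := fun (I : Ideal R[X]) (hI : I.IsPrime) =>
    unit_ideal (a := C ra) (b := C rb) (c := C rc) hΔ c1 c2 I (hI := hI)
  rw [← hA, ← hB, ← hC] at U
  -- the relation in `L`
  have zD1 : ι D1 ≠ 0 := by
    intro h
    have hh : D1 = 0 := by apply hι; rw [h, map_zero]
    rcases P with _ | ⟨px, py, hP'⟩
    · exact hP rfl
    · have x1' : ι N1 = px * ι D1 := x1
      rw [h, mul_zero] at x1'
      have : N1 = 0 := by apply hι; rw [x1', map_zero]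
      exact mN1.ne_zero this
  have zD2 : ι D2 ≠ 0 := by
    intro h
    rcases Q with _ | ⟨px, py, hP'⟩
    · exact hQ rfl
    · have x1' : ι N2 = px * ι D2 := x2
      rw [h, mul_zero] at x1'
      have : N2 = 0 := by apply hι; rw [x1', map_zero]
      exact mN2.ne_zero this
  obtain ⟨xP, yP, hPn, rfl⟩ : ∃ x y h, P = Affine.Point.some x y h := by
    rcases P with _ | ⟨px, py, hP'⟩
    · exact absurd rfl hP
    · exact ⟨_, _, _, rfl⟩
  obtain ⟨xQ, yQ, hQn, rfl⟩ : ∃ x y h, Q = Affine.Point.some x y h := by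
    rcases Q with _ | ⟨px, py, hP'⟩
    · exact absurd rfl hQ
    · exact ⟨_, _, _, rfl⟩
  have x1' : ι N1 = xP * ι D1 := x1
  have x2' : ι N2 = xQ * ι D2 := x2
  have hx : xP ≠ xQ := by
    intro hx
    subst hx
    rcases eq_or_neg hPn hQn with hy | hy
    · subst hy
      exact hPQ (sub_self _)
    · apply hne
      obtain ⟨h', e⟩ := neg_some' hQn
      have e2 : (Affine.Point.some xP (-yQ) h' : (EW (ι (C ra)) (ι (C rb)) (ι (C rc))).Point) =
        Affine.Point.some xP yP hPn := some_congr rfl hy.symm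
      rw [← e2, ← e]
      exact neg_add_cancel _
  obtain ⟨a3, b3, a4, b4, hh3, hh4, f3, f4, hs, hp⟩ := addsub hPn hQn hx
  rw [f4] at x3
  rw [f3]
  have x3' : ι N3 = a4 * ι D3 := x3
  have hdx : xP - xQ ≠ 0 := sub_ne_zero.2 hx
  have iA : ι A = (xP - xQ) ^ 2 * (ι D1 * ι D2) ^ 2 := by
    rw [hA]; unfold fA
    simp only [map_sub, map_add, map_mul, map_pow, map_ofNat]
    rw [x1', x2']; ring
  have iB : ι B = (xP - xQ) ^ 2 * (a3 + a4) * (ι D1 * ι D2) ^ 2 := by
    rw [hB]; unfold fB
    simp only [map_sub, map_add, map_mul, map_pow, map_ofNat]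
    rw [x1', x2']
    linear_combination (-(ι D1 * ι D2) ^ 2) * hs
  have iC : ι CC = (xP - xQ) ^ 2 * (a3 * a4) * (ι D1 * ι D2) ^ 2 := by
    rw [hC]; unfold fC
    simp only [map_sub, map_add, map_mul, map_pow, map_ofNat]
    rw [x1', x2']
    linear_combination (-(ι D1 * ι D2) ^ 2) * hp
  have zA : ι A ≠ 0 := by
    rw [iA]
    exact mul_ne_zero (pow_ne_zero 2 hdx) (pow_ne_zero 2 (mul_ne_zero zD1 zD2))
  have rel : A * N3 ^ 2 - B * N3 * D3 + CC * D3 ^ 2 = 0 := by
    apply hι
    simp only [map_sub, map_add, map_mul, map_pow, map_zero]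
    rw [iA, iB, iC, x3']; ring
  have dvD : D3 ∣ A := by
    have h1 : D3 ∣ A * N3 ^ 2 := ⟨B * N3 - CC * D3, by linear_combination rel⟩
    exact (IsCoprime.pow_right (n := 2) c3.symm).dvd_of_dvd_mul_right h1
  have dvN : N3 ∣ CC := by
    have h1 : N3 ∣ CC * D3 ^ 2 := ⟨B * D3 - A * N3, by linear_combination rel⟩
    exact (IsCoprime.pow_right (n := 2) c3).dvd_of_dvd_mul_right h1
  obtain ⟨E, hE⟩ := dvD
  obtain ⟨F, hF⟩ := dvN
  have zD3 : D3 ≠ 0 := by
    rintro rfl
    rw [zero_mul] at hE
    rw [hE, map_zero] at zA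
    exact zA rfl
  have zE : E ≠ 0 := by
    rintro rfl
    rw [mul_zero] at hE
    rw [hE, map_zero] at zA
    exact zA rfl
  have hBEF : B = E * N3 + F * D3 := by
    have : (N3 * D3) * (E * N3 + F * D3 - B) = 0 := by
      rw [hE, hF] at rel
      linear_combination rel
    rcases mul_eq_zero.1 this with h | h
    · exact absurd h (mul_ne_zero mN3.ne_zero zD3)
    · linear_combination -h
  -- degrees
  have hs1 : (N1 * N2).natDegree = n1 + n2 := by
    rw [mN1.natDegree_mul mN2, dN1, dN2]
  have hs2 : (N1 * N2).Monic := mN1.mul mN2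
  have hu1 : (D1 * D2).natDegree + 2 ≤ n1 + n2 := by
    have := natDegree_mul_le (p := D1) (q := D2)
    omega
  have ht1 : (N1 * D2 + N2 * D1).natDegree + 1 ≤ n1 + n2 := by
    have e1 := natDegree_mul_le (p := N1) (q := D2)
    have e2 := natDegree_mul_le (p := N2) (q := D1)
    have e3 := natDegree_add_le (N1 * D2) (N2 * D1)
    have := max_le_iff.1 (le_refl (max (N1 * D2).natDegree (N2 * D1).natDegree))
    rcases le_total (N1 * D2).natDegree (N2 * D1).natDegree with h | h
    · rw [max_eq_right h] at e3; omega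
    · rw [max_eq_left h] at e3; omega
  set s := N1 * N2 with hs'
  set t := N1 * D2 + N2 * D1 with ht'
  set u := D1 * D2 with hu'
  have hCm : CC.Monic ∧ CC.natDegree = 2 * n1 + 2 * n2 := by
    have e : CC = s ^ 2 + (-(2 * C rb * s * u) - 4 * C rc * t * u -
        (4 * C ra * C rc - C rb ^ 2) * u ^ 2) := by
      rw [hC]; unfold fC; ring
    have hdeg : (-(2 * C rb * s * u) - 4 * C rc * t * u -
        (4 * C ra * C rc - C rb ^ 2) * u ^ 2).natDegree < (s ^ 2).natDegree := by
      rw [hs2.natDegree_pow, hs1]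
      have q1 : (2 * C rb * s * u).natDegree ≤ (n1 + n2) + (n1 + n2) - 2 := by
        have : 2 * C rb * s * u = C (2 * rb) * (s * u) := by
          rw [C_mul]; simp only [map_ofNat]; ring
        rw [this]
        refine (natDegree_C_mul_le _ _).trans ?_
        refine natDegree_mul_le.trans ?_
        omega
      have q2 : (4 * C rc * t * u).natDegree ≤ (n1 + n2) + (n1 + n2) - 2 := by
        have : 4 * C rc * t * u = C (4 * rc) * (t * u) := by
          rw [C_mul]; simp only [map_ofNat]; ring
        rw [this]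
        refine (natDegree_C_mul_le _ _).trans ?_
        refine natDegree_mul_le.trans ?_
        omega
      have q3 : ((4 * C ra * C rc - C rb ^ 2) * u ^ 2).natDegree ≤ (n1 + n2) + (n1 + n2) - 2 := by
        have : (4 * C ra * C rc - C rb ^ 2) * u ^ 2 = C (4 * ra * rc - rb ^ 2) * (u * u) := by
          rw [C_sub, C_mul, C_mul, C_pow]; simp only [map_ofNat]; ring
        rw [this]
        refine (natDegree_C_mul_le _ _).trans ?_
        refine natDegree_mul_le.trans ?_
        omega
      have q4 := natDegree_sub_le (-(2 * C rb * s * u) - 4 * C rc * t * u)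
        ((4 * C ra * C rc - C rb ^ 2) * u ^ 2)
      have q5 := natDegree_sub_le (-(2 * C rb * s * u)) (4 * C rc * t * u)
      rw [natDegree_neg] at q5
      have q6 : (-(2 * C rb * s * u) - 4 * C rc * t * u).natDegree ≤ (n1 + n2) + (n1 + n2) - 2 :=
        q5.trans (max_le q1 q2)
      have q7 := q4.trans (max_le q6 q3)
      omega
    constructor
    · rw [e]
      exact (hs2.pow 2).add_of_left (degree_lt_degree hdeg)
    · rw [e, natDegree_add_eq_left_of_natDegree_lt hdeg, hs2.natDegree_pow, hs1]; ring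
  have mF : F.Monic := by
    have := hCm.1
    rw [hF] at this
    exact mN3.of_mul_monic_left this
  have dF : F.natDegree = n4 := by
    have := hCm.2
    rw [hF, mN3.natDegree_mul mF, dN3] at this
    omega
  have dB : B.natDegree + 1 ≤ 2 * n1 + 2 * n2 := by
    have e : B = C 2 * (t * s) + C (4 * ra) * (s * u) + C (2 * rb) * (t * u) +
        C (4 * rc) * (u * u) := by
      rw [hB]; unfold fB
      rw [C_mul, C_mul, C_mul]; simp only [map_ofNat]; ring
    rw [e]
    have q1 : (C 2 * (t * s)).natDegree ≤ 2 * n1 + 2 * n2 - 1 := by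
      refine (natDegree_C_mul_le _ _).trans ?_
      refine natDegree_mul_le.trans ?_
      omega
    have q2 : (C (4 * ra) * (s * u)).natDegree ≤ 2 * n1 + 2 * n2 - 1 := by
      refine (natDegree_C_mul_le _ _).trans ?_
      refine natDegree_mul_le.trans ?_
      omega
    have q3 : (C (2 * rb) * (t * u)).natDegree ≤ 2 * n1 + 2 * n2 - 1 := by
      refine (natDegree_C_mul_le _ _).trans ?_
      refine natDegree_mul_le.trans ?_
      omega
    have q4 : (C (4 * rc) * (u * u)).natDegree ≤ 2 * n1 + 2 * n2 - 1 := by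
      refine (natDegree_C_mul_le _ _).trans ?_
      refine natDegree_mul_le.trans ?_
      omega
    have r1 := (natDegree_add_le (C 2 * (t * s)) (C (4 * ra) * (s * u))).trans (max_le q1 q2)
    have r2 := (natDegree_add_le _ (C (2 * rb) * (t * u))).trans (max_le r1 q3)
    have r3 := (natDegree_add_le _ (C (4 * rc) * (u * u))).trans (max_le r2 q4)
    omega
  have dE : E.natDegree < n4 := by
    by_contra hcon
    push Not at hcon
    have q1 : (E * N3).natDegree = E.natDegree + n3 := by
      rw [mul_comm, mN3.natDegree_mul' zE, dN3, add_comm]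
    have q2 : (F * D3).natDegree < (E * N3).natDegree := by
      rw [q1]
      have := natDegree_mul_le (p := F) (q := D3)
      omega
    have q3 : (E * N3 + F * D3).natDegree = (E * N3).natDegree :=
      natDegree_add_eq_left_of_natDegree_lt q2
    rw [← hBEF, q1] at q3
    omega
  have cFE : IsCoprime F E := by
    apply coprime_of_prime
    intro I hI ⟨hf, he⟩
    apply U I hI
    refine ⟨?_, ?_, ?_⟩
    · rw [hE]; exact I.mul_mem_left _ he
    · rw [hBEF]; exact I.add_mem (I.mul_mem_right _ he) (I.mul_mem_right _ hf)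
    · rw [hF]; exact I.mul_mem_left _ hf
  refine ⟨F, E, mF, dF, dE, cFE, ?_, ?_⟩
  · show ι F = a3 * ι E
    have h1 : ι D3 ≠ 0 := by
      intro h; apply zD3; apply hι; rw [h, map_zero]
    have h2 : ι A = ι D3 * ι E := by rw [hE, map_mul]
    have h3 : ι B = ι E * ι N3 + ι F * ι D3 := by rw [hBEF]; simp only [map_add, map_mul]
    have h4 : ι B = ι A * (a3 + a4) := by rw [iB, iA]; ring
    have : ι D3 * (ι F - a3 * ι E) = 0 := by
      rw [x3'] at h3
      linear_combination h4 - h3 + (a3 + a4) * h2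
    rcases mul_eq_zero.1 this with h | h
    · exact absurd h h1
    · linear_combination h
  · -- specialization at zero
    have nz : ∀ {N D : R[X]}, IsCoprime N D → ¬ (ι (C (N.eval 0)) = 0 ∧ ι (C (D.eval 0)) = 0) := by
      rintro N D hc ⟨h1, h2⟩
      have i1 : N.eval 0 = 0 := by
        have : C (N.eval 0) = (0 : R[X]) := by apply hι; rw [h1, map_zero]
        simpa using this
      have i2 : D.eval 0 = 0 := by
        have : C (D.eval 0) = (0 : R[X]) := by apply hι; rw [h2, map_zero]
        simpa using this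
      obtain ⟨p, q, e⟩ := coprime_eval hc
      rw [i1, i2] at e
      simp at e
    have ev : ∀ f : R[X], ι (C (f.eval 0)) = ((ι.comp C).comp (evalRingHom (0 : R))) f := by
      intro f; rfl
    set φ := (ι.comp C).comp (evalRingHom (0 : R)) with hφ
    have φC : ∀ r : R, φ (C r) = ι (C r) := by
      intro r
      rw [← ev]; simp
    rw [ev] at e1 e2 e3
    rw [ev] at e1 e2 e3
    rw [ev, ev]
    have nz' : ∀ {N D : R[X]}, IsCoprime N D → ¬ (φ N = 0 ∧ φ D = 0) := by
      intro N D hc
      rw [← ev, ← ev]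
      exact nz hc
    refine spec ht e1 e2 e3 (nz' c1) (nz' c2) (nz' c3) ?_ ?_ ?_
    · have e := congrArg φ hE
      rw [map_mul] at e
      rw [← e, hA]
      unfold fA
      simp only [hs', ht', hu', map_sub, map_add, map_mul, map_pow, map_ofNat]
    · have : φ E * φ N3 + φ F * φ D3 = φ B := by rw [hBEF]; simp only [map_add, map_mul]
      rw [this, hB]
      unfold fB
      simp only [hs', ht', hu', map_sub, map_add, map_mul, map_pow, map_ofNat, φC]
    · have e := congrArg φ hF
      rw [map_mul] at e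
      rw [← e, hC]
      unfold fC
      simp only [hs', ht', hu', map_sub, map_add, map_mul, map_pow, map_ofNat, φC]

end Pool.Agent.H475R2
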