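import Pool.Agent.H475R2.Ell4

/-!
Representations of abscissas by coprime polynomials: duplication, and the lattice generated by two
points.
-/

set_option autoImplicit false
set_option linter.unusedSectionVars false
set_option linter.unusedSimpArgs false

namespace Pool.Agent.H475R2

open WeierstrassCurve Polynomial

variable {R : Type*} [CommRing R] [IsDomain R] {L : Type*} [Field L] [DecidableEq L]
variable {ι : R[X] →+* L} {ra rb rc : R}

theorem fC_monic {s t u : R[X]} {m : ℕ} (hs : s.Monic) (ds : s.natDegree = m)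
    (dt : t.natDegree + 1 ≤ m) (du : u.natDegree + 2 ≤ m) :
    (fC (C ra) (C rb) (C rc) s t u).Monic ∧
      (fC (C ra) (C rb) (C rc) s t u).natDegree = 2 * m := by
  have e : fC (C ra) (C rb) (C rc) s t u = s ^ 2 + (-(2 * C rb * s * u) - 4 * C rc * t * u -
      (4 * C ra * C rc - C rb ^ 2) * u ^ 2) := by
    unfold fC; ring
  have hdeg : (-(2 * C rb * s * u) - 4 * C rc * t * u -
      (4 * C ra * C rc - C rb ^ 2) * u ^ 2).natDegree < (s ^ 2).natDegree := by
    rw [hs.natDegree_pow, ds]
    have q1 : (2 * C rb * s * u).natDegree ≤ m + m - 2 := by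
      have : 2 * C rb * s * u = C (2 * rb) * (s * u) := by
        rw [C_mul]; simp only [map_ofNat]; ring
      rw [this]
      refine (natDegree_C_mul_le _ _).trans ?_
      refine natDegree_mul_le.trans ?_
      omega
    have q2 : (4 * C rc * t * u).natDegree ≤ m + m - 2 := by
      have : 4 * C rc * t * u = C (4 * rc) * (t * u) := by
        rw [C_mul]; simp only [map_ofNat]; ring
      rw [this]
      refine (natDegree_C_mul_le _ _).trans ?_
      refine natDegree_mul_le.trans ?_
      omega
    have q3 : ((4 * C ra * C rc - C rb ^ 2) * u ^ 2).natDegree ≤ m + m - 2 := by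
      have : (4 * C ra * C rc - C rb ^ 2) * u ^ 2 = C (4 * ra * rc - rb ^ 2) * (u * u) := by
        rw [C_sub, C_mul, C_mul, C_pow]; simp only [map_ofNat]; ring
      rw [this]
      refine (natDegree_C_mul_le _ _).trans ?_
      refine natDegree_mul_le.trans ?_
      omega
    have q4 := natDegree_sub_le (-(2 * C rb * s * u) - 4 * C rc * t * u)
      ((4 * C ra * C rc - C rb ^ 2) * u ^ 2)
    have q5 := natDegree_sub_le (-(2 * C rb * s * u)) (4 * C rc * t * u)
    rw [natDegree_neg] at q5
    have q6 : (-(2 * C rb * s * u) - 4 * C rc * t * u).natDegree ≤ m + m - 2 :=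
      q5.trans (max_le q1 q2)
    have q7 := q4.trans (max_le q6 q3)
    omega
  constructor
  · rw [e]
    exact (hs.pow 2).add_of_left (degree_lt_degree hdeg)
  · rw [e, natDegree_add_eq_left_of_natDegree_lt hdeg, hs.natDegree_pow, ds]

theorem fB_deg {s t u : R[X]} {m : ℕ} (ds : s.natDegree = m)
    (dt : t.natDegree + 1 ≤ m) (du : u.natDegree + 2 ≤ m) :
    (fB (C ra) (C rb) (C rc) s t u).natDegree + 1 ≤ 2 * m := by
  have e : fB (C ra) (C rb) (C rc) s t u = C 2 * (t * s) + C (4 * ra) * (s * u) +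
      C (2 * rb) * (t * u) + C (4 * rc) * (u * u) := by
    unfold fB
    rw [C_mul, C_mul, C_mul]; simp only [map_ofNat]; ring
  rw [e]
  have q1 : (C 2 * (t * s)).natDegree ≤ 2 * m - 1 := by
    refine (natDegree_C_mul_le _ _).trans ?_
    refine natDegree_mul_le.trans ?_
    omega
  have q2 : (C (4 * ra) * (s * u)).natDegree ≤ 2 * m - 1 := by
    refine (natDegree_C_mul_le _ _).trans ?_
    refine natDegree_mul_le.trans ?_
    omega
  have q3 : (C (2 * rb) * (t * u)).natDegree ≤ 2 * m - 1 := by
    refine (natDegree_C_mul_le _ _).trans ?_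
    refine natDegree_mul_le.trans ?_
    omega
  have q4 : (C (4 * rc) * (u * u)).natDegree ≤ 2 * m - 1 := by
    refine (natDegree_C_mul_le _ _).trans ?_
    refine natDegree_mul_le.trans ?_
    omega
  have r1 := (natDegree_add_le (C 2 * (t * s)) (C (4 * ra) * (s * u))).trans (max_le q1 q2)
  have r2 := (natDegree_add_le _ (C (2 * rb) * (t * u))).trans (max_le r1 q3)
  have r3 := (natDegree_add_le _ (C (4 * rc) * (u * u))).trans (max_le r2 q4)
  omega

theorem step_dup (hι : Function.Injective ι) (ht : (2 : L) ≠ 0)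
    (hΔ : IsUnit (dsc (C ra) (C rb) (C rc) : R[X]))
    {P P0 : (EW (ι (C ra)) (ι (C rb)) (ι (C rc))).Point} {n : ℕ}
    (h1 : Rep ι P P0 n) (hne : P + P ≠ 0) : Rep ι (P + P) (P0 + P0) (4 * n) := by
  have hP := h1.ne_zero hι
  obtain ⟨N, D, mN, dN, dD, c1, x1, e1⟩ := h1
  have U := fun (I : Ideal R[X]) (hI : I.IsPrime) =>
    unit_ideal (a := C ra) (b := C rb) (c := C rc) hΔ c1 c1 I (hI := hI)
  obtain ⟨xP, yP, hPn, rfl⟩ : ∃ x y h, P = Affine.Point.some x y h := by
    rcases P with _ | ⟨px, py, hP'⟩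
    · exact absurd rfl hP
    · exact ⟨_, _, _, rfl⟩
  have x1' : ι N = xP * ι D := x1
  have hy : yP ≠ 0 := by
    intro hy
    apply hne
    obtain ⟨h', e⟩ := neg_some' hPn
    have e2 : (Affine.Point.some xP (-yP) h' : (EW (ι (C ra)) (ι (C rb)) (ι (C rc))).Point) =
      Affine.Point.some xP yP hPn := some_congr rfl (by rw [hy]; simp)
    nth_rewrite 1 [← e2]
    rw [← e]
    exact neg_add_cancel _
  obtain ⟨a3, b3, hh3, f3, hx3⟩ := dup ht hPn hy
  have hs1 : (N * N).natDegree = n + n := by
    rw [mN.natDegree_mul mN, dN]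
  have hu1 : (D * D).natDegree + 2 ≤ n + n := by
    have := natDegree_mul_le (p := D) (q := D)
    omega
  have ht1 : (N * D + N * D).natDegree + 1 ≤ n + n := by
    have e1 := natDegree_mul_le (p := N) (q := D)
    have e3 := natDegree_add_le (N * D) (N * D)
    rw [max_self] at e3
    omega
  have hCm := fC_monic (ra := ra) (rb := rb) (rc := rc) (mN.mul mN) hs1 ht1 hu1
  have hBd := fB_deg (ra := ra) (rb := rb) (rc := rc) hs1 ht1 hu1
  have hA0 : fA (N * N) (N * D + N * D) (D * D) = 0 := by unfold fA; ring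
  refine ⟨fC (C ra) (C rb) (C rc) (N * N) (N * D + N * D) (D * D),
    fB (C ra) (C rb) (C rc) (N * N) (N * D + N * D) (D * D), hCm.1, by rw [hCm.2]; ring,
    by omega, ?_, ?_, ?_⟩
  · apply coprime_of_prime
    intro I hI ⟨hf, he⟩
    apply U I hI
    exact ⟨by rw [hA0]; exact I.zero_mem, he, hf⟩
  · rw [f3]
    show ι _ = a3 * ι _
    unfold fB fC
    simp only [map_sub, map_add, map_mul, map_pow, map_ofNat]
    rw [x1']
    unfold fx at hx3
    linear_combination (-(ι D) ^ 4) * hx3
  · have nz : ¬ (ι (C (N.eval 0)) = 0 ∧ ι (C (D.eval 0)) = 0) := by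
      rintro ⟨h1, h2⟩
      have i1 : N.eval 0 = 0 := by
        have : C (N.eval 0) = (0 : R[X]) := by apply hι; rw [h1, map_zero]
        simpa using this
      have i2 : D.eval 0 = 0 := by
        have : C (D.eval 0) = (0 : R[X]) := by apply hι; rw [h2, map_zero]
        simpa using this
      obtain ⟨p, q, e⟩ := coprime_eval c1
      rw [i1, i2] at e
      simp at e
    have h3 : XR (1 : L) 0 (P0 - P0) := by
      rw [sub_self]
      exact (rfl : (0 : L) = 0)
    refine spec ht e1 e1 h3 nz nz (by simp) ?_ ?_ ?_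
    · unfold fA; ring
    · unfold fB
      simp only [eval_add, eval_mul, eval_C, eval_pow, eval_ofNat, map_sub, map_add, map_mul,
        map_pow, map_ofNat]
      ring
    · unfold fC
      simp only [eval_add, eval_sub, eval_mul, eval_C, eval_pow, eval_ofNat, map_sub, map_add,
        map_mul, map_pow, map_ofNat]
      ring

theorem Rep.neg {a b c : L} {P P0 : (EW a b c).Point} {n : ℕ} (h : Rep ι P P0 n) :
    Rep ι (-P) (-P0) n := by
  obtain ⟨N, D, mN, dN, dD, c1, x1, e1⟩ := h
  exact ⟨N, D, mN, dN, dD, c1, x1.neg, e1.neg⟩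

/-- Norm form of the lattice. -/
def nf (t n : ℤ) (i j : ℤ) : ℤ := i ^ 2 + t * i * j + n * j ^ 2

/-- All the points of a rank two lattice are represented. -/
theorem lattice (hι : Function.Injective ι) (ht : (2 : L) ≠ 0)
    (hΔ : IsUnit (dsc (C ra) (C rb) (C rc) : R[X]))
    {G H G0 H0 : (EW (ι (C ra)) (ι (C rb)) (ι (C rc))).Point} {t n : ℤ}
    (hdisc : t ^ 2 < 4 * n)
    (hG : Rep ι G G0 1) (hH : Rep ι H H0 n.toNat) (hGH : Rep ι (G - H) (G0 - H0) (nf t n 1 (-1)).toNat)
    (hnz : ∀ i j : ℤ, (i ≠ 0 ∨ j ≠ 0) → i • G + j • H ≠ 0) :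
    ∀ i j : ℤ, (i ≠ 0 ∨ j ≠ 0) →
      Rep ι (i • G + j • H) (i • G0 + j • H0) (nf t n i j).toNat := by
  have hpos : ∀ i j : ℤ, (i ≠ 0 ∨ j ≠ 0) → 0 < nf t n i j := by
    intro i j hij
    unfold nf
    by_cases hj : j = 0
    · subst hj
      have : i ≠ 0 := by rcases hij with h | h; exact h; exact absurd rfl h
      have : 0 < i ^ 2 := by positivity
      linarith [this]
    · have h1 : 0 < j ^ 2 := by positivity
      have h2 : 0 < (4 * n - t ^ 2) * j ^ 2 := by
        apply mul_pos _ h1; linarith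
      nlinarith [sq_nonneg (2 * i + t * j)]
  -- the general step
  have step : ∀ i j i' j' : ℤ, (i ≠ 0 ∨ j ≠ 0) → (i' ≠ 0 ∨ j' ≠ 0) → (i - i' ≠ 0 ∨ j - j' ≠ 0) →
      (i + i' ≠ 0 ∨ j + j' ≠ 0) →
      Rep ι (i • G + j • H) (i • G0 + j • H0) (nf t n i j).toNat →
      Rep ι (i' • G + j' • H) (i' • G0 + j' • H0) (nf t n i' j').toNat →
      Rep ι ((i - i') • G + (j - j') • H) ((i - i') • G0 + (j - j') • H0)
        (nf t n (i - i') (j - j')).toNat →
      Rep ι ((i + i') • G + (j + j') • H) ((i + i') • G0 + (j + j') • H0)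
        (nf t n (i + i') (j + j')).toNat := by
    intro i j i' j' z1 z2 z3 z4 r1 r2 r3
    have e1 : (i - i') • G + (j - j') • H = (i • G + j • H) - (i' • G + j' • H) := by
      rw [sub_smul, sub_smul]; abel
    have e2 : (i - i') • G0 + (j - j') • H0 = (i • G0 + j • H0) - (i' • G0 + j' • H0) := by
      rw [sub_smul, sub_smul]; abel
    have e3 : (i + i') • G + (j + j') • H = (i • G + j • H) + (i' • G + j' • H) := by
      rw [add_smul, add_smul]; abel
    have e4 : (i + i') • G0 + (j + j') • H0 = (i • G0 + j • H0) + (i' • G0 + j' • H0) := by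
      rw [add_smul, add_smul]; abel
    rw [e1, e2] at r3
    rw [e3, e4]
    refine step_alg hι ht hΔ r1 r2 r3 ?_ ?_ ?_
    · rw [← e3]; exact hnz _ _ z4
    · have p1 := hpos _ _ z1
      have p2 := hpos _ _ z2
      have p3 := hpos _ _ z3
      have p4 := hpos _ _ z4
      have : nf t n (i - i') (j - j') + nf t n (i + i') (j + j') =
        2 * nf t n i j + 2 * nf t n i' j' := by unfold nf; ring
      omega
    · have p4 := hpos _ _ z4
      omega
  have hG' : Rep ι ((1 : ℤ) • G + (0 : ℤ) • H) ((1 : ℤ) • G0 + (0 : ℤ) • H0) (nf t n 1 0).toNat := by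
    simpa [nf] using hG
  have hH' : Rep ι ((0 : ℤ) • G + (1 : ℤ) • H) ((0 : ℤ) • G0 + (1 : ℤ) • H0) (nf t n 0 1).toNat := by
    simpa [nf] using hH
  have hGH' : Rep ι ((1 : ℤ) • G + (-1 : ℤ) • H) ((1 : ℤ) • G0 + (-1 : ℤ) • H0)
      (nf t n 1 (-1)).toNat := by
    have e1 : (1 : ℤ) • G + (-1 : ℤ) • H = G - H := by simp [sub_eq_add_neg]
    have e2 : (1 : ℤ) • G0 + (-1 : ℤ) • H0 = G0 - H0 := by simp [sub_eq_add_neg]
    rw [e1, e2]; exact hGH
  have negr : ∀ i j : ℤ, Rep ι (i • G + j • H) (i • G0 + j • H0) (nf t n i j).toNat →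
      Rep ι ((-i) • G + (-j) • H) ((-i) • G0 + (-j) • H0) (nf t n (-i) (-j)).toNat := by
    intro i j h
    have e1 : (-i) • G + (-j) • H = -(i • G + j • H) := by rw [neg_smul, neg_smul]; abel
    have e2 : (-i) • G0 + (-j) • H0 = -(i • G0 + j • H0) := by rw [neg_smul, neg_smul]; abel
    have e3 : nf t n (-i) (-j) = nf t n i j := by unfold nf; ring
    rw [e1, e2, e3]; exact h.neg
  have dupr : ∀ i j : ℤ, (i ≠ 0 ∨ j ≠ 0) →
      Rep ι (i • G + j • H) (i • G0 + j • H0) (nf t n i j).toNat →
      Rep ι ((i + i) • G + (j + j) • H) ((i + i) • G0 + (j + j) • H0)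
        (nf t n (i + i) (j + j)).toNat := by
    intro i j hij h
    have e3 : (i + i) • G + (j + j) • H = (i • G + j • H) + (i • G + j • H) := by
      rw [add_smul, add_smul]; abel
    have e4 : (i + i) • G0 + (j + j) • H0 = (i • G0 + j • H0) + (i • G0 + j • H0) := by
      rw [add_smul, add_smul]; abel
    have e5 : (nf t n (i + i) (j + j)).toNat = 4 * (nf t n i j).toNat := by
      have p1 := hpos _ _ hij
      have : nf t n (i + i) (j + j) = 4 * nf t n i j := by unfold nf; ring
      omega
    rw [e5]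
    have hne := hnz (i + i) (j + j) (by omega)
    rw [e3] at hne ⊢
    rw [e4]
    exact step_dup hι ht hΔ h hne
  -- row zero
  have row0 : ∀ i : ℕ, Rep ι (((i : ℤ) + 1) • G + (0 : ℤ) • H) (((i : ℤ) + 1) • G0 + (0 : ℤ) • H0)
      (nf t n ((i : ℤ) + 1) 0).toNat := by
    intro i
    induction i using Nat.strong_induction_on with
    | _ i ih =>
      rcases i with _ | _ | i
      · simpa using hG'
      · have := dupr 1 0 (by simp) hG'
        simpa using this
      · have r1 := ih (i + 1) (by omega)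
        have r2 := ih i (by omega)
        have := step (((i + 1 : ℕ) : ℤ) + 1) 0 1 0 (by left; omega) (by simp) (by left; push_cast; omega)
          (by left; omega) r1 hG'
        have e1 : ((i + 1 : ℕ) : ℤ) + 1 - 1 = (i : ℤ) + 1 := by push_cast; ring
        have e2 : ((i + 1 : ℕ) : ℤ) + 1 + 1 = ((i + 2 : ℕ) : ℤ) + 1 := by push_cast; ring
        rw [e1, e2, sub_zero, add_zero] at this
        exact this r2
  have row0' : ∀ i : ℤ, i ≠ 0 → Rep ι (i • G + (0 : ℤ) • H) (i • G0 + (0 : ℤ) • H0)
      (nf t n i 0).toNat := by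
    intro i hi
    rcases lt_or_gt_of_ne hi with h | h
    · have r := negr _ _ (row0 ((-i).toNat - 1))
      have e : -((((-i).toNat - 1 : ℕ) : ℤ) + 1) = i := by omega
      rw [e, neg_zero] at r
      exact r
    · have r := row0 (i.toNat - 1)
      have e : (((i.toNat - 1 : ℕ) : ℤ) + 1) = i := by omega
      rw [e] at r
      exact r
  -- a row with two consecutive entries
  have rowgen : ∀ j : ℤ, j ≠ 0 → ∀ i0 : ℤ,
      Rep ι (i0 • G + j • H) (i0 • G0 + j • H0) (nf t n i0 j).toNat →
      Rep ι ((i0 - 1) • G + j • H) ((i0 - 1) • G0 + j • H0) (nf t n (i0 - 1) j).toNat →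
      ∀ i : ℤ, Rep ι (i • G + j • H) (i • G0 + j • H0) (nf t n i j).toNat := by
    intro j hj i0 h0 h1
    have up : ∀ k : ℕ, Rep ι ((i0 + k) • G + j • H) ((i0 + k) • G0 + j • H0)
        (nf t n (i0 + k) j).toNat ∧ Rep ι ((i0 + k - 1) • G + j • H) ((i0 + k - 1) • G0 + j • H0)
        (nf t n (i0 + k - 1) j).toNat := by
      intro k
      induction k with
      | zero => simpa using ⟨h0, h1⟩
      | succ k ih =>
        obtain ⟨r1, r2⟩ := ih
        have := step (i0 + k) j 1 0 (by right; exact hj) (by simp) (by right; omega)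
          (by right; omega) r1 hG'
        rw [sub_zero, add_zero] at this
        have r3 := this r2
        have e1 : i0 + (k : ℤ) + 1 = i0 + ((k + 1 : ℕ) : ℤ) := by push_cast; ring
        have e2 : i0 + ((k + 1 : ℕ) : ℤ) - 1 = i0 + k := by push_cast; ring
        rw [e1] at r3
        rw [e2]
        exact ⟨r3, r1⟩
    have down : ∀ k : ℕ, Rep ι ((i0 - k) • G + j • H) ((i0 - k) • G0 + j • H0)
        (nf t n (i0 - k) j).toNat ∧ Rep ι ((i0 - k - 1) • G + j • H) ((i0 - k - 1) • G0 + j • H0)
        (nf t n (i0 - k - 1) j).toNat := by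
      intro k
      induction k with
      | zero => simpa using ⟨h0, h1⟩
      | succ k ih =>
        obtain ⟨r1, r2⟩ := ih
        have := step (i0 - k - 1) j (-1) 0 (by right; exact hj) (by simp) (by right; omega)
          (by right; omega) r2 (by simpa using negr _ _ hG')
        rw [sub_zero, add_zero] at this
        have e0 : i0 - (k : ℤ) - 1 - (-1) = i0 - k := by ring
        rw [e0] at this
        have r3 := this r1
        have e1 : i0 - (k : ℤ) - 1 + -1 = i0 - ((k + 1 : ℕ) : ℤ) - 1 := by push_cast; ring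
        have e2 : i0 - ((k + 1 : ℕ) : ℤ) = i0 - k - 1 := by push_cast; ring
        rw [e1] at r3
        rw [e2] at r3 ⊢
        exact ⟨r2, r3⟩
    intro i
    rcases le_total i0 i with h | h
    · have := (up (i - i0).toNat).1
      have e : i0 + ((i - i0).toNat : ℤ) = i := by omega
      rw [e] at this; exact this
    · have := (down (i0 - i).toNat).1
      have e : i0 - ((i0 - i).toNat : ℤ) = i := by omega
      rw [e] at this; exact this
  have row1 : ∀ i : ℤ, Rep ι (i • G + (1 : ℤ) • H) (i • G0 + (1 : ℤ) • H0) (nf t n i 1).toNat := by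
    refine rowgen 1 one_ne_zero 0 hH' ?_
    have := negr _ _ hGH'
    simpa using this
  have rows : ∀ j : ℕ, ∀ i : ℤ, Rep ι (i • G + ((j : ℤ) + 1) • H) (i • G0 + ((j : ℤ) + 1) • H0)
      (nf t n i ((j : ℤ) + 1)).toNat := by
    intro j
    induction j using Nat.strong_induction_on with
    | _ j ih =>
      rcases j with _ | _ | j
      · simpa using row1
      · -- row two
        have key : ∀ i : ℤ, i ≠ 0 → Rep ι (i • G + (2 : ℤ) • H) (i • G0 + (2 : ℤ) • H0)
            (nf t n i 2).toNat := by
          intro i hi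
          have := step i 1 0 1 (by left; exact hi) (by simp) (by left; simpa using hi)
            (by left; simpa using hi) (row1 i) hH'
          have e : (1 : ℤ) + 1 = 2 := by norm_num
          rw [sub_zero, add_zero, e, sub_self] at this
          exact this (row0' i hi)
        intro i
        have e : (((0 + 1 : ℕ) : ℤ) + 1) = 2 := by norm_num
        rw [e]
        by_cases hi : i = 0
        · subst hi
          have := dupr 0 1 (by simp) hH'
          have e : (1 : ℤ) + 1 = 2 := by norm_num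
          rw [e, add_zero] at this
          exact this
        · exact key i hi
      · intro i
        have r1 := ih (j + 1) (by omega) i
        have r2 := ih j (by omega) i
        have := step i (((j + 1 : ℕ) : ℤ) + 1) 0 1 (by right; omega) (by simp) (by right; push_cast; omega)
          (by right; omega) r1 hH'
        have e1 : ((j + 1 : ℕ) : ℤ) + 1 - 1 = (j : ℤ) + 1 := by push_cast; ring
        have e2 : ((j + 1 : ℕ) : ℤ) + 1 + 1 = ((j + 2 : ℕ) : ℤ) + 1 := by push_cast; ring
        rw [e1, e2, sub_zero, add_zero] at this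
        exact this r2
  intro i j hij
  rcases lt_trichotomy j 0 with h | h | h
  · have r := negr _ _ (rows ((-j).toNat - 1) (-i))
    have e : -((((-j).toNat - 1 : ℕ) : ℤ) + 1) = j := by omega
    rw [e, neg_neg] at r
    exact r
  · subst h
    exact row0' i (by rcases hij with h | h; exact h; exact absurd rfl h)
  · have r := rows (j.toNat - 1) i
    have e : (((j.toNat - 1 : ℕ) : ℤ) + 1) = j := by omega
    rw [e] at r
    exact r

end Pool.Agent.H475R2
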