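import Pool.Agent.H475R2.Ell5

/-!
The function field of `y^2 = x^3 + a x^2 + b x + c` over a domain, with its invariant derivation.
-/

set_option autoImplicit false
set_option linter.unusedSectionVars false
set_option linter.unusedSimpArgs false

namespace Pool.Agent.H475R2

open WeierstrassCurve Polynomial

universe w

theorem exists_ff {R : Type w} [CommRing R] [IsDomain R] (ra rb rc : R) :
    ∃ (L : Type w) (_ : Field L) (ι : R[X] →+* L) (y : L) (d : L → L),
      Function.Injective ι ∧
      y ^ 2 = ι (X ^ 3 + C ra * X ^ 2 + C rb * X + C rc) ∧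
      (∀ u v, d (u + v) = d u + d v) ∧ (∀ u v, d (u * v) = u * d v + v * d u) ∧
      (∀ p : R[X], d (ι p) = 2 * y * ι (derivative p)) ∧
      d y = ι (3 * X ^ 2 + 2 * C ra * X + C rb) := by
  let W : WeierstrassCurve.Affine R := ⟨0, ra, 0, rb, rc⟩
  let A := W.CoordinateRing
  let L := FractionRing A
  let ι0 : R[X] →+* A := algebraMap R[X] A
  have hι0 : Function.Injective ι0 := FaithfulSMul.algebraMap_injective _ _
  let j : A →+* L := algebraMap A L
  have hj : Function.Injective j := IsFractionRing.injective A L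
  let ι : R[X] →+* L := j.comp ι0
  have hι : Function.Injective ι := hj.comp hι0
  let y0 : A := WeierstrassCurve.Affine.CoordinateRing.mk W Polynomial.X
  let y : L := j y0
  have hpoly : W.polynomial = Polynomial.X ^ 2 - C (X ^ 3 + C ra * X ^ 2 + C rb * X + C rc) := by
    rw [WeierstrassCurve.Affine.polynomial]
    simp only [W, map_zero, zero_mul, zero_add, add_zero]
  have hy0 : y0 ^ 2 = ι0 (X ^ 3 + C ra * X ^ 2 + C rb * X + C rc) := by
    have h0 : WeierstrassCurve.Affine.CoordinateRing.mk W W.polynomial = 0 := AdjoinRoot.mk_self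
    have h1 := congrArg (WeierstrassCurve.Affine.CoordinateRing.mk W) hpoly
    rw [h0, map_sub, map_pow] at h1
    have e := sub_eq_zero.1 h1.symm
    exact e
  have hy : y ^ 2 = ι (X ^ 3 + C ra * X ^ 2 + C rb * X + C rc) := by
    show (j y0) ^ 2 = j (ι0 _)
    rw [← map_pow, hy0]
  -- the dual numbers
  let i : R[X] →+* DualNumber L :=
    eval₂RingHom ((TrivSqZeroExt.inlHom L L).comp (ι.comp C))
      (TrivSqZeroExt.inl (ι X) + TrivSqZeroExt.inr (2 * y))
  have hi : ∀ p : R[X], i p = TrivSqZeroExt.inl (ι p) + TrivSqZeroExt.inr (2 * y * ι (derivative p)) := by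
    intro p
    induction p using Polynomial.induction_on' with
    | add p q hp hq =>
      rw [map_add, hp, hq, map_add, derivative_add, map_add]
      apply TrivSqZeroExt.ext
      · simp
      · simp; ring
    | monomial n r =>
      rw [← C_mul_X_pow_eq_monomial]
      induction n with
      | zero =>
        simp only [pow_zero, mul_one, derivative_C, map_zero, mul_zero, TrivSqZeroExt.inr_zero,
          add_zero]
        simp [i]
      | succ n ih =>
        have key : derivative (C r * X ^ n * X) = derivative (C r * X ^ n) * X + C r * X ^ n := by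
          rw [derivative_mul (f := C r * X ^ n) (g := X), derivative_X, mul_one]
        rw [pow_succ, ← mul_assoc, map_mul, ih, key]
        have hX : i X = TrivSqZeroExt.inl (ι X) + TrivSqZeroExt.inr (2 * y) := by simp [i]
        rw [hX]
        apply TrivSqZeroExt.ext
        · simp
        · simp only [TrivSqZeroExt.snd_mul, TrivSqZeroExt.fst_add, TrivSqZeroExt.snd_add,
            TrivSqZeroExt.fst_inl, TrivSqZeroExt.fst_inr, TrivSqZeroExt.snd_inl,
            TrivSqZeroExt.snd_inr, map_add, map_mul, smul_eq_mul, MulOpposite.smul_eq_mul_unop,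
            MulOpposite.unop_op]
          ring
  let yd : DualNumber L := TrivSqZeroExt.inl y +
    TrivSqZeroExt.inr (ι (3 * X ^ 2 + 2 * C ra * X + C rb))
  have hlift : W.polynomial.eval₂ i yd = 0 := by
    refine (congrArg (eval₂ i yd) hpoly).trans ?_
    rw [eval₂_sub, eval₂_X_pow, eval₂_C, hi]
    apply TrivSqZeroExt.ext
    · simp only [yd, TrivSqZeroExt.fst_sub, TrivSqZeroExt.fst_pow, TrivSqZeroExt.fst_add,
        TrivSqZeroExt.fst_inl, TrivSqZeroExt.fst_inr, add_zero, TrivSqZeroExt.fst_zero]
      rw [hy, sub_self]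
    · rw [pow_two]
      simp only [yd, TrivSqZeroExt.snd_sub, TrivSqZeroExt.snd_mul, TrivSqZeroExt.fst_add,
        TrivSqZeroExt.snd_add, TrivSqZeroExt.fst_inl, TrivSqZeroExt.fst_inr, TrivSqZeroExt.snd_inl,
        TrivSqZeroExt.snd_inr, smul_eq_mul, MulOpposite.smul_eq_mul_unop,
            MulOpposite.unop_op, TrivSqZeroExt.snd_zero, add_zero, zero_add]
      have : derivative (X ^ 3 + C ra * X ^ 2 + C rb * X + C rc) =
          3 * X ^ 2 + 2 * C ra * X + C rb := by
        simp only [derivative_add, derivative_mul, derivative_X_pow, derivative_C, derivative_X,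
          zero_mul, zero_add, mul_one, add_zero, Nat.cast_ofNat, pow_one]
        simp only [map_ofNat]
        ring
      rw [this]
      ring
  let ψ : A →+* DualNumber L := AdjoinRoot.lift i yd hlift
  have hψ1 : ∀ p : R[X], ψ (ι0 p) = i p := by
    intro p
    exact AdjoinRoot.lift_of hlift
  have hψ2 : ψ y0 = yd := AdjoinRoot.lift_root hlift
  have hfst : ∀ u : A, (ψ u).fst = j u := by
    intro u
    obtain ⟨p, q, rfl⟩ := WeierstrassCurve.Affine.CoordinateRing.exists_smul_basis_eq u
    rw [Algebra.smul_def, Algebra.smul_def, mul_one, map_add, map_mul, map_add, map_mul]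
    have h1 := hψ1 p
    have h2 := hψ1 q
    have e1 : ψ (algebraMap R[X] W.CoordinateRing p) = i p := h1
    have e2 : ψ (algebraMap R[X] W.CoordinateRing q) = i q := h2
    have e3 : ψ (WeierstrassCurve.Affine.CoordinateRing.mk W Polynomial.X) = yd := hψ2
    rw [e1, e2, e3, hi, hi]
    simp only [yd, TrivSqZeroExt.fst_add, TrivSqZeroExt.fst_mul, TrivSqZeroExt.fst_inl,
      TrivSqZeroExt.fst_inr, add_zero]
    rfl
  have hunit : ∀ m : nonZeroDivisors A, IsUnit (ψ m) := by
    intro m
    rw [TrivSqZeroExt.isUnit_iff_isUnit_fst, hfst]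
    have : (m : A) ≠ 0 := nonZeroDivisors.ne_zero m.2
    exact IsUnit.mk0 _ ((map_ne_zero_iff j hj).2 this)
  let Ψ : L →+* DualNumber L := IsLocalization.lift hunit
  have hΨ : ∀ u : A, Ψ (j u) = ψ u := fun u => IsLocalization.lift_eq hunit u
  have hΨfst : ∀ z : L, (Ψ z).fst = z := by
    have : ((TrivSqZeroExt.fstHom L L L).toRingHom.comp Ψ) = RingHom.id L := by
      apply IsLocalization.ringHom_ext (nonZeroDivisors A)
      apply RingHom.ext
      intro u
      show (Ψ (j u)).fst = j u
      rw [hΨ, hfst]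
    intro z
    have := congrArg (fun f : L →+* L => f z) this
    exact this
  refine ⟨L, inferInstance, ι, y, fun z => (Ψ z).snd, hι, hy, ?_, ?_, ?_, ?_⟩
  · intro u v
    show (Ψ (u + v)).snd = _
    rw [map_add]; rfl
  · intro u v
    show (Ψ (u * v)).snd = u * (Ψ v).snd + v * (Ψ u).snd
    rw [map_mul, TrivSqZeroExt.snd_mul, hΨfst, hΨfst]
    simp only [smul_eq_mul, MulOpposite.smul_eq_mul_unop, MulOpposite.unop_op]
    ring
  · intro p
    show (Ψ (j (ι0 p))).snd = _
    rw [hΨ, hψ1, hi]
    simp
  · show (Ψ (j y0)).snd = _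
    rw [hΨ, hψ2]
    simp [yd]

end Pool.Agent.H475R2
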