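import Pool.Agent.H475R2.Ell6

/-!
The differential equation of the multiplication maps.
-/

set_option autoImplicit false
set_option linter.unusedSectionVars false
set_option linter.unusedSimpArgs false
set_option linter.unusedVariables false

namespace Pool.Agent.H475R2

open WeierstrassCurve Polynomial

variable {R : Type*} [CommRing R] [IsDomain R] {L : Type*} [Field L] [DecidableEq L]
variable {ι : R[X] →+* L} {ra rb rc : R}

/-- The derivation kills constants. -/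
theorem dn_of {y : L} {d : L → L} (h1 : ∀ u v, d (u + v) = d u + d v)
    (h2 : ∀ u v, d (u * v) = u * d v + v * d u)
    (h3 : ∀ p : R[X], d (ι p) = 2 * y * ι (derivative p)) :
    Dn (ι (C ra)) (ι (C rb)) (ι (C rc)) d where
  add := h1
  mul := h2
  ha := by rw [h3]; simp
  hb := by rw [h3]; simp
  hc := by rw [h3]; simp

theorem ode_of_rep (hι : Function.Injective ι) (h4 : (2 : L) ≠ 0) {y : L} {d : L → L}
    (hy : y ^ 2 = ι (X ^ 3 + C ra * X ^ 2 + C rb * X + C rc))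
    (h1 : ∀ u v, d (u + v) = d u + d v)
    (h2 : ∀ u v, d (u * v) = u * d v + v * d u)
    (h3 : ∀ p : R[X], d (ι p) = 2 * y * ι (derivative p))
    {P : (EW (ι (C ra)) (ι (C rb)) (ι (C rc))).Point} {N D : R[X]} {α : R}
    (hx : XR (ι N) (ι D) P) (hP : P ≠ 0) (ho : Om d (ι (C α)) P) :
    (X ^ 3 + C ra * X ^ 2 + C rb * X + C rc) * (derivative N * D - N * derivative D) ^ 2 =
      C α ^ 2 * D * (N ^ 3 + C ra * N ^ 2 * D + C rb * N * D ^ 2 + C rc * D ^ 3) := by
  rcases P with _ | ⟨x3, y3, hP3⟩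
  · exact absurd rfl hP
  have hx' : ι N = x3 * ι D := hx
  obtain ⟨o1, o2⟩ := ho
  have f3 := eq_of_nonsing hP3
  unfold fx at f3
  have e1 : 2 * y * ι (derivative N) = x3 * (2 * y * ι (derivative D)) + ι D * (2 * y3 * ι (C α)) := by
    have := congrArg d hx'
    rw [h2, h3, h3, o1] at this
    exact this
  apply hι
  have e2 : y * (ι (derivative N) * ι D - ι N * ι (derivative D)) = (ι D) ^ 2 * y3 * ι (C α) := by
    have : 2 * (y * (ι (derivative N) * ι D - ι N * ι (derivative D)) -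
        (ι D) ^ 2 * y3 * ι (C α)) = 0 := by
      rw [hx']
      linear_combination ι D * e1
    rcases mul_eq_zero.1 this with h | h
    · exact absurd h h4
    · linear_combination h
  have e3 : y ^ 2 * (ι (derivative N) * ι D - ι N * ι (derivative D)) ^ 2 =
      ((ι D) ^ 2 * y3 * ι (C α)) ^ 2 := by
    rw [← e2]; ring
  rw [map_mul, ← hy]
  simp only [map_add, map_mul, map_pow, map_sub]
  rw [e3, hx']
  linear_combination (ι D) ^ 4 * (ι (C α)) ^ 2 * f3

/-- The multiplication maps, as reduced fractions. -/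
theorem ell_concl (hι : Function.Injective ι) (ht : (2 : L) ≠ 0)
    (hΔ : IsUnit (dsc (C ra) (C rb) (C rc) : R[X])) {y : L} {d : L → L}
    (hy : y ^ 2 = ι (X ^ 3 + C ra * X ^ 2 + C rb * X + C rc))
    (h1 : ∀ u v, d (u + v) = d u + d v)
    (h2 : ∀ u v, d (u * v) = u * d v + v * d u)
    (h3 : ∀ p : R[X], d (ι p) = 2 * y * ι (derivative p))
    (h4 : d y = ι (3 * X ^ 2 + 2 * C ra * X + C rb))
    {G H G0 H0 : (EW (ι (C ra)) (ι (C rb)) (ι (C rc))).Point} {t n : ℤ} {σ : R}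
    (hσ : ∀ i j : ℤ, (i ≠ 0 ∨ j ≠ 0) → (i : R) + j * σ ≠ 0)
    (hdisc : t ^ 2 < 4 * n)
    (hGs : (EW (ι (C ra)) (ι (C rb)) (ι (C rc))).Nonsingular (ι X) y)
    (hGe : G = Affine.Point.some (ι X) y hGs)
    (hG0 : XR (0 : L) 1 G0)
    (hHo : Om d (ι (C σ)) H) (hH : Rep ι H H0 n.toNat)
    (hGH : Rep ι (G - H) (G0 - H0) (nf t n 1 (-1)).toNat) (i j : ℤ) (hij : i ≠ 0 ∨ j ≠ 0) :
    ∃ N D : R[X], N.Monic ∧ N.natDegree = (nf t n i j).toNat ∧ D.natDegree < (nf t n i j).toNat ∧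
      IsCoprime N D ∧
      (X ^ 3 + C ra * X ^ 2 + C rb * X + C rc) * (derivative N * D - N * derivative D) ^ 2 =
        C ((i : R) + j * σ) ^ 2 * D *
          (N ^ 3 + C ra * N ^ 2 * D + C rb * N * D ^ 2 + C rc * D ^ 3) ∧
      XR (ι (C (N.eval 0))) (ι (C (D.eval 0))) (i • G0 + j • H0) := by
  have hd : Dn (ι (C ra)) (ι (C rb)) (ι (C rc)) d := dn_of h1 h2 h3
  have hG : Rep ι G G0 1 := by
    refine ⟨X, 1, monic_X, natDegree_X, by rw [natDegree_one]; norm_num, isCoprime_one_right, ?_, ?_⟩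
    · rw [hGe]
      show ι X = ι X * ι 1
      rw [map_one, mul_one]
    · simpa using hG0
  have hGo : Om d (1 : L) G := by
    rw [hGe]
    refine ⟨?_, ?_⟩
    · rw [h3]; simp
    · rw [h4, mul_one]
      unfold dfx
      simp only [map_add, map_mul, map_pow, map_ofNat]
  have ho : ∀ i j : ℤ, Om d (ι (C ((i : R) + j * σ))) (i • G + j • H) := by
    intro i j
    have e : ι (C ((i : R) + j * σ)) = (i : L) * 1 + (j : L) * ι (C σ) := by simp
    rw [e]
    exact Om.add ht hd (Om.zsmul ht hd hGo i) (Om.zsmul ht hd hHo j)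
  have hnz : ∀ i j : ℤ, (i ≠ 0 ∨ j ≠ 0) → i • G + j • H ≠ 0 := by
    intro i j hij h0
    have := ho i j
    rw [h0] at this
    have h' : ι (C ((i : R) + j * σ)) = 0 := this
    have h'' : C ((i : R) + j * σ) = 0 := by apply hι; rw [h', map_zero]
    exact hσ i j hij (C_eq_zero.1 h'')
  obtain ⟨N, D, mN, dN, dD, cc, x1, x2⟩ := lattice hι ht hΔ hdisc hG hH hGH hnz i j hij
  exact ⟨N, D, mN, dN, dD, cc, ode_of_rep hι ht hy h1 h2 h3 x1 (hnz i j hij) (ho i j), x2⟩

/-- A polynomial is coprime to `X - a` when its value at `a` is a unit. -/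
theorem coprime_X_sub_C {N : R[X]} {a : R} (h : IsUnit (N.eval a)) : IsCoprime N (X - C a) := by
  obtain ⟨u, hu⟩ := h
  obtain ⟨q, hq⟩ := X_sub_C_dvd_sub_C_eval (a := a) (p := N)
  refine ⟨C (↑u⁻¹ : R), -(C (↑u⁻¹ : R) * q), ?_⟩
  have e : C (↑u⁻¹ : R) * C (N.eval a) = 1 := by
    rw [← C_mul, ← hu, Units.inv_mul, C_1]
  linear_combination C (↑u⁻¹ : R) * hq + e

end Pool.Agent.H475R2
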