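import Pool.Agent.H475R2.F8
import Pool.Agent.H475R2.D11

/-!
The supercongruence for `64 ^ k` and discriminant `-11`.
-/

set_option autoImplicit false
set_option linter.unusedSectionVars false
set_option linter.unusedSimpArgs false
set_option linter.unusedVariables false

namespace Pool.Agent.H475R2

open Polynomial

variable {p : ℕ} [hp : Fact p.Prime]

theorem nt11_monic {R : Type*} [CommRing R] [Nontrivial R] (a b : R) :
    (X ^ 3 + C a * X ^ 2 + C b * X : R[X]).Monic ∧ (X ^ 3 + C a * X ^ 2 + C b * X : R[X]).natDegree = 3 := by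
  have h : (X ^ 3 + C a * X ^ 2 + C b * X : R[X]).natDegree = 3 := by
    have : (X ^ 3 + C a * X ^ 2 + C b * X : R[X]) = C 1 * X ^ 3 + C a * X ^ 2 + C b * X + C 0 := by simp
    rw [this]
    exact natDegree_cubic one_ne_zero
  refine ⟨?_, h⟩
  rw [Monic, leadingCoeff, h]
  simp only [coeff_add, coeff_C_mul, coeff_X_pow, coeff_X]
  norm_num

theorem split11 (hp5 : 5 ≤ p) (hp11 : p ≠ 11) {x y : ℤ} (hxy : 4 * (p : ℤ) = x ^ 2 + 11 * y ^ 2)
    {mi : ℤ_[p]} (hmi : 64 * mi = 1) :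
    (p : ℤ_[p]) ^ 2 ∣ (∑ k ∈ Finset.range p, ((u3 k : ℤ) : ℤ_[p]) * mi ^ k) -
      ((x ^ 2 - 2 * p : ℤ) : ℤ_[p]) := by
  have hpp := hp.out
  obtain ⟨v, hv⟩ := twelve_inv hp5
  obtain ⟨i, hi⟩ : ∃ i : ℤ, x = 2 * i + y := by
    have h1 : (x - y) % 2 = 0 := by
      have h2 : (x ^ 2 + 11 * y ^ 2) % 2 = 0 := by rw [← hxy]; omega
      rcases Int.emod_two_eq_zero_or_one x with hx | hx <;>
        rcases Int.emod_two_eq_zero_or_one y with hy | hy <;>
        simp [pow_two, Int.add_emod, Int.mul_emod, Int.sub_emod, hx, hy] at h2 ⊢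
    exact ⟨(x - y) / 2, by omega⟩
  have hn : nf 1 3 i y = p := by
    have : 4 * nf 1 3 i y = 4 * (p : ℤ) := by rw [hxy, hi]; unfold nf; ring
    linarith
  obtain ⟨σ, hσ, hpσ⟩ := exists_root (t := 1) (n := 3) hn (by
    intro hd
    have h0 : (4 * 3 - 1 ^ 2 : ℤ) = ((11 : ℕ) : ℤ) := by norm_num
    rw [h0] at hd
    have h1 : p ∣ 11 := by exact_mod_cast hd
    exact hp11 ((Nat.prime_dvd_prime_iff_eq hpp (by norm_num)).1 h1)) (by omega)
  push_cast at hσ
  rw [one_mul] at hσ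
  have uv : IsUnit v := IsUnit.of_mul_eq_one 12 (by linear_combination hv)
  have h1728 : 1728 * v ^ 3 = 1 := by linear_combination (144 * v ^ 2 + 12 * v + 1) * hv
  have he : IsUnit (5 - 2 * σ) := IsUnit.of_mul_eq_one ((3 + 2 * σ) * (64 * v ^ 3)) (by
    linear_combination h1728 - 4 * (64 * v ^ 3) * hσ)
  have he8 : IsUnit (8 - (5 - 2 * σ)) := IsUnit.of_mul_eq_one ((5 - 2 * σ) * (64 * v ^ 3)) (by
    linear_combination h1728 - 4 * (64 * v ^ 3) * hσ)
  have hσu : IsUnit σ := IsUnit.of_mul_eq_one ((1 - σ) * (4 * v)) (by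
    linear_combination hv - (4 * v) * hσ)
  have hsC : (C σ : ℤ_[p][X]) ^ 2 - C σ + 3 = 0 := by
    have := congrArg (C : ℤ_[p] → ℤ_[p][X]) hσ
    simp only [C_add, C_sub, C_pow, map_ofNat, C_0] at this
    exact this
  obtain ⟨m1, m2⟩ := nt11_monic (4 * (11 + σ) * v ^ 2) (16 * (16 - σ) * v ^ 4)
  have u9 : IsUnit (-2 - σ) := IsUnit.of_mul_eq_one (-(3 - σ) * (16 * v ^ 2)) (by
    linear_combination (12 * v + 1) * hv - (16 * v ^ 2) * hσ)
  have key := split3 (p := p) (v := v) (e := 5 - 2 * σ) (σ := σ) (t := 1) hp5 hv he he8 hσu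
    (by push_cast; rw [one_mul]; exact hσ) (by norm_num)
    (by
      have := id11_1 X (C σ) (C v) hsC
      unfold fP mP nP
      simp only [C_add, C_mul, C_sub, C_pow, map_ofNat, C_1] at this ⊢
      linear_combination this)
    (Nt := X ^ 3 + C (4 * (11 + σ) * v ^ 2) * X ^ 2 + C (16 * (16 - σ) * v ^ 4) * X)
    (Dt := C (-2 - σ) * (X + C (4 * (1 - σ) * v ^ 2)) ^ 2)
    m1
    (by rw [m2]; rfl)
    (by
      have h1 : (nf 1 3 1 (-1)).toNat = 3 := rfl
      rw [h1]
      refine lt_of_le_of_lt (natDegree_C_mul_le _ _) ?_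
      refine lt_of_le_of_lt natDegree_pow_le ?_
      rw [natDegree_X_add_C]
      norm_num)
    (by
      refine (isCoprime_mul_unit_left_right (isUnit_C.2 u9) _ _).2 (IsCoprime.pow_right ?_)
      have h1 : (X + C (4 * (1 - σ) * v ^ 2) : ℤ_[p][X]) = X - C (-(4 * (1 - σ) * v ^ 2)) := by
        rw [C_neg, sub_neg_eq_add]
      rw [h1]
      refine coprime_X_sub_C ?_
      simp only [eval_add, eval_mul, eval_pow, eval_X, eval_C]
      have h9 : (-(4 * (1 - σ) * v ^ 2)) ^ 3 + 4 * (11 + σ) * v ^ 2 * (-(4 * (1 - σ) * v ^ 2)) ^ 2 +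
          16 * (16 - σ) * v ^ 4 * (-(4 * (1 - σ) * v ^ 2)) = -v ^ 3 := by
        linear_combination (-v ^ 3) * h1728 + (64 * v ^ 6 * (2 * σ + 7)) * hσ
      rw [h9]
      exact (uv.pow 3).neg)
    (by simp)
    (by
      have := id11_3 X (C σ) (C v) hsC
      unfold fP mP nP
      simp only [C_add, C_mul, C_sub, C_pow, map_ofNat, C_1, C_neg] at this ⊢
      linear_combination this)
    hn hpσ
  have htgt : ((2 * i + 1 * y : ℤ) ^ 2 - 2 * p : ℤ_[p]) = ((x ^ 2 - 2 * p : ℤ) : ℤ_[p]) := by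
    rw [hi]
    push_cast; ring
  rw [htgt] at key
  refine split_final ?_ key
  have u64 : IsUnit (64 : ℤ_[p]) := IsUnit.of_mul_eq_one _ hmi
  apply u64.mul_left_cancel
  rw [hmi]
  linear_combination (1 - 64 * (5 - 2 * σ) ^ 2 * v ^ 3) * h1728 - (256 * v ^ 3) * hσ

theorem inert11 (hp5 : 5 ≤ p) (hd : legendreSym p (-11) = -1) {mi : ℤ_[p]} (hmi : 64 * mi = 1) :
    (p : ℤ_[p]) ^ 2 ∣ ∑ k ∈ Finset.range p, ((u3 k : ℤ) : ℤ_[p]) * mi ^ k := by
  have hpp := hp.out
  have hp2 : p ≠ 2 := by omega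
  obtain ⟨v, hv⟩ := twelve_inv hp5
  let K := AlgebraicClosure (ZMod p)
  have hK : CharP K p := charP_of_injective_algebraMap (algebraMap (ZMod p) K).injective p
  obtain ⟨w, hw⟩ : ∃ w : K, w ^ 2 = -11 := IsAlgClosed.exists_pow_nat_eq _ (by norm_num)
  have hw' : w ^ 2 = ((-11 : ℤ) : K) := by rw [hw]; push_cast; rfl
  have hwp : w ^ p = -w := frob_neg hp2 hd hw'
  have hwn : w ^ p ≠ w := frob_ne hp2 hd hw'
  set φ : ℤ_[p] →+* K := (algebraMap (ZMod p) K).comp PadicInt.toZMod with hφ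
  have hvK : 12 * φ v = 1 := by
    have := congrArg φ hv
    rw [map_mul, map_ofNat, map_one] at this
    exact this
  have hrp : (φ (6 * v)) ^ p = φ (6 * v) := padic_phi_frob K (6 * v)
  obtain ⟨r, hr⟩ : ∃ r : K, r = φ (6 * v) := ⟨_, rfl⟩
  rw [← hr] at hrp
  have h2r : 2 * r = 1 := by
    rw [hr, map_mul, map_ofNat]; linear_combination hvK
  obtain ⟨s, hs⟩ : ∃ s : K, s = (1 + w) * r := ⟨_, rfl⟩
  have hss : s ^ 2 - s + 3 = 0 := by
    rw [hs]; linear_combination r ^ 2 * hw + ((1 + w) * r - 3 * (2 * r + 1)) * h2r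
  have hsC : (C s : K[X]) ^ 2 - C s + 3 = 0 := by
    have := congrArg (C : K → K[X]) hss
    simp only [C_add, C_sub, C_pow, map_ofNat, C_0] at this
    exact this
  have hsp : s ^ p = (1 - w) * r := by
    rw [hs, mul_pow, add_pow_char, one_pow, hwp, hrp]; ring
  have r0 : r ≠ 0 := by
    rintro rfl
    rw [mul_zero] at h2r
    exact zero_ne_one h2r
  have hspn : s ^ p ≠ s := by
    rw [hsp, hs]
    intro h
    apply hwn
    rw [hwp]
    have h3 : (1 - w) = (1 + w) := mul_right_cancel₀ r0 h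
    linear_combination h3
  have v0 : φ v ≠ 0 := by
    intro h0
    rw [h0, mul_zero] at hvK
    exact zero_ne_one hvK
  have h2K : (2 : K) ≠ 0 := by
    intro h0
    have h12 : (12 : K) = 2 * 6 := by norm_num
    rw [h12, h0, zero_mul, zero_mul] at hvK
    exact zero_ne_one hvK
  have h3K : (3 : K) ≠ 0 := by
    intro h0
    have h12 : (12 : K) = 3 * 4 := by norm_num
    rw [h12, h0, zero_mul, zero_mul] at hvK
    exact zero_ne_one hvK
  have e0 : (5 - 2 * s) ≠ 0 := by
    intro h0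
    have h27 : (3 : K) ^ 3 = 0 := by linear_combination (3 + 2 * s) * h0 + 4 * hss
    exact h3K (pow_eq_zero_iff (by norm_num) |>.1 h27)
  have s1 : 1 - s ≠ 0 := by
    intro h0
    have : (3 : K) = 0 := by linear_combination hss + s * h0
    exact h3K this
  have s2 : -2 - s ≠ 0 := by
    intro h0
    have h27 : (3 : K) ^ 2 = 0 := by linear_combination (-(3 - s)) * h0 + hss
    exact h3K (pow_eq_zero_iff (by norm_num) |>.1 h27)
  have hmu : (1 - s) ^ p ≠ 1 - s := by
    rw [sub_pow_char, one_pow]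
    intro h
    apply hspn
    linear_combination -h
  have hT := inert3 (K := K) hp5 (v := φ v) (e := 5 - 2 * s) (σ := s) hvK e0
    (Nt := X ^ 3 + C (4 * (11 + s) * (φ v) ^ 2) * X ^ 2 + C (16 * (16 - s) * (φ v) ^ 4) * X)
    (Dt := C (-2 - s) * (X + C (4 * (1 - s) * (φ v) ^ 2)) ^ 2)
    (by
      simp only [coeff_add, coeff_C_mul, coeff_X_pow, coeff_X]
      norm_num)
    (by
      rw [coeff_zero_eq_eval_zero]
      simp only [eval_mul, eval_pow, eval_add, eval_X, eval_C, zero_add]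
      have h4K : (4 : K) ≠ 0 := by
        have h4 : (4 : K) = 2 * 2 := by norm_num
        rw [h4]; exact mul_ne_zero h2K h2K
      exact mul_ne_zero s2 (pow_ne_zero _ (mul_ne_zero (mul_ne_zero h4K s1) (pow_ne_zero _ v0))))
    s1 hmu
    (by
      have := id11_4 X (C s) (C (φ v)) hsC
      unfold fP
      have q2 : (C (2 : K) : K[X]) = 2 := map_ofNat C 2
      have q3 : (C (3 : K) : K[X]) = 3 := map_ofNat C 3
      have d1 : derivative (X ^ 3 + C (4 * (11 + s) * φ v ^ 2) * X ^ 2 + C (16 * (16 - s) * φ v ^ 4) * X : K[X]) =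
          3 * X ^ 2 + 2 * C (4 * (11 + s) * φ v ^ 2) * X + C (16 * (16 - s) * φ v ^ 4) := by
        simp only [derivative_add, derivative_mul, derivative_X_pow, derivative_C, derivative_X,
          Nat.cast_ofNat, q2, q3]
        ring
      have d2 : derivative (C (-2 - s) * (X + C (4 * (1 - s) * (φ v) ^ 2)) ^ 2 : K[X]) =
          C (-2 - s) * (2 * (X + C (4 * (1 - s) * (φ v) ^ 2))) := by
        rw [derivative_C_mul, derivative_pow]
        simp only [derivative_add, derivative_X, derivative_C, Nat.cast_ofNat, q2]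
        ring
      rw [d1, d2]
      simp only [C_add, C_mul, C_sub, C_pow, map_ofNat, C_1, C_neg] at this ⊢
      linear_combination this)
  have hu : s * s = φ (-3) + φ 1 * s := by
    rw [map_neg, map_ofNat, map_one]
    linear_combination hss
  refine descent φ (padic_phi K) hu (padic_phi_frob K) hspn (⟨40 * v ^ 3, -(16 * v ^ 3)⟩) mi ?_ ?_
  · have h1728 : 1728 * v ^ 3 = 1 := by linear_combination (144 * v ^ 2 + 12 * v + 1) * hv
    have u64 : IsUnit (64 : ℤ_[p]) := IsUnit.of_mul_eq_one _ hmi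
    ext
    · simp only [QuadraticAlgebra.re_mul, QuadraticAlgebra.im_mul, QuadraticAlgebra.re_sub,
        QuadraticAlgebra.im_sub, QuadraticAlgebra.re_one, QuadraticAlgebra.im_one,
        QuadraticAlgebra.re_ofNat, QuadraticAlgebra.im_ofNat, QuadraticAlgebra.re_C]
      apply u64.mul_left_cancel
      rw [hmi]
      linear_combination (1 - 832 * v ^ 3) * h1728
    · simp only [QuadraticAlgebra.re_mul, QuadraticAlgebra.im_mul, QuadraticAlgebra.re_sub,
        QuadraticAlgebra.im_sub, QuadraticAlgebra.re_one, QuadraticAlgebra.im_one,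
        QuadraticAlgebra.re_ofNat, QuadraticAlgebra.im_ofNat, QuadraticAlgebra.im_C]
      linear_combination (16 * v ^ 3) * h1728
  · have : qmap φ (-3) 1 s hu ⟨40 * v ^ 3, -(16 * v ^ 3)⟩ = 8 * (5 - 2 * s) * (φ v) ^ 3 := by
      show φ (40 * v ^ 3) + φ (-(16 * v ^ 3)) * s = _
      simp only [map_mul, map_neg, map_pow, map_ofNat]
      ring
    rw [this]
    exact hT

end Pool.Agent.H475R2
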