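import Pool.Agent.H475R2.F8

/-!
The supercongruence for `(-192) ^ k`: the curve with complex multiplication by cube roots of unity.
-/

set_option autoImplicit false
set_option linter.unusedSectionVars false
set_option linter.unusedSimpArgs false
set_option linter.unusedVariables false

namespace Pool.Agent.H475R2

open WeierstrassCurve Polynomial

/-- A criterion for a point to have order three. -/
theorem order3' {L : Type*} [Field L] [DecidableEq L] {a b c x0 y0 l : L} (ht : (2 : L) ≠ 0)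
    (hy : y0 ≠ 0) (hl : l * (2 * y0) = dfx a b x0) (hl2 : l ^ 2 = a + 3 * x0)
    (h : (EW a b c).Nonsingular x0 y0) :
    (3 : ℤ) • (Affine.Point.some x0 y0 h : (EW a b c).Point) = 0 := by
  obtain ⟨x3, y3, l', h3, e3, hl', hx3, hy3⟩ := add_self' ht h hy
  have hll : l' = l := by
    apply mul_right_cancel₀ (mul_ne_zero ht hy)
    rw [hl', hl]
  subst hll
  have hx0 : x3 = x0 := by rw [hx3]; linear_combination hl2
  have hy3' : y3 = -y0 := by rw [hy3, hx0]; ring
  obtain ⟨h', en⟩ := neg_some' h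
  have e4 : (Affine.Point.some x3 y3 h3 : (EW a b c).Point) = Affine.Point.some x0 (-y0) h' :=
    some_congr hx0 hy3'
  rw [e4, ← en] at e3
  have : (3 : ℤ) • (Affine.Point.some x0 y0 h : (EW a b c).Point) =
      (Affine.Point.some x0 y0 h + Affine.Point.some x0 y0 h) + Affine.Point.some x0 y0 h := by
    rw [show (3 : ℤ) = 1 + 1 + 1 by norm_num, add_smul, add_smul, one_smul]
  rw [this, e3]
  exact neg_add_cancel _

theorem coprime_unit {R : Type*} [CommRing R] {N D : R} (h : IsUnit D) : IsCoprime N D := by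
  obtain ⟨u, hu⟩ := h.exists_right_inv
  exact ⟨0, u, by linear_combination hu⟩

variable {p : ℕ} [hp : Fact p.Prime]

theorem split1 {v σ : ℤ_[p]} (hp5 : 5 ≤ p) (hv : 12 * v = 1) (hσ : σ ^ 2 - σ + 1 = 0) {i j : ℤ}
    (hn : nf 1 1 i (3 * j) = p) (hpσ : (p : ℤ_[p]) ∣ (i : ℤ_[p]) + (3 * j : ℤ) * σ) :
    (p : ℤ_[p]) ^ 2 ∣ T3 p (8 * 9 * v ^ 3) ^ 2 - ((2 * i + (1 : ℤ) * (3 * j : ℤ) : ℤ) ^ 2 - 2 * p : ℤ_[p]) := by
  classical
  have hpp := hp.out
  obtain ⟨L, iL, ι, y, d, hι, hy, h1, h2, h3, h4⟩ := exists_ff (36 * v ^ 2) (48 * 9 * v ^ 4)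
    (16 * 9 ^ 2 * v ^ 6)
  have uv : IsUnit v := IsUnit.of_mul_eq_one 12 (by linear_combination hv)
  have v0 : v ≠ 0 := uv.ne_zero
  have u9 : IsUnit (9 : ℤ_[p]) := IsUnit.of_mul_eq_one (16 * v ^ 2) (by
    linear_combination (12 * v + 1) * hv)
  have u8 : IsUnit (8 - 9 : ℤ_[p]) := IsUnit.of_mul_eq_one (-1) (by norm_num)
  have uσ : IsUnit σ := IsUnit.of_mul_eq_one (1 - σ) (by linear_combination -hσ)
  have uσ1 : IsUnit (σ - 1) := IsUnit.of_mul_eq_one (-σ) (by linear_combination -hσ)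
  have σ0 : σ ≠ 0 := uσ.ne_zero
  have hΔ := dsc_unit hv u9 u8
  have h2L : (2 : L) ≠ 0 := by
    have : ι (C (2 : ℤ_[p])) ≠ 0 := by
      rw [Ne, map_eq_zero_iff ι hι]
      exact C_ne_zero.2 two_ne_zero
    rwa [map_ofNat, map_ofNat] at this
  have hfP : X ^ 3 + C (36 * v ^ 2) * X ^ 2 + C (48 * 9 * v ^ 4) * X + C (16 * 9 ^ 2 * v ^ 6) = fP v 9 := rfl
  rw [hfP] at hy
  have fP0 : fP v (9 : ℤ_[p]) ≠ 0 := by
    intro h
    have := congrArg (fun g : ℤ_[p][X] => g.coeff 3) h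
    unfold fP at this
    simp only [coeff_add, coeff_C_mul, coeff_X_pow, coeff_X, coeff_C] at this
    norm_num at this
  have hy0 : y ≠ 0 := by
    intro h
    rw [h] at hy
    have : ι (fP v 9) = 0 := by rw [← hy]; ring
    rw [map_eq_zero_iff ι hι] at this
    exact fP0 this
  set x : L := ι X with hx
  set s : L := ι (C σ) with hs
  set w : L := ι (C v) with hw
  have hw12 : 12 * w = 1 := by
    have h' := congrArg (fun z => ι (C z)) hv
    simp only [C_mul (a := (12 : ℤ_[p])), map_mul ι, map_one, map_ofNat] at h'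
    exact h'
  have hss : s ^ 2 - s + 1 = 0 := by
    have h' := congrArg (fun z => ι (C z)) hσ
    simp only [C_add, C_sub, C_pow, map_add, map_sub, map_pow, map_one, map_zero] at h'
    exact h'
  have w0 : w ≠ 0 := by
    intro h; rw [h, mul_zero] at hw12; exact zero_ne_one hw12
  set A : L := ι (C (36 * v ^ 2)) with hA
  set B : L := ι (C (48 * 9 * v ^ 4)) with hB
  set G6 : L := ι (C (16 * 9 ^ 2 * v ^ 6)) with hG6
  have hA' : A = 36 * w ^ 2 := by
    rw [hA, hw]; simp only [C_mul, C_pow, map_mul, map_pow, map_ofNat]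
  have hB' : B = 432 * w ^ 4 := by
    rw [hB, hw]; simp only [C_mul, C_pow, map_mul, map_pow, map_ofNat]; ring
  have hG' : G6 = 1296 * w ^ 6 := by
    rw [hG6, hw]; simp only [C_mul, C_pow, map_mul, map_pow, map_ofNat]; ring
  have hf : ι (fP v 9) = x ^ 3 + A * x ^ 2 + B * x + G6 := by
    unfold fP
    simp only [map_add, map_mul ι, map_pow ι, hx, hA, hB, hG6]
  have hyf : y ^ 2 = x ^ 3 + A * x ^ 2 + B * x + G6 := by rw [hy, hf]
  have hGs : (EW A B G6).Nonsingular x y :=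
    (nonsing_iff h2L _ _).2 ⟨by rw [hyf]; rfl, Or.inl hy0⟩
  -- the point `H`
  have hB0 : B ≠ 0 := by
    rw [hB']
    have h432 : (432 : L) ≠ 0 := by
      have h12 : (12 : L) ≠ 0 := by
        intro h; rw [h, zero_mul] at hw12; exact zero_ne_one hw12
      have h3L : (3 : L) ≠ 0 := by
        intro h
        apply h12
        rw [show (12 : L) = 3 * 4 by norm_num, h, zero_mul]
      rw [show (432 : L) = 12 * 12 * 3 by norm_num]
      exact mul_ne_zero (mul_ne_zero h12 h12) h3L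
    exact mul_ne_zero h432 (pow_ne_zero _ w0)
  have hs0 : s ≠ 0 := by
    intro h; rw [h] at hss; norm_num at hss
  have h3L : (3 : L) ≠ 0 := by
    intro h
    rw [show (12 : L) = 3 * 4 by norm_num, h, zero_mul, zero_mul] at hw12
    exact zero_ne_one hw12
  have h12L : (12 : L) ≠ 0 := by
    intro h; rw [h, zero_mul] at hw12; exact zero_ne_one hw12
  have hs1 : s + 1 ≠ 0 := by
    intro h
    apply h3L
    linear_combination hss + (2 - s) * h
  obtain ⟨xH, hxH⟩ : ∃ xH : L, xH = -s * x - (s + 1) * (12 * w ^ 2) := ⟨_, rfl⟩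
  obtain ⟨x0, hx0⟩ : ∃ x0 : L, x0 = -(s + 1) * (12 * w ^ 2) := ⟨_, rfl⟩
  have hHs : (EW A B G6).Nonsingular xH (-y) := by
    refine (nonsing_iff h2L _ _).2 ⟨?_, Or.inl (neg_ne_zero.2 hy0)⟩
    unfold fx
    rw [neg_sq, hyf, hA', hB', hG', hxH]
    linear_combination ((s + 1) * (x + 12 * w ^ 2) ^ 3) * hss
  have hBG : B ^ 2 = G6 := by
    rw [hB', hG']
    linear_combination (1296 * w ^ 6 * (12 * w + 1)) * hw12
  have hG0s : (EW A B G6).Nonsingular 0 B :=
    (nonsing_iff h2L _ _).2 ⟨by unfold fx; rw [hBG]; ring, Or.inl hB0⟩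
  have hH0s : (EW A B G6).Nonsingular x0 (-B) := by
    refine (nonsing_iff h2L _ _).2 ⟨?_, Or.inl (neg_ne_zero.2 hB0)⟩
    unfold fx
    rw [neg_sq, hBG, hA', hB', hG', hx0]
    linear_combination ((s + 1) * (12 * w ^ 2) ^ 3) * hss
  have hd : Dn A B G6 d := dn_of h1 h2 h3
  have hxHι : xH = ι (C (-σ) * X - C ((σ + 1) * (12 * v ^ 2))) := by
    rw [hxH, hx, hs, hw]
    simp only [map_sub, map_mul ι, C_neg, map_neg, C_mul, C_add, C_pow, map_add, map_pow, map_ofNat,
      map_one]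
  have hdx : d xH = 2 * (-y) * s := by
    rw [hxHι, h3]
    have : derivative (C (-σ) * X - C ((σ + 1) * (12 * v ^ 2)) : ℤ_[p][X]) = C (-σ) := by simp
    rw [this, C_neg, map_neg]; ring
  have hdy : d (-y) = dfx A B xH * s := by
    rw [hd.neg, h4]
    have e1 : ι (3 * X ^ 2 + 2 * C (36 * v ^ 2) * X + C (48 * 9 * v ^ 4)) = 3 * x ^ 2 + 2 * A * x + B := by
      rw [hx, hA, hB]
      simp only [map_add, map_mul ι, map_pow ι, map_ofNat]
    rw [e1]
    unfold dfx
    rw [hA', hB', hxH]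
    linear_combination (-3 * (x + 12 * w ^ 2) ^ 2 * (s + 1)) * hss
  have hHo : Om d s (Affine.Point.some xH (-y) hHs : (EW A B G6).Point) := ⟨hdx, hdy⟩
  have hH : Rep ι (Affine.Point.some xH (-y) hHs : (EW A B G6).Point)
      (Affine.Point.some x0 (-B) hH0s : (EW A B G6).Point) (1 : ℤ).toNat := by
    refine ⟨X + C (12 * (2 - σ) * v ^ 2), C (σ - 1), monic_X_add_C _, natDegree_X_add_C _, ?_, ?_, ?_, ?_⟩
    · rw [natDegree_C]; decide
    · exact coprime_unit (isUnit_C.2 uσ1)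
    · show ι (X + C (12 * (2 - σ) * v ^ 2)) = xH * ι (C (σ - 1))
      rw [hxH]
      simp only [map_add, map_mul, map_sub, map_pow, map_ofNat, map_one]
      rw [← hx, ← hs, ← hw]
      linear_combination (x + 12 * w ^ 2) * hss
    · show ι (C (eval 0 (X + C (12 * (2 - σ) * v ^ 2)))) = x0 * ι (C (eval 0 (C (σ - 1))))
      rw [hx0, eval_add, eval_X, eval_C, eval_C, zero_add]
      simp only [map_add, map_mul, map_sub, map_pow, map_ofNat, map_one]
      rw [← hs, ← hw]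
      linear_combination (12 * w ^ 2) * hss
  have hX1 : x - xH ≠ 0 := by
    intro h
    have e1 : ι (X + C (12 * v ^ 2)) = x + 12 * w ^ 2 := by
      simp only [map_add, map_mul, map_pow, map_ofNat]
      rw [← hx, ← hw]
    have e2 : (s + 1) * ι (X + C (12 * v ^ 2)) = 0 := by
      rw [e1]; rw [hxH] at h; linear_combination h
    rcases mul_eq_zero.1 e2 with h5 | h5
    · exact hs1 h5
    · rw [map_eq_zero_iff ι hι] at h5
      exact (monic_X_add_C _).ne_zero h5
  have hX0 : (0 : L) - x0 ≠ 0 := by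
    rw [hx0, zero_sub, neg_mul, neg_neg]
    exact mul_ne_zero hs1 (mul_ne_zero h12L (pow_ne_zero _ w0))
  have h3G := order3 h2L hB0 rfl (by rw [hA']; linear_combination (12 * w + 1) * hw12) hG0s
  have h3H := order3' (l := -(6 * w * s ^ 2)) h2L (neg_ne_zero.2 hB0) (by
      unfold dfx; rw [hA', hB', hx0]
      linear_combination (432 * w ^ 4 * s ^ 2) * hw12) (by
      rw [hA', hx0]
      linear_combination (36 * w ^ 2 * (s ^ 2 + s)) * hss) hH0s
  have hGH : Rep ι ((Affine.Point.some x y hGs : (EW A B G6).Point) - Affine.Point.some xH (-y) hHs)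
      ((Affine.Point.some 0 B hG0s : (EW A B G6).Point) - Affine.Point.some x0 (-B) hH0s)
      (nf 1 1 1 (-1)).toNat := by
    refine ⟨X + C (12 * (1 + σ) * v ^ 2), C (-σ), monic_X_add_C _, natDegree_X_add_C _, ?_, ?_, ?_, ?_⟩
    · rw [natDegree_C]; decide
    · exact coprime_unit (isUnit_C.2 uσ.neg)
    · obtain ⟨h', en⟩ := neg_some' hHs
      obtain ⟨x3, y3, l, hh3, e3, hl, hx3, -⟩ := add_ne hGs h' (sub_ne_zero.1 hX1)
      rw [sub_eq_add_neg, en, e3]
      show ι (X + C (12 * (1 + σ) * v ^ 2)) = x3 * ι (C (-σ))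
      have hl0 : l = 0 := by
        rw [neg_neg, sub_self] at hl
        rcases mul_eq_zero.1 hl with h | h
        · exact h
        · exact absurd h hX1
      rw [hx3, hl0, hxH, hA']
      simp only [map_add, map_mul, map_sub, map_pow, map_ofNat, map_one, map_neg]
      rw [← hx, ← hs, ← hw]
      linear_combination (x + 12 * w ^ 2) * hss
    · obtain ⟨h', en⟩ := neg_some' hH0s
      obtain ⟨x3, y3, l, hh3, e3, hl, hx3, -⟩ := add_ne hG0s h' (sub_ne_zero.1 hX0)
      rw [sub_eq_add_neg, en, e3]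
      show ι (C (eval 0 (X + C (12 * (1 + σ) * v ^ 2)))) = x3 * ι (C (eval 0 (C (-σ))))
      have hl0 : l = 0 := by
        rw [neg_neg, sub_self] at hl
        rcases mul_eq_zero.1 hl with h | h
        · exact h
        · exact absurd h hX0
      rw [hx3, hl0, hx0, hA', eval_add, eval_X, eval_C, eval_C, zero_add]
      simp only [map_add, map_mul, map_sub, map_pow, map_ofNat, map_one, map_neg]
      rw [← hs, ← hw]
      linear_combination (12 * w ^ 2) * hss
  have h3i : ¬ (3 : ℤ) ∣ i := by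
    rintro ⟨k, rfl⟩
    unfold nf at hn
    have h3 : (3 : ℤ) ∣ p := ⟨3 * k ^ 2 + 3 * k * j + 3 * j ^ 2, by rw [← hn]; ring⟩
    have h4 : 3 ∣ p := by exact_mod_cast h3
    have := (Nat.prime_dvd_prime_iff_eq Nat.prime_three hpp).1 h4
    omega
  refine local_split hι hp5 (c := 8 * 9 * v ^ 3) ?_ ?_ ?_ ?_ hΔ hy h1 h2 h3 h4 (by push_cast; rw [one_mul]; exact hσ)
    (by norm_num) hGs rfl hG0s rfl hHo hH hGH hn hpσ ?_
  · linear_combination (12 * v + 1) * hv
  · linear_combination (8 * 9 * v ^ 3) * hv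
  · ring
  · have u8' : IsUnit (8 : ℤ_[p]) := by
      have u2 : IsUnit (2 : ℤ_[p]) := IsUnit.of_mul_eq_one (6 * v) (by linear_combination hv)
      have : (8 : ℤ_[p]) = 2 ^ 3 := by norm_num
      rw [this]; exact u2.pow 3
    exact (u8'.mul u9).mul (uv.pow 3)
  · have h0 : (3 * j : ℤ) • (Affine.Point.some x0 (-B) hH0s : (EW A B G6).Point) = 0 := by
      rw [mul_comm, mul_smul, h3H, smul_zero]
    rw [h0, add_zero]
    exact zsmul_pm h3G h3i

theorem split192 (hp5 : 5 ≤ p) {x y : ℤ} (hxy : 4 * (p : ℤ) = x ^ 2 + 27 * y ^ 2)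
    {mi : ℤ_[p]} (hmi : -192 * mi = 1) :
    (p : ℤ_[p]) ^ 2 ∣ (∑ k ∈ Finset.range p, ((u3 k : ℤ) : ℤ_[p]) * mi ^ k) -
      ((x ^ 2 - 2 * p : ℤ) : ℤ_[p]) := by
  have hpp := hp.out
  obtain ⟨v, hv⟩ := twelve_inv hp5
  obtain ⟨i, hi⟩ : ∃ i : ℤ, x = 2 * i + 3 * y := by
    have h1 : (x - y) % 2 = 0 := by
      have h2 : (x ^ 2 + 27 * y ^ 2) % 2 = 0 := by rw [← hxy]; omega
      rcases Int.emod_two_eq_zero_or_one x with hx | hx <;>
        rcases Int.emod_two_eq_zero_or_one y with hy | hy <;>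
        simp [pow_two, Int.add_emod, Int.mul_emod, Int.sub_emod, hx, hy] at h2 ⊢
    exact ⟨(x - 3 * y) / 2, by omega⟩
  have hn : nf 1 1 i (3 * y) = p := by
    have : 4 * nf 1 1 i (3 * y) = 4 * (p : ℤ) := by rw [hxy, hi]; unfold nf; ring
    linarith
  obtain ⟨σ, hσ, hpσ⟩ := exists_root (t := 1) (n := 1) hn (by
    intro hd
    have h0 : (4 * 1 - 1 ^ 2 : ℤ) = ((3 : ℕ) : ℤ) := by norm_num
    rw [h0] at hd
    have h1 : p ∣ 3 := by exact_mod_cast hd
    have := Nat.le_of_dvd (by norm_num) h1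
    omega) (by omega)
  push_cast at hσ
  rw [one_mul] at hσ
  have key := split1 hp5 hv hσ hn hpσ
  have htgt : ((2 * i + (1 : ℤ) * (3 * y : ℤ) : ℤ) ^ 2 - 2 * p : ℤ_[p]) = ((x ^ 2 - 2 * p : ℤ) : ℤ_[p]) := by
    rw [hi]
    push_cast; ring
  rw [htgt] at key
  refine split_final ?_ key
  have u192 : IsUnit (-192 : ℤ_[p]) := IsUnit.of_mul_eq_one _ hmi
  have h1728 : 1728 * v ^ 3 = 1 := by linear_combination (144 * v ^ 2 + 12 * v + 1) * hv
  apply u192.mul_left_cancel
  rw [hmi]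
  linear_combination (1 + 15552 * v ^ 3) * h1728

/-- The inert case: an elementary computation. -/
theorem inert192 (hp5 : 5 ≤ p) (h3 : p % 3 = 2) {mi : ℤ_[p]} (hmi : -192 * mi = 1) :
    (p : ℤ_[p]) ^ 2 ∣ ∑ k ∈ Finset.range p, ((u3 k : ℤ) : ℤ_[p]) * mi ^ k := by
  have hpp := hp.out
  obtain ⟨v, hv⟩ := twelve_inv hp5
  obtain ⟨h, hh⟩ := hpp.odd_of_ne_two (by omega)
  set r : ℤ_[p] →+* ZMod p := PadicInt.toZMod with hr
  have h1728 : 1728 * v ^ 3 = 1 := by linear_combination (144 * v ^ 2 + 12 * v + 1) * hv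
  obtain ⟨w, hw⟩ : ∃ w : ZMod p, w = r v := ⟨_, rfl⟩
  have hw12 : 12 * w = 1 := by
    rw [hw]
    have := congrArg r hv
    rw [map_mul, map_ofNat, map_one] at this
    exact this
  have hf : 4 * ((X + C w) ^ 3 - C (3 * w ^ 4)) = 4 * X ^ 3 + (X + C (72 * w ^ 3)) ^ 2 := by
    have hC : 12 * C w = 1 := by
      have := congrArg (C : ZMod p → (ZMod p)[X]) hw12
      rw [C_mul, map_ofNat, C_1] at this
      exact this
    simp only [C_mul, C_pow, map_ofNat]
    linear_combination (X ^ 2 - 12 * C w ^ 2 * X - C w ^ 3 -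
      3 * C w ^ 3 * (144 * C w ^ 2 + 12 * C w + 1)) * hC
  have hmid := mid_coeff hh hf
  have hz : (((X + C w) ^ 3 - C (3 * w ^ 4) : (ZMod p)[X]) ^ h).coeff (p - 1) = 0 := by
    rw [sub_eq_add_neg, ← C_neg, add_pow, finsetSum_coeff]
    apply Finset.sum_eq_zero
    intro j hj
    have hj' : j ≤ h := by simpa [Nat.lt_succ_iff] using hj
    rw [← pow_mul, ← C_pow, mul_assoc, ← C_eq_natCast, ← C_mul, coeff_mul_C, coeff_X_add_C_pow]
    have : ((Nat.choose (3 * j) (p - 1) : ℕ) : ZMod p) = 0 := by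
      rcases Nat.lt_or_ge (3 * j) (p - 1) with h1 | h1
      · rw [Nat.choose_eq_zero_of_lt h1]; simp
      · have h2 : p ≤ 3 * j := by omega
        rw [ZMod.natCast_eq_zero_iff]
        exact hpp.dvd_choose (by omega) (by omega) h2
    rw [this, mul_zero, zero_mul]
  rw [hz, mul_zero] at hmid
  have hT : (p : ℤ_[p]) ∣ T3 p (72 * v ^ 3) := by
    rw [← red_eq_zero, T3_eq, ← hr, map_sum]
    simp only [map_mul, map_pow, map_intCast, map_ofNat]
    rw [← hw]
    exact hmid.symm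
  have h2 : (p : ℤ_[p]) ^ 2 ∣ T3 p (72 * v ^ 3) ^ 2 - ((0 : ℤ) : ℤ_[p]) := by
    rw [Int.cast_zero, sub_zero]
    exact pow_dvd_pow_of_dvd hT 2
  have h4 := split_final (mi := mi) ?_ h2
  · rw [Int.cast_zero, sub_zero] at h4; exact h4
  · have u192 : IsUnit (-192 : ℤ_[p]) := IsUnit.of_mul_eq_one _ hmi
    apply u192.mul_left_cancel
    rw [hmi]
    linear_combination (1 + 15552 * v ^ 3) * h1728

end Pool.Agent.H475R2
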