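import Pool.Agent.H475R2.Fin
import Pool.Agent.H475R2.D8

/-!
The supercongruence for `8 ^ k`.
-/

set_option autoImplicit false
set_option linter.unusedSectionVars false
set_option linter.unusedSimpArgs false
set_option linter.unusedVariables false

namespace Pool.Agent.H475R2

open Polynomial

variable {p : ℕ} [hp : Fact p.Prime]

theorem twelve_inv (hp5 : 5 ≤ p) : ∃ v : ℤ_[p], 12 * v = 1 := by
  have h : IsUnit ((12 : ℤ) : ℤ_[p]) := by
    apply isUnit_intCast
    intro hd
    have h1 : p ∣ 12 := by exact_mod_cast hd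
    have hpp := hp.out
    have h2 : 12 = 2 * 2 * 3 := by norm_num
    rw [h2] at h1
    rcases (Nat.Prime.dvd_mul hpp).1 h1 with h3 | h3
    · rcases (Nat.Prime.dvd_mul hpp).1 h3 with h4 | h4 <;>
      · have := Nat.le_of_dvd (by norm_num) h4; omega
    · have := Nat.le_of_dvd (by norm_num) h3; omega
  obtain ⟨v, hv⟩ := h.exists_right_inv
  exact ⟨v, by push_cast at hv; exact hv⟩

theorem T3_eq (c : ℤ_[p]) : T3 p c = ∑ k ∈ Finset.range p, ((t3 k : ℤ) : ℤ_[p]) * c ^ k := by
  unfold T3 t3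
  push_cast
  rfl

/-- Combination of the split case with Clausen's formula. -/
theorem split_final {c mi : ℤ_[p]} {tgt : ℤ} (hmi : c * (1 - 27 * c) = mi)
    (h : (p : ℤ_[p]) ^ 2 ∣ T3 p c ^ 2 - tgt) :
    (p : ℤ_[p]) ^ 2 ∣ (∑ k ∈ Finset.range p, ((u3 k : ℤ) : ℤ_[p]) * mi ^ k) - tgt := by
  have h1 := clausen3 hp.out c
  rw [hmi, ← T3_eq] at h1
  have := dvd_add h1 h
  have e : (∑ k ∈ Finset.range p, ((u3 k : ℤ) : ℤ_[p]) * mi ^ k) - tgt =
    (∑ k ∈ Finset.range p, ((u3 k : ℤ) : ℤ_[p]) * mi ^ k) - T3 p c ^ 2 + (T3 p c ^ 2 - tgt) := by ring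
  rw [e]; exact this

theorem split8 (hp5 : 5 ≤ p) {x y : ℤ} (hxy : (p : ℤ) = x ^ 2 + 2 * y ^ 2) {mi : ℤ_[p]}
    (hmi : 8 * mi = 1) :
    (p : ℤ_[p]) ^ 2 ∣ (∑ k ∈ Finset.range p, ((u3 k : ℤ) : ℤ_[p]) * mi ^ k) -
      ((4 * x ^ 2 - 2 * p : ℤ) : ℤ_[p]) := by
  have hpp := hp.out
  obtain ⟨v, hv⟩ := twelve_inv hp5
  have hn : nf 2 3 (x - y) y = p := by rw [hxy]; unfold nf; ring
  obtain ⟨σ, hσ, hpσ⟩ := exists_root (t := 2) (n := 3) hn (by
    intro hd
    have h0 : (4 * 3 - 2 ^ 2 : ℤ) = ((8 : ℕ) : ℤ) := by norm_num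
    rw [h0] at hd
    have h1 : p ∣ 8 := by exact_mod_cast hd
    have h2 : 8 = 2 ^ 3 := by norm_num
    rw [h2] at h1
    have := Nat.le_of_dvd (by norm_num) (hpp.dvd_of_dvd_pow h1)
    omega) (by omega)
  push_cast at hσ
  obtain ⟨s, hs⟩ : ∃ s, s = 1 - σ := ⟨_, rfl⟩
  have hσs : σ = 1 - s := by rw [hs]; ring
  have hss : s ^ 2 + 2 = 0 := by rw [hs]; linear_combination hσ
  have uv : IsUnit v := IsUnit.of_mul_eq_one 12 (by linear_combination hv)
  have h216 : 216 * (8 * v ^ 3) = 1 := by linear_combination (144 * v ^ 2 + 12 * v + 1) * hv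
  have he : IsUnit (4 + 10 * s) := IsUnit.of_mul_eq_one ((4 - 10 * s) * (8 * v ^ 3)) (by
    linear_combination h216 - 100 * (8 * v ^ 3) * hss)
  have he8 : IsUnit (8 - (4 + 10 * s)) := IsUnit.of_mul_eq_one ((4 + 10 * s) * (8 * v ^ 3)) (by
    linear_combination h216 - 100 * (8 * v ^ 3) * hss)
  have hσu : IsUnit σ := IsUnit.of_mul_eq_one ((2 - σ) * (4 * v)) (by
    linear_combination hv - (4 * v) * hσ)
  have hsC : (C s : ℤ_[p][X]) ^ 2 + 2 = 0 := by
    have := congrArg (C : ℤ_[p] → ℤ_[p][X]) hss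
    simp only [C_add, C_pow, map_ofNat, C_0] at this
    exact this
  have key := split3 (p := p) (v := v) (e := 4 + 10 * s) (σ := σ) (t := 2) hp5 hv he he8 hσu
    (by push_cast; exact hσ) (by norm_num)
    (by
      have := id8_1 X (C s) (C v) hsC
      unfold fP mP nP
      rw [hσs]
      simp only [C_add, C_mul, C_sub, C_pow, map_ofNat, C_1] at this ⊢
      linear_combination this)
    (Nt := X ^ 2 + C (8 * (4 + s) * v ^ 2) * X) (Dt := C (-2) * X + C (8 * (1 - 2 * s) * v ^ 2))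
    (by
      have h1 : (X ^ 2 + C (8 * (4 + s) * v ^ 2) * X : ℤ_[p][X]) = C 1 * X ^ 2 + C (8 * (4 + s) * v ^ 2) * X + C 0 := by
        simp
      have h2 : (X ^ 2 + C (8 * (4 + s) * v ^ 2) * X : ℤ_[p][X]).natDegree = 2 := by
        rw [h1]; exact natDegree_quadratic one_ne_zero
      rw [Monic, leadingCoeff, h2]
      simp only [coeff_add, coeff_C_mul, coeff_X_pow, coeff_X]
      norm_num)
    (by
      have h1 : (X ^ 2 + C (8 * (4 + s) * v ^ 2) * X : ℤ_[p][X]) = C 1 * X ^ 2 + C (8 * (4 + s) * v ^ 2) * X + C 0 := by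
        simp
      rw [h1, natDegree_quadratic one_ne_zero]
      rfl)
    (lt_of_le_of_lt natDegree_linear_le (by unfold nf; decide))
    (by
      have h1 : (C (-2) * X + C (8 * (1 - 2 * s) * v ^ 2) : ℤ_[p][X]) =
          C (-2) * (X - C (4 * (1 - 2 * s) * v ^ 2)) := by
        simp only [C_mul, C_sub, C_neg, map_ofNat, C_1]; ring
      rw [h1]
      have u2 : IsUnit (-2 : ℤ_[p]) := IsUnit.of_mul_eq_one (-6 * v) (by linear_combination hv)
      refine (isCoprime_mul_unit_left_right (isUnit_C.2 u2) _ _).2 (coprime_X_sub_C ?_)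
      simp only [eval_add, eval_mul, eval_pow, eval_X, eval_C]
      have h9 : (4 * (1 - 2 * s) * v ^ 2) ^ 2 + 8 * (4 + s) * v ^ 2 * (4 * (1 - 2 * s) * v ^ 2) =
          (1 - 2 * s) * v ^ 2 := by
        linear_combination ((1 - 2 * s) * v ^ 2 * (12 * v + 1)) * hv
      rw [h9]
      have u12 : IsUnit (1 - 2 * s) := IsUnit.of_mul_eq_one ((1 + 2 * s) * (16 * v ^ 2)) (by
        linear_combination (12 * v + 1) * hv - (64 * v ^ 2) * hss)
      exact u12.mul (uv.pow 2))
    (by simp)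
    (by
      have := id8_3 X (C s) (C v) hsC
      unfold fP mP nP
      rw [hσs]
      simp only [C_add, C_mul, C_sub, C_pow, map_ofNat, C_1, C_neg] at this ⊢
      linear_combination this)
    hn hpσ
  have htgt : ((2 * (x - y) + 2 * y : ℤ) ^ 2 - 2 * p : ℤ_[p]) = ((4 * x ^ 2 - 2 * p : ℤ) : ℤ_[p]) := by
    push_cast; ring
  rw [htgt] at key
  refine split_final ?_ key
  have u8 : IsUnit (8 : ℤ_[p]) := IsUnit.of_mul_eq_one _ hmi
  apply u8.mul_left_cancel
  rw [hmi]
  linear_combination (1 - 8 * (4 + 10 * s) ^ 2 * v ^ 3) * h216 - (800 * v ^ 3) * hss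

theorem inert8 (hp5 : 5 ≤ p) (hd : legendreSym p (-2) = -1) {mi : ℤ_[p]} (hmi : 8 * mi = 1) :
    (p : ℤ_[p]) ^ 2 ∣ ∑ k ∈ Finset.range p, ((u3 k : ℤ) : ℤ_[p]) * mi ^ k := by
  have hpp := hp.out
  have hp2 : p ≠ 2 := by omega
  obtain ⟨v, hv⟩ := twelve_inv hp5
  let K := AlgebraicClosure (ZMod p)
  have hK : CharP K p := charP_of_injective_algebraMap (algebraMap (ZMod p) K).injective p
  obtain ⟨s, hs⟩ : ∃ s : K, s ^ 2 = -2 := IsAlgClosed.exists_pow_nat_eq _ (by norm_num)
  have hs' : s ^ 2 = ((-2 : ℤ) : K) := by rw [hs]; push_cast; rfl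
  have hsp : s ^ p = -s := frob_neg hp2 hd hs'
  have hsn : s ^ p ≠ s := frob_ne hp2 hd hs'
  have hss : s ^ 2 + 2 = 0 := by rw [hs]; ring
  have hsC : (C s : K[X]) ^ 2 + 2 = 0 := by
    have := congrArg (C : K → K[X]) hss
    simp only [C_add, C_pow, map_ofNat, C_0] at this
    exact this
  set φ : ℤ_[p] →+* K := (algebraMap (ZMod p) K).comp PadicInt.toZMod with hφ
  have hvK : 12 * φ v = 1 := by
    have := congrArg φ hv
    rw [map_mul, map_ofNat, map_one] at this
    exact this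
  have s0 : s ≠ 0 := by
    rintro rfl
    rw [zero_pow hpp.ne_zero] at hsn
    exact hsn rfl
  have h3K : (9 : K) ≠ 0 := by
    intro h0
    have h1 : ((3 : ℕ) : K) ≠ 0 := nat_ne (p := p) (by norm_num) (by omega)
    apply h1
    have h2 : (9 : K) = ((3 : ℕ) : K) ^ 2 := by norm_num
    rw [h2] at h0
    exact pow_eq_zero_iff (by norm_num) |>.1 h0
  have v0 : φ v ≠ 0 := by
    intro h0
    rw [h0, mul_zero] at hvK
    exact zero_ne_one hvK
  have h2K : (2 : K) ≠ 0 := by
    intro h0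
    have h12 : (12 : K) = 2 * 6 := by norm_num
    rw [h12, h0, zero_mul, zero_mul] at hvK
    exact zero_ne_one hvK
  have e0 : (4 + 10 * s) ≠ 0 := by
    intro h0
    have h216 : (216 : K) = 0 := by linear_combination (4 - 10 * s) * h0 + 100 * hss
    have : (1728 : K) * (φ v) ^ 3 = 1 := by linear_combination (144 * φ v ^ 2 + 12 * φ v + 1) * hvK
    have h8 : (1728 : K) = 8 * 216 := by norm_num
    rw [h8, h216, mul_zero, zero_mul] at this
    exact zero_ne_one this
  have hT := inert3 (K := K) hp5 (v := φ v) (e := 4 + 10 * s) (σ := 1 - s) hvK e0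
    (Nt := X ^ 2 + C (8 * (4 + s) * (φ v) ^ 2) * X) (Dt := C (-2) * X + C (8 * (1 - 2 * s) * (φ v) ^ 2))
    (by
      simp only [coeff_add, coeff_C_mul, coeff_X_pow, coeff_X]
      norm_num)
    (by
      simp only [coeff_add, coeff_C_mul, coeff_X, coeff_C]
      norm_num
      refine ⟨⟨?_, ?_⟩, v0⟩
      · intro h0
        apply h2K
        have h16 : (8 : K) = 2 ^ 3 := by norm_num
        rw [h16] at h0
        exact pow_eq_zero_iff (by norm_num) |>.1 h0
      · intro h0
        apply h3K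
        linear_combination (1 + 2 * s) * h0 + 4 * hss)
    (by rw [sub_sub_cancel]; exact s0)
    (by rw [sub_sub_cancel]; exact hsn)
    (by
      have := id8_4 X (C s) (C (φ v)) hsC
      unfold fP
      have d1 : derivative (X ^ 2 + C (8 * (4 + s) * φ v ^ 2) * X : K[X]) = 2 * X + C (8 * (4 + s) * φ v ^ 2) := by
        simp only [derivative_add, derivative_mul, derivative_X_pow, derivative_C, derivative_X]
        simp
        exact map_ofNat C 2
      have d2 : derivative (C (-2) * X + C (8 * (1 - 2 * s) * φ v ^ 2) : K[X]) = C (-2) := by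
        simp only [derivative_add, derivative_mul, derivative_C, derivative_X]
        simp
      rw [d1, d2, sub_sub_cancel]
      simp only [C_add, C_mul, C_sub, C_pow, map_ofNat, C_1, C_neg] at this ⊢
      linear_combination this)
  have hu : (1 - s) * (1 - s) = φ (-3) + φ 2 * (1 - s) := by
    rw [map_neg, map_ofNat, map_ofNat]
    linear_combination hss
  refine descent φ (padic_phi K) hu (padic_phi_frob K) ?_ (⟨112 * v ^ 3, -(80 * v ^ 3)⟩) mi ?_ ?_
  · rw [sub_pow_char, one_pow, hsp]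
    intro h
    apply hsn
    rw [hsp]
    linear_combination -h
  · have h216 : 216 * (8 * v ^ 3) = 1 := by linear_combination (144 * v ^ 2 + 12 * v + 1) * hv
    have u8 : IsUnit (8 : ℤ_[p]) := IsUnit.of_mul_eq_one _ hmi
    ext
    · simp only [QuadraticAlgebra.re_mul, QuadraticAlgebra.im_mul, QuadraticAlgebra.re_sub,
        QuadraticAlgebra.im_sub, QuadraticAlgebra.re_one, QuadraticAlgebra.im_one,
        QuadraticAlgebra.re_ofNat, QuadraticAlgebra.im_ofNat, QuadraticAlgebra.re_C]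
      apply u8.mul_left_cancel
      rw [hmi]
      linear_combination (1 + 832 * v ^ 3) * h216
    · simp only [QuadraticAlgebra.re_mul, QuadraticAlgebra.im_mul, QuadraticAlgebra.re_sub,
        QuadraticAlgebra.im_sub, QuadraticAlgebra.re_one, QuadraticAlgebra.im_one,
        QuadraticAlgebra.re_ofNat, QuadraticAlgebra.im_ofNat, QuadraticAlgebra.im_C]
      linear_combination (80 * v ^ 3) * h216
  · have : qmap φ (-3) 2 (1 - s) hu ⟨112 * v ^ 3, -(80 * v ^ 3)⟩ = 8 * (4 + 10 * s) * (φ v) ^ 3 := by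
      show φ (112 * v ^ 3) + φ (-(80 * v ^ 3)) * (1 - s) = _
      simp only [map_mul, map_neg, map_pow, map_ofNat]
      ring
    rw [this]
    exact hT

end Pool.Agent.H475R2
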