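import Pool.Agent.H475R2.In2

/-!
Common final steps: passage to rational numbers, Frobenius on square roots, the generic inert case.
-/

set_option autoImplicit false
set_option linter.unusedSectionVars false
set_option linter.unusedSimpArgs false
set_option linter.unusedVariables false

namespace Pool.Agent.H475R2

open Polynomial

/-- `S ≡ T (mod p ^ 2)` for rational numbers: the quotient of `S - T` by `p ^ 2` has denominator
prime to `p`. -/
def Cg (p : ℕ) (S T : ℚ) : Prop := ∃ r : ℚ, S - T = (p : ℚ) ^ 2 * r ∧ ¬ p ∣ r.den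

variable {p : ℕ} [hp : Fact p.Prime]

theorem to_rat {u : ℕ → ℤ} {m tgt : ℤ} (hm : ¬ (p : ℤ) ∣ m) {mi : ℤ_[p]} (hmi : (m : ℤ_[p]) * mi = 1)
    (h : (p : ℤ_[p]) ^ 2 ∣ (∑ k ∈ Finset.range p, ((u k : ℤ) : ℤ_[p]) * mi ^ k) - tgt) :
    Cg p (∑ k ∈ Finset.range p, (u k : ℚ) / (m : ℚ) ^ k) tgt := by
  have hpp := hp.out
  have hm0 : (m : ℚ) ≠ 0 := by
    intro h0
    apply hm
    have : m = 0 := by exact_mod_cast h0
    rw [this]; exact dvd_zero _
  set Z : ℤ := ∑ k ∈ Finset.range p, u k * m ^ (p - 1 - k) - tgt * m ^ (p - 1) with hZ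
  have h1 : (Z : ℤ_[p]) = (m : ℤ_[p]) ^ (p - 1) *
      ((∑ k ∈ Finset.range p, ((u k : ℤ) : ℤ_[p]) * mi ^ k) - tgt) := by
    rw [hZ]
    push_cast
    rw [mul_sub, Finset.mul_sum, mul_comm (tgt : ℤ_[p])]
    congr 1
    apply Finset.sum_congr rfl
    intro k hk
    rw [Finset.mem_range] at hk
    have h2 : (m : ℤ_[p]) ^ (p - 1) = (m : ℤ_[p]) ^ (p - 1 - k) * (m : ℤ_[p]) ^ k := by
      rw [← pow_add]; congr 1; omega
    have h3 : (m : ℤ_[p]) ^ k * mi ^ k = 1 := by rw [← mul_pow, hmi, one_pow]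
    rw [h2]
    linear_combination (-((u k : ℤ_[p]) * (m : ℤ_[p]) ^ (p - 1 - k))) * h3
  have h2 : (p : ℤ_[p]) ^ 2 ∣ (Z : ℤ_[p]) := by rw [h1]; exact h.mul_left _
  have h3 : (p ^ 2 : ℤ) ∣ Z := (PadicInt.pow_p_dvd_int_iff 2 Z).1 h2
  obtain ⟨W, hW⟩ := h3
  refine ⟨(W : ℚ) / ((m ^ (p - 1) : ℤ) : ℚ), ?_, ?_⟩
  · have hmp : (m : ℚ) ^ (p - 1) ≠ 0 := pow_ne_zero _ hm0
    have h4 : (Z : ℚ) = (p : ℚ) ^ 2 * W := by rw [hW]; push_cast; rfl
    have h5 : (Z : ℚ) = (m : ℚ) ^ (p - 1) * ((∑ k ∈ Finset.range p, (u k : ℚ) / (m : ℚ) ^ k) - tgt) := by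
      rw [hZ]
      push_cast
      rw [mul_sub, Finset.mul_sum, mul_comm (tgt : ℚ)]
      congr 1
      apply Finset.sum_congr rfl
      intro k hk
      rw [Finset.mem_range] at hk
      have h2 : (m : ℚ) ^ (p - 1) = (m : ℚ) ^ (p - 1 - k) * (m : ℚ) ^ k := by
        rw [← pow_add]; congr 1; omega
      have h3 : (m : ℚ) ^ k ≠ 0 := pow_ne_zero _ hm0
      rw [h2]
      field_simp
    push_cast
    rw [eq_comm, mul_div_assoc', ← h4, h5]
    field_simp
  · intro hd
    have h4 := Rat.den_dvd W (m ^ (p - 1))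
    rw [Rat.divInt_eq_div] at h4
    have h5 : (p : ℤ) ∣ m ^ (p - 1) := (Int.natCast_dvd_natCast.2 hd).trans h4
    exact hm (Int.Prime.dvd_pow' hpp h5)

/-- Frobenius on the square root of a non-residue. -/
theorem frob_neg {K : Type*} [Field K] [Algebra (ZMod p) K] (hp2 : p ≠ 2) {d : ℤ} (hd : legendreSym p d = -1)
    {s : K} (hs : s ^ 2 = d) : s ^ p = -s := by
  have h1 := legendreSym.eq_pow p d
  rw [hd] at h1
  have h2 := congrArg (algebraMap (ZMod p) K) h1
  simp only [map_pow, map_intCast] at h2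
  push_cast at h2
  have hodd := hp.out.odd_of_ne_two hp2
  obtain ⟨k, hk⟩ := hodd
  have h3 : p / 2 = k := by omega
  rw [h3, ← hs, ← pow_mul] at h2
  conv_lhs => rw [hk]
  rw [pow_succ, ← h2]
  ring

theorem frob_ne {K : Type*} [Field K] [Algebra (ZMod p) K] (hp2 : p ≠ 2) {d : ℤ} (hd : legendreSym p d = -1)
    {s : K} (hs : s ^ 2 = d) : s ^ p ≠ s := by
  rw [frob_neg hp2 hd hs]
  intro h
  have hc : CharP K p := charP_of_injective_algebraMap (algebraMap (ZMod p) K).injective p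
  have h2 : (2 : K) ≠ 0 := by
    have := nat_ne (p := p) (K := K) (m := 2) (by norm_num) (by
      have := hp.out.two_le; omega)
    exact_mod_cast this
  have h3 : s = 0 := by
    have : 2 * s = 0 := by linear_combination -h
    rcases mul_eq_zero.1 this with h | h
    · exact absurd h h2
    · exact h
  have h4 : ((d : ZMod p) : ZMod p) ≠ 0 := by
    intro h0
    have := (legendreSym.eq_zero_iff p d).2 h0
    rw [hd] at this
    norm_num at this
  apply h4
  apply (algebraMap (ZMod p) K).injective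
  rw [map_intCast, ← hs, h3, map_zero]
  ring

/-- The generic inert computation. -/
theorem inert3 {K : Type*} [Field K] [hK : CharP K p] (hp5 : 5 ≤ p) {v e σ : K} (hv : 12 * v = 1)
    (he : e ≠ 0) {Nt Dt : K[X]} (N0 : Nt.coeff 0 = 0) (D0 : Dt.coeff 0 ≠ 0) (hμ0 : 1 - σ ≠ 0)
    (hμ : (1 - σ) ^ p ≠ 1 - σ)
    (I4 : fP v e * (derivative Nt * Dt - Nt * derivative Dt) ^ 2 = C ((1 - σ) ^ 2) * Dt *
      (Nt ^ 3 + C (36 * v ^ 2) * Nt ^ 2 * Dt + C (48 * e * v ^ 4) * Nt * Dt ^ 2 +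
        C (16 * e ^ 2 * v ^ 6) * Dt ^ 3)) :
    ∑ k ∈ Finset.range p, ((t3 k : ℤ) : K) * (8 * e * v ^ 3) ^ k = 0 := by
  have hpp := hp.out
  obtain ⟨h, hh⟩ := hpp.odd_of_ne_two (by omega)
  have v0 : v ≠ 0 := by
    rintro rfl
    rw [mul_zero] at hv
    exact zero_ne_one hv
  have h2K : (2 : K) ≠ 0 := by
    intro h0
    have h12 : (12 : K) = 2 * 6 := by norm_num
    rw [h12, h0, zero_mul, zero_mul] at hv
    exact zero_ne_one hv
  have hf : 4 * fP v e = 4 * X ^ 3 + (X + C (8 * e * v ^ 3)) ^ 2 := by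
    unfold fP
    have hC : 12 * C v = 1 := by
      have := congrArg (C : K → K[X]) hv
      rw [C_mul, map_ofNat, C_1] at this
      exact this
    simp only [C_mul, C_pow, map_ofNat]
    linear_combination ((12 * C v + 1) * X ^ 2 + 16 * C e * C v ^ 3 * X) * hC
  have hmid := mid_coeff hh hf
  have hf0 : (fP v e).coeff 0 ≠ 0 := by
    unfold fP
    simp only [coeff_add, coeff_C_mul, coeff_X_pow, coeff_X, coeff_C]
    norm_num
    refine ⟨⟨?_, he⟩, v0⟩
    intro h0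
    apply h2K
    have h16 : (16 : K) = 2 ^ 4 := by norm_num
    rw [h16] at h0
    exact pow_eq_zero_iff (by norm_num) |>.1 h0
  have hz := inert_zero hh hf0 N0 D0 hμ0 hμ (fh := Nt ^ 3 + C (36 * v ^ 2) * Nt ^ 2 * Dt +
    C (48 * e * v ^ 4) * Nt * Dt ^ 2 + C (16 * e ^ 2 * v ^ 6) * Dt ^ 3) (by
      intro Q hQ
      unfold fP
      simp only [map_add, map_mul, map_pow, aeval_X, aeval_C]
      push_cast
      rw [← hQ]
      have hal : ∀ a : K, algebraMap K (PowerSeries K) a = PowerSeries.C a := fun a => rfl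
      simp only [hal]
      ring) I4
  rw [← hmid, hz, mul_zero]

theorem padic_phi (K : Type*) [Field K] [Algebra (ZMod p) K] (x : ℤ_[p])
    (h : ((algebraMap (ZMod p) K).comp PadicInt.toZMod) x = 0) : (p : ℤ_[p]) ∣ x := by
  rw [RingHom.comp_apply, map_eq_zero_iff _ (algebraMap (ZMod p) K).injective, red_eq_zero] at h
  exact h

theorem padic_phi_frob (K : Type*) [Field K] [Algebra (ZMod p) K] (x : ℤ_[p]) :
    (((algebraMap (ZMod p) K).comp PadicInt.toZMod) x) ^ p =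
      ((algebraMap (ZMod p) K).comp PadicInt.toZMod) x := by
  rw [RingHom.comp_apply, ← map_pow, ZMod.pow_card]

end Pool.Agent.H475R2
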