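import Pool.Agent.H475R2.K4
import Pool.Agent.H475R2.Cl2
import Mathlib.Algebra.QuadraticAlgebra.Basic

/-!
The inert case.
-/

set_option autoImplicit false
set_option linter.unusedSectionVars false
set_option linter.unusedSimpArgs false
set_option linter.unusedVariables false

namespace Pool.Agent.H475R2

section charp

variable {p : ℕ} [hp : Fact p.Prime] {K : Type*} [Field K] [hK : CharP K p]

include hp hK

theorem nat_ne {m : ℕ} (h0 : 0 < m) (h : m < p) : (m : K) ≠ 0 := by
  rw [Ne, CharP.cast_eq_zero_iff K p]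
  intro hd
  exact absurd (Nat.le_of_dvd h0 hd) (by omega)

theorem coeff_der (F : PowerSeries K) : PowerSeries.coeff (p - 1) (PowerSeries.derivative K F) = 0 := by
  rw [PowerSeries.coeff_derivative]
  have h1 : p - 1 + 1 = p := by have := hp.out.pos; omega
  have : ((p - 1 : ℕ) : K) + 1 = ((p - 1 + 1 : ℕ) : K) := by push_cast; ring
  rw [this, h1, CharP.cast_eq_zero, mul_zero]

open PowerSeries in
/-- The coefficients of `Q^m Q'`. -/
theorem coeff_pow_der (Q : PowerSeries K) (hQ : constantCoeff Q = 0) (m : ℕ) :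
    coeff (p - 1) (Q ^ m * d⁄dX K Q) = if m = p - 1 then (coeff 1 Q) ^ p else 0 := by
  have hpp := hp.out
  rcases lt_trichotomy m (p - 1) with h | h | h
  · rw [if_neg (by omega)]
    have h1 : d⁄dX K (Q ^ (m + 1)) = ((m + 1 : ℕ) : PowerSeries K) * (Q ^ m * d⁄dX K Q) := by
      rw [Derivation.leibniz_pow]
      simp only [Nat.add_sub_cancel, smul_eq_mul, nsmul_eq_mul]
    have h2 := coeff_der (p := p) (Q ^ (m + 1))
    have h3 : (PowerSeries.derivative K) (Q ^ (m + 1)) = d⁄dX K (Q ^ (m + 1)) := rfl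
    rw [h3, h1] at h2
    have h4 : ((m + 1 : ℕ) : PowerSeries K) = C ((m + 1 : ℕ) : K) := by rw [map_natCast]
    rw [h4, coeff_C_mul] at h2
    rcases mul_eq_zero.1 h2 with h5 | h5
    · exact absurd h5 (nat_ne (p := p) (by omega) (by omega))
    · exact h5
  · subst h
    rw [if_pos rfl]
    obtain ⟨E, hE⟩ := X_dvd_iff.2 hQ
    have h1 : coeff 1 Q = constantCoeff E := by
      rw [hE, ← zero_add 1, coeff_succ_X_mul, coeff_zero_eq_constantCoeff_apply]
    have h2 : constantCoeff (d⁄dX K Q) = coeff 1 Q := by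
      rw [← coeff_zero_eq_constantCoeff_apply, coeff_derivative]; simp
    have h3 : Q ^ (p - 1) * d⁄dX K Q = X ^ (p - 1) * (E ^ (p - 1) * d⁄dX K Q) := by
      conv_lhs => rw [show Q ^ (p - 1) = (X * E) ^ (p - 1) by rw [← hE]]
      ring
    rw [h3, coeff_X_pow_mul', if_pos le_rfl, Nat.sub_self, coeff_zero_eq_constantCoeff_apply, map_mul,
      map_pow, h2, ← h1, ← pow_succ]
    congr 1
    have := hpp.pos; omega
  · rw [if_neg (by omega)]
    obtain ⟨E, hE⟩ := X_dvd_iff.2 hQ
    have h3 : Q ^ m * d⁄dX K Q = X ^ m * (E ^ m * d⁄dX K Q) := by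
      conv_lhs => rw [show Q ^ m = (X * E) ^ m by rw [← hE]]
      ring
    rw [h3, coeff_X_pow_mul', if_neg (by omega)]

open PowerSeries in
theorem inert_zero {h : ℕ} (hh : p = 2 * h + 1) {f fh N D : Polynomial K} {μ : K} (f0 : f.coeff 0 ≠ 0)
    (N0 : N.coeff 0 = 0) (D0 : D.coeff 0 ≠ 0) (hμ0 : μ ≠ 0) (hμ : μ ^ p ≠ μ)
    (hfh : ∀ Q : PowerSeries K, Q * (D : PowerSeries K) = N →
      Polynomial.aeval Q f * (D : PowerSeries K) ^ 3 = (fh : PowerSeries K))
    (ode : f * (Polynomial.derivative N * D - N * Polynomial.derivative D) ^ 2 =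
      Polynomial.C (μ ^ 2) * D * fh) :
    (f ^ h).coeff (p - 1) = 0 := by
  have hpp := hp.out
  have uD : IsUnit (D : PowerSeries K) := by
    rw [PowerSeries.isUnit_iff_constantCoeff, Polynomial.constantCoeff_coe]
    exact IsUnit.mk0 _ D0
  obtain ⟨Di, hDi⟩ := uD.exists_right_inv
  set Q : PowerSeries K := (N : PowerSeries K) * Di with hQ
  have hQD : Q * (D : PowerSeries K) = N := by
    rw [hQ]; linear_combination (N : PowerSeries K) * hDi
  have hQ0 : constantCoeff Q = 0 := by
    rw [hQ, map_mul, Polynomial.constantCoeff_coe, N0, zero_mul]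
  have hγD := hfh Q hQD
  set γ : PowerSeries K := Polynomial.aeval Q f with hγ
  have hder : d⁄dX K Q * (D : PowerSeries K) ^ 2 =
      ((Polynomial.derivative N * D - N * Polynomial.derivative D : Polynomial K) :
        PowerSeries K) := by
    have e := congrArg (d⁄dX K) hQD
    rw [Derivation.leibniz, PowerSeries.derivative_coe, PowerSeries.derivative_coe] at e
    simp only [smul_eq_mul] at e
    push_cast
    rw [← e, ← hQD]
    ring
  have hode2 : (f : PowerSeries K) * (d⁄dX K Q) ^ 2 = C (μ ^ 2) * γ := by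
    have e := congrArg (fun f : Polynomial K => (f : PowerSeries K)) ode
    simp only [Polynomial.coe_mul, Polynomial.coe_pow] at e
    rw [← hder, ← hγD] at e
    have u4 : IsUnit ((D : PowerSeries K) ^ 4) := uD.pow 4
    apply u4.mul_left_cancel
    have : ((Polynomial.C (μ ^ 2) : Polynomial K) : PowerSeries K) = C (μ ^ 2) := Polynomial.coe_C _
    rw [this] at e
    linear_combination e
  have hq1 : (coeff 1 Q) ^ 2 = μ ^ 2 := by
    have e := congrArg (constantCoeff (R := K)) hode2
    have h2 : constantCoeff (d⁄dX K Q) = coeff 1 Q := by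
      rw [← coeff_zero_eq_constantCoeff_apply, coeff_derivative]; simp
    have h3 : constantCoeff γ = f.coeff 0 := by
      rw [hγ, Polynomial.aeval_eq_sum_range, map_sum, Finset.sum_range_succ']
      rw [Finset.sum_eq_zero]
      · simp
      · intro i _
        rw [Algebra.smul_def, map_mul, map_pow, hQ0]
        simp
    rw [RingHom.map_mul, RingHom.map_mul, RingHom.map_pow, Polynomial.constantCoeff_coe, h2, h3,
      constantCoeff_C] at e
    apply mul_left_cancel₀ f0
    linear_combination e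
  set q := coeff 1 Q with hq
  -- the `h`-th power
  have hpow : ((f ^ h : Polynomial K) : PowerSeries K) * (d⁄dX K Q) ^ (p - 1) =
      C (μ ^ (p - 1)) * Polynomial.aeval Q (f ^ h) := by
    have e := congrArg (fun z => z ^ h) hode2
    simp only [mul_pow, ← pow_mul] at e
    rw [← hγ.symm] at e
    have e1 : 2 * h = p - 1 := by omega
    rw [e1] at e
    push_cast
    rw [map_pow (Polynomial.aeval Q), ← hγ, e, map_pow, map_pow, ← pow_mul, e1]
  have : CharP (PowerSeries K) p := charP_of_injective_ringHom (PowerSeries.C_injective) p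
  have hL : coeff (p - 1) (((f ^ h : Polynomial K) : PowerSeries K) * (d⁄dX K Q) ^ p) =
      (f ^ h).coeff (p - 1) * q ^ p := by
    obtain ⟨E, hE⟩ : ∃ E, d⁄dX K Q = C q + X * E := by
      have : (X : PowerSeries K) ∣ d⁄dX K Q - C q := by
        rw [X_dvd_iff, map_sub, ← coeff_zero_eq_constantCoeff_apply, coeff_derivative, constantCoeff_C]
        simp [hq]
      obtain ⟨E, hE⟩ := this
      exact ⟨E, by linear_combination hE⟩
    rw [hE, add_pow_char, mul_pow, ← map_pow]
    have : ((f ^ h : Polynomial K) : PowerSeries K) * (C (q ^ p) + X ^ p * E ^ p) =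
      C (q ^ p) * ((f ^ h : Polynomial K) : PowerSeries K) +
        X ^ p * (((f ^ h : Polynomial K) : PowerSeries K) * E ^ p) := by ring
    rw [this, map_add, coeff_C_mul, coeff_X_pow_mul', if_neg (by have := hpp.pos; omega), add_zero,
      Polynomial.coeff_coe]
    ring
  have hR : coeff (p - 1) (C (μ ^ (p - 1)) * Polynomial.aeval Q (f ^ h) * d⁄dX K Q) =
      μ ^ (p - 1) * ((f ^ h).coeff (p - 1) * q ^ p) := by
    rw [mul_assoc, coeff_C_mul, Polynomial.aeval_eq_sum_range, Finset.sum_mul, map_sum]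
    congr 1
    have : ∀ m ∈ Finset.range ((f ^ h).natDegree + 1),
        coeff (p - 1) ((f ^ h).coeff m • Q ^ m * d⁄dX K Q) =
          if m = p - 1 then (f ^ h).coeff m * q ^ p else 0 := by
      intro m _
      rw [smul_mul_assoc, PowerSeries.coeff_smul, coeff_pow_der Q hQ0, smul_eq_mul]
      split_ifs
      · rfl
      · rw [mul_zero]
    rw [Finset.sum_congr rfl this, Finset.sum_ite_eq']
    split_ifs with h9
    · rfl
    · rw [Finset.mem_range, not_lt] at h9
      rw [Polynomial.coeff_eq_zero_of_natDegree_lt (by omega), zero_mul]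
  have hmain : (f ^ h).coeff (p - 1) * q ^ p = μ ^ (p - 1) * ((f ^ h).coeff (p - 1) * q ^ p) := by
    rw [← hR, ← hL, ← hpow]
    congr 1
    have e2 : (d⁄dX K Q) ^ p = (d⁄dX K Q) ^ (p - 1) * d⁄dX K Q := by
      rw [← pow_succ]; congr 1; have := hpp.pos; omega
    rw [e2]; ring
  have hq0 : q ≠ 0 := by
    intro h0
    rw [h0] at hq1
    apply hμ0
    have : μ ^ 2 = 0 := by rw [← hq1]; ring
    exact pow_eq_zero_iff (two_ne_zero) |>.1 this
  have hfin : (1 - μ ^ (p - 1)) * ((f ^ h).coeff (p - 1) * q ^ p) = 0 := by linear_combination hmain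
  rcases mul_eq_zero.1 hfin with h1 | h1
  · exfalso
    apply hμ
    have e2 : μ ^ p = μ ^ (p - 1) * μ := by
      rw [← pow_succ]; congr 1; have := hpp.pos; omega
    rw [e2]; linear_combination (-μ) * h1
  · rcases mul_eq_zero.1 h1 with h2 | h2
    · exact h2
    · exact absurd h2 (pow_ne_zero _ hq0)

end charp

end Pool.Agent.H475R2
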