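import Pool.Agent.H475R2.K5

/-!
The split case for curves with an endomorphism of degree three killing the marked point.
-/

set_option autoImplicit false
set_option linter.unusedSectionVars false
set_option linter.unusedSimpArgs false
set_option linter.unusedVariables false

namespace Pool.Agent.H475R2

open WeierstrassCurve Polynomial

section defs

variable {R : Type*} [CommRing R]

/-- the cubic -/
noncomputable def fP (v e : R) : R[X] :=
  X ^ 3 + C (36 * v ^ 2) * X ^ 2 + C (48 * e * v ^ 4) * X + C (16 * e ^ 2 * v ^ 6)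

/-- numerator of the abscissa -/
noncomputable def nP (v e σ : R) : R[X] :=
  X ^ 3 + C (12 * (1 - σ ^ 2) * v ^ 2) * X ^ 2 + C (96 * e * v ^ 4) * X + C (64 * e ^ 2 * v ^ 6)

/-- the ordinate factor -/
noncomputable def mP (v e : R) : R[X] := X ^ 3 - C (96 * e * v ^ 4) * X - C (128 * e ^ 2 * v ^ 6)

theorem nP_monic [Nontrivial R] (v e σ : R) : (nP v e σ).Monic ∧ (nP v e σ).natDegree = 3 := by
  have h : (nP v e σ).natDegree = 3 := by
    have : nP v e σ = C 1 * X ^ 3 + C (12 * (1 - σ ^ 2) * v ^ 2) * X ^ 2 + C (96 * e * v ^ 4) * X +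
      C (64 * e ^ 2 * v ^ 6) := by unfold nP; rw [C_1, one_mul]
    rw [this]
    exact natDegree_cubic one_ne_zero
  refine ⟨?_, h⟩
  rw [Monic, leadingCoeff, h]
  unfold nP
  simp only [coeff_add, coeff_C_mul, coeff_X_pow, coeff_X, coeff_C]
  norm_num

theorem nP_der (v e σ : R) : derivative (nP v e σ) * (C (σ ^ 2) * X ^ 2) -
    nP v e σ * derivative (C (σ ^ 2) * X ^ 2) = C (σ ^ 2) * X * mP v e := by
  have hh : C (128 * e ^ 2 * v ^ 6) = 2 * C (64 * e ^ 2 * v ^ 6) := by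
    rw [show 128 * e ^ 2 * v ^ 6 = 2 * (64 * e ^ 2 * v ^ 6) by ring, C_mul (a := (2 : R)), map_ofNat]
  unfold nP mP
  rw [hh]
  simp only [derivative_add, derivative_mul, derivative_X_pow, derivative_C, derivative_X,
    Nat.cast_ofNat]
  simp only [map_ofNat]
  ring

end defs

variable {p : ℕ} [hp : Fact p.Prime]

theorem dsc_unit {R : Type*} [CommRing R] {v e : R} (hv : 12 * v = 1) (he : IsUnit e)
    (he8 : IsUnit (8 - e)) :
    IsUnit (dsc (C (36 * v ^ 2)) (C (48 * e * v ^ 4)) (C (16 * e ^ 2 * v ^ 6)) : R[X]) := by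
  have h1 : dsc (C (36 * v ^ 2)) (C (48 * e * v ^ 4)) (C (16 * e ^ 2 * v ^ 6)) =
      C (12 ^ 3 * 2 ^ 6 * e ^ 3 * (8 - e) * v ^ 12) := by
    unfold dsc
    simp only [map_mul, map_pow, map_ofNat, map_sub]
    ring
  rw [h1]
  apply isUnit_C.2
  have u12 : IsUnit (12 : R) := IsUnit.of_mul_eq_one v hv
  have u2 : IsUnit (2 : R) := IsUnit.of_mul_eq_one (6 * v) (by linear_combination hv)
  have uv : IsUnit v := IsUnit.of_mul_eq_one 12 (by linear_combination hv)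
  exact ((((u12.pow 3).mul (u2.pow 6)).mul (he.pow 3)).mul he8).mul (uv.pow 12)

theorem split3 {v e σ : ℤ_[p]} {t : ℤ} (hp5 : 5 ≤ p) (hv : 12 * v = 1) (he : IsUnit e)
    (he8 : IsUnit (8 - e)) (hσu : IsUnit σ) (hσ : σ ^ 2 - t * σ + 3 = 0) (ht : t ^ 2 < 12)
    (I1 : fP v e * mP v e ^ 2 = nP v e σ ^ 3 + C (36 * v ^ 2) * nP v e σ ^ 2 * (C (σ ^ 2) * X ^ 2) +
      C (48 * e * v ^ 4) * nP v e σ * (C (σ ^ 2) * X ^ 2) ^ 2 +
        C (16 * e ^ 2 * v ^ 6) * (C (σ ^ 2) * X ^ 2) ^ 3)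
    {Nt Dt : ℤ_[p][X]} (mt : Nt.Monic) (dt : Nt.natDegree = (nf t 3 1 (-1)).toNat)
    (dDt : Dt.natDegree < (nf t 3 1 (-1)).toNat) (ct : IsCoprime Nt Dt) (t0 : Nt.eval 0 = 0)
    (I3 : fP v e * (C (σ ^ 3) * X ^ 3 + mP v e) ^ 2 * Dt =
      (C (σ ^ 2) * X ^ 2 * (Nt + (C (36 * v ^ 2) + X) * Dt) + nP v e σ * Dt) *
        (C (σ ^ 2) * X ^ 3 - nP v e σ) ^ 2) {i j : ℤ}
    (hn : nf t 3 i j = p) (hpσ : (p : ℤ_[p]) ∣ (i : ℤ_[p]) + j * σ) :
    (p : ℤ_[p]) ^ 2 ∣ T3 p (8 * e * v ^ 3) ^ 2 - ((2 * i + t * j : ℤ) ^ 2 - 2 * p : ℤ_[p]) := by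
  classical
  have hpp := hp.out
  obtain ⟨L, iL, ι, y, d, hι, hy, h1, h2, h3, h4⟩ := exists_ff (36 * v ^ 2) (48 * e * v ^ 4)
    (16 * e ^ 2 * v ^ 6)
  have uv : IsUnit v := IsUnit.of_mul_eq_one 12 (by linear_combination hv)
  have v0 : v ≠ 0 := uv.ne_zero
  have e0 : e ≠ 0 := he.ne_zero
  have σ0 : σ ≠ 0 := hσu.ne_zero
  have hΔ := dsc_unit hv he he8
  have h2L : (2 : L) ≠ 0 := by
    have : ι (C (2 : ℤ_[p])) ≠ 0 := by
      rw [Ne, map_eq_zero_iff ι hι]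
      exact C_ne_zero.2 two_ne_zero
    rwa [map_ofNat, map_ofNat] at this
  have hfP : X ^ 3 + C (36 * v ^ 2) * X ^ 2 + C (48 * e * v ^ 4) * X + C (16 * e ^ 2 * v ^ 6) = fP v e := rfl
  rw [hfP] at hy
  have fP0 : fP v e ≠ 0 := by
    intro h
    have := congrArg (fun g : ℤ_[p][X] => g.coeff 3) h
    unfold fP at this
    simp only [coeff_add, coeff_C_mul, coeff_X_pow, coeff_X, coeff_C] at this
    norm_num at this
  have mP0 : mP v e ≠ 0 := by
    intro h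
    have := congrArg (fun g : ℤ_[p][X] => g.coeff 3) h
    unfold mP at this
    simp only [coeff_sub, coeff_C_mul, coeff_X_pow, coeff_X, coeff_C] at this
    norm_num at this
  have hx0 : ι X ≠ 0 := by rw [Ne, map_eq_zero_iff ι hι]; exact X_ne_zero
  have hs0 : ι (C σ) ≠ 0 := by rw [Ne, map_eq_zero_iff ι hι]; exact C_ne_zero.2 σ0
  have hy0 : y ≠ 0 := by
    intro h
    rw [h] at hy
    have : ι (fP v e) = 0 := by rw [← hy]; ring
    rw [map_eq_zero_iff ι hι] at this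
    exact fP0 this
  have hM0 : ι (mP v e) ≠ 0 := by rw [Ne, map_eq_zero_iff ι hι]; exact mP0
  set x : L := ι X with hx
  set s : L := ι (C σ) with hs
  set M : L := ι (mP v e) with hM
  set Nn : L := ι (nP v e σ) with hNn
  set A : L := ι (C (36 * v ^ 2)) with hA
  set B : L := ι (C (48 * e * v ^ 4)) with hB
  set G6 : L := ι (C (16 * e ^ 2 * v ^ 6)) with hG6
  have hf : ι (fP v e) = x ^ 3 + A * x ^ 2 + B * x + G6 := by
    unfold fP
    simp only [map_add, map_mul ι, map_pow ι, hx, hA, hB, hG6]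
  have hDs : ι (C (σ ^ 2) * X ^ 2) = s ^ 2 * x ^ 2 := by
    rw [hs, hx, C_pow]; simp only [map_mul, map_pow]
  obtain ⟨xH, hxH⟩ : ∃ xH : L, Nn = xH * (s ^ 2 * x ^ 2) :=
    ⟨Nn / (s ^ 2 * x ^ 2), by field_simp⟩
  obtain ⟨yH, hyH⟩ : ∃ yH : L, y * M = yH * (s ^ 3 * x ^ 3) :=
    ⟨y * M / (s ^ 3 * x ^ 3), by field_simp⟩
  have hcurve : yH ^ 2 = fx A B G6 xH := by
    have e1 := congrArg ι I1
    simp only [map_add, map_mul ι, map_pow ι] at e1
    rw [← hA, ← hB, ← hG6, ← hM, ← hNn, ← hy] at e1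
    have e2 : ι (C (σ ^ 2)) = s ^ 2 := by rw [C_pow, map_pow]
    have e3 : (y * M) ^ 2 = (yH * (s ^ 3 * x ^ 3)) ^ 2 := by rw [hyH]
    have h6 : (s * x) ^ 6 ≠ 0 := pow_ne_zero _ (mul_ne_zero hs0 hx0)
    apply mul_left_cancel₀ h6
    unfold fx
    rw [e2, ← hx, hxH] at e1
    linear_combination e1 - e3
  have hyH0 : yH ≠ 0 := by
    intro h
    rw [h, zero_mul] at hyH
    exact mul_ne_zero hy0 hM0 hyH
  have hHs : (EW A B G6).Nonsingular xH yH := (nonsing_iff h2L _ _).2 ⟨hcurve, Or.inl hyH0⟩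
  have hGs : (EW A B G6).Nonsingular x y :=
    (nonsing_iff h2L _ _).2 ⟨by rw [hy, hf]; rfl, Or.inl hy0⟩
  have hd : Dn A B G6 d := dn_of h1 h2 h3
  -- the differential of `H`
  have hdx : d xH = 2 * yH * s := by
    have e1 := congrArg ι (nP_der v e σ)
    simp only [map_sub, map_mul ι] at e1
    have e5 := congrArg d hxH
    have e6 : s ^ 2 * x ^ 2 = ι (C (σ ^ 2) * X ^ 2) := hDs.symm
    rw [e6, h2, hNn, h3, h3] at e5
    have e2 : ι (C (σ ^ 2)) = s ^ 2 := by rw [C_pow, map_pow]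
    rw [hDs] at e5
    rw [map_pow ι, e2, ← hx, ← hNn, ← hM] at e1
    have h4' : (s ^ 4 * x ^ 4) ≠ 0 := mul_ne_zero (pow_ne_zero _ hs0) (pow_ne_zero _ hx0)
    apply mul_left_cancel₀ h4'
    linear_combination (-(s ^ 2 * x ^ 2)) * e5 + (2 * y) * e1 + (2 * s ^ 2 * x) * hyH +
      (2 * y * ι (derivative (C (σ ^ 2) * X ^ 2))) * hxH
  have hdy : d yH = dfx A B xH * s := by
    have e1 := congrArg d hcurve
    rw [hd.sq, hd.fxd, hdx] at e1
    apply mul_left_cancel₀ (mul_ne_zero h2L hyH0)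
    linear_combination e1
  have hHo : Om d s (Affine.Point.some xH yH hHs : (EW A B G6).Point) := ⟨hdx, hdy⟩
  -- representations
  have hH : Rep ι (Affine.Point.some xH yH hHs : (EW A B G6).Point) 0 (3 : ℤ).toNat := by
    obtain ⟨m1, m2⟩ := nP_monic v e σ
    refine ⟨nP v e σ, C (σ ^ 2) * X ^ 2, m1, m2, ?_, ?_, ?_, ?_⟩
    · exact lt_of_le_of_lt (natDegree_C_mul_X_pow_le _ _) (by decide)
    · have c1 : IsCoprime (nP v e σ) X := by
        have := coprime_X_sub_C (N := nP v e σ) (a := 0) (by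
          unfold nP
          simp only [eval_add, eval_mul, eval_pow, eval_X, eval_C]
          have : (0 : ℤ_[p]) ^ 3 + 12 * (1 - σ ^ 2) * v ^ 2 * 0 ^ 2 + 96 * e * v ^ 4 * 0 + 64 * e ^ 2 * v ^ 6 =
            2 ^ 6 * e ^ 2 * v ^ 6 := by ring
          rw [this]
          have u2 : IsUnit (2 : ℤ_[p]) := IsUnit.of_mul_eq_one (6 * v) (by linear_combination hv)
          exact ((u2.pow 6).mul (he.pow 2)).mul (uv.pow 6))
        rwa [C_0, sub_zero] at this
      exact (isCoprime_mul_unit_left_right (isUnit_C.2 (hσu.pow 2)) _ _).2 (c1.pow_right)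
    · show ι (nP v e σ) = xH * ι (C (σ ^ 2) * X ^ 2)
      rw [hDs]; exact hxH
    · show ι (C (eval 0 (C (σ ^ 2) * X ^ 2))) = 0
      simp
  have hX1 : x - xH ≠ 0 := by
    intro h
    have e1 : Nn = x * (s ^ 2 * x ^ 2) := by rw [hxH]; linear_combination (-(s ^ 2 * x ^ 2)) * h
    have e2 : ι (nP v e σ) = ι (C (σ ^ 2) * X ^ 3) := by
      have : ι (C (σ ^ 2) * X ^ 3) = s ^ 2 * x ^ 3 := by
        rw [hs, hx, C_pow]; simp only [map_mul, map_pow]
      rw [this, ← hNn, e1]; ring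
    have e3 := hι e2
    have e4 := congrArg (fun g : ℤ_[p][X] => g.coeff 0) e3
    unfold nP at e4
    simp only [coeff_add, coeff_C_mul, coeff_X_pow, coeff_X, coeff_C] at e4
    norm_num at e4
    rcases e4 with h | h
    · exact e0 h
    · exact v0 h
  -- the marked point
  have hB0 : B ≠ 0 := by
    rw [hB, Ne, map_eq_zero_iff ι hι]
    apply C_ne_zero.2
    have u48 : IsUnit (48 : ℤ_[p]) := IsUnit.of_mul_eq_one (3 * v * v) (by
      linear_combination (12 * v + 1) * hv)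
    exact ((u48.mul he).mul (uv.pow 4)).ne_zero
  have hBG : B ^ 2 = G6 := by
    rw [hB, hG6, ← map_pow, ← C_pow]
    congr 2
    linear_combination (16 * e ^ 2 * v ^ 6 * (12 * v + 1)) * hv
  have hG0s : (EW A B G6).Nonsingular 0 B :=
    (nonsing_iff h2L _ _).2 ⟨by unfold fx; rw [hBG]; ring, Or.inl hB0⟩
  have hA4 : 4 * A = 1 := by
    have : 4 * (36 * v ^ 2) = 1 := by linear_combination (12 * v + 1) * hv
    have h' := congrArg (fun z => ι (C z)) this
    simp only [C_mul (a := (4 : ℤ_[p])), map_mul ι, map_one, map_ofNat] at h'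
    exact h'
  have h3G := order3 h2L hB0 rfl hA4 hG0s
  have hGH : Rep ι ((Affine.Point.some x y hGs : (EW A B G6).Point) - Affine.Point.some xH yH hHs)
      ((Affine.Point.some 0 B hG0s : (EW A B G6).Point) - 0) (nf t 3 1 (-1)).toNat := by
    refine ⟨Nt, Dt, mt, dt, dDt, ct, ?_, ?_⟩
    · obtain ⟨h', en⟩ := neg_some' hHs
      obtain ⟨x3, y3, l, hh3, e3, hl, hx3, -⟩ := add_ne hGs h' (sub_ne_zero.1 hX1)
      rw [sub_eq_add_neg, en, e3]
      show ι Nt = x3 * ι Dt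
      have e1 := congrArg ι I3
      simp only [map_add, map_mul ι, map_pow ι, map_sub] at e1
      rw [← hy, ← hM, ← hA, ← hNn, ← hx] at e1
      have q2 : ι (C (σ ^ 2)) = s ^ 2 := by rw [C_pow, map_pow]
      have q3 : ι (C (σ ^ 3)) = s ^ 3 := by rw [C_pow, map_pow]
      rw [q2, q3] at e1
      have h6 : s ^ 6 * x ^ 6 * (x - xH) ^ 2 ≠ 0 :=
        mul_ne_zero (mul_ne_zero (pow_ne_zero _ hs0) (pow_ne_zero _ hx0)) (pow_ne_zero _ hX1)
      apply mul_left_cancel₀ h6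
      have k1 : y * (s ^ 3 * x ^ 3 + M) = s ^ 3 * x ^ 3 * (y + yH) := by linear_combination hyH
      have k2 : y ^ 2 * (s ^ 3 * x ^ 3 + M) ^ 2 = s ^ 6 * x ^ 6 * (l * (x - xH)) ^ 2 := by
        have : y ^ 2 * (s ^ 3 * x ^ 3 + M) ^ 2 = (y * (s ^ 3 * x ^ 3 + M)) ^ 2 := by ring
        rw [this, k1, hl]; ring
      rw [k2, hxH] at e1
      rw [hx3]
      linear_combination -e1
    · show ι (C (Nt.eval 0)) = 0 * ι (C (Dt.eval 0))
      rw [t0, C_0, map_zero, zero_mul]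
  have h3i : ¬ (3 : ℤ) ∣ i := by
    rintro ⟨k, rfl⟩
    unfold nf at hn
    have h3 : (3 : ℤ) ∣ p := ⟨3 * k ^ 2 + t * k * j + j ^ 2, by rw [← hn]; ring⟩
    have h4 : 3 ∣ p := by exact_mod_cast h3
    have := (Nat.prime_dvd_prime_iff_eq Nat.prime_three hpp).1 h4
    omega
  refine local_split hι hp5 (c := 8 * e * v ^ 3) ?_ ?_ ?_ ?_ hΔ hy h1 h2 h3 h4 (by push_cast; exact hσ) (by linarith) hGs rfl
    hG0s rfl hHo hH hGH hn hpσ ?_
  · linear_combination (12 * v + 1) * hv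
  · linear_combination (8 * e * v ^ 3) * hv
  · ring
  · have u8 : IsUnit (8 : ℤ_[p]) := by
      have u2 : IsUnit (2 : ℤ_[p]) := IsUnit.of_mul_eq_one (6 * v) (by linear_combination hv)
      have : (8 : ℤ_[p]) = 2 ^ 3 := by norm_num
      rw [this]; exact u2.pow 3
    exact (u8.mul he).mul (uv.pow 3)
  · rw [smul_zero, add_zero]
    exact zsmul_pm h3G h3i

end Pool.Agent.H475R2
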