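import Pool.Agent.H475R2.In
import Pool.Agent.H475R2.S3

/-!
The inert case: the truncated sum vanishes modulo `p`.
-/

set_option autoImplicit false
set_option linter.unusedSectionVars false
set_option linter.unusedSimpArgs false
set_option linter.unusedVariables false

namespace Pool.Agent.H475R2

open Polynomial

section charp

variable {p : ℕ} [hp : Fact p.Prime] {K : Type*} [Field K] [hK : CharP K p]

include hp hK

theorem cong1 {h : ℕ} (hh : p = 2 * h + 1) (j : ℕ) (hj : j ≤ h) :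
    (4 : K) ^ j * (Nat.choose h j : ℕ) = (-1) ^ j * (Nat.choose (2 * j) j : ℕ) := by
  induction j with
  | zero => simp
  | succ j ih =>
    have ih' := ih (by omega)
    have hj1 : ((j + 1 : ℕ) : K) ≠ 0 := nat_ne (p := p) (by omega) (by omega)
    have h1 := congrArg (fun x : ℕ => (x : K)) (Nat.choose_succ_right_eq h j)
    have h2 := congrArg (fun x : ℤ => (x : K)) (ch2 j)
    have hp0 : (2 : K) * h + 1 = 0 := by
      have : ((2 * h + 1 : ℕ) : K) = 0 := by rw [← hh]; exact CharP.cast_eq_zero K p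
      push_cast at this; exact this
    push_cast [Nat.cast_sub (show j ≤ h by omega)] at h1 h2 hj1
    apply mul_right_cancel₀ hj1
    linear_combination (4 ^ (j + 1)) * h1 + 4 * (h - j : K) * ih' - (-1) ^ (j + 1) * h2 +
      2 * (-1) ^ j * (Nat.choose (2 * j) j : ℕ) * hp0

theorem cong2 (j : ℕ) (hj : 3 * j + 1 ≤ p) :
    ((Nat.choose (p - 1 - 2 * j) j : ℕ) : K) = (-1) ^ j * (Nat.choose (3 * j) j : ℕ) := by
  have hf : ((Nat.factorial j : ℕ) : K) ≠ 0 := by
    rw [Ne, CharP.cast_eq_zero_iff K p, hp.out.dvd_factorial]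
    omega
  have h1 : ((Nat.factorial j * Nat.choose (p - 1 - 2 * j) j : ℕ) : K) =
      (descPochhammer K j).eval ((p - 1 - 2 * j : ℕ) : K) := by
    rw [← Nat.descFactorial_eq_factorial_mul_choose, descPochhammer_eval_eq_descFactorial]
  have h2 : (((p - 1 - 2 * j : ℕ) : K)) = -((2 * j + 1 : ℕ) : K) := by
    have : ((p - 1 - 2 * j + (2 * j + 1) : ℕ) : K) = 0 := by
      rw [show p - 1 - 2 * j + (2 * j + 1) = p by omega]; exact CharP.cast_eq_zero K p
    rw [Nat.cast_add] at this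
    linear_combination this
  have h3 := ascPochhammer_eval_neg_eq_descPochhammer K (-((2 * j + 1 : ℕ) : K)) j
  rw [neg_neg, ascPochhammer_nat_eq_natCast_ascFactorial,
    Nat.ascFactorial_eq_factorial_mul_choose', show 2 * j + 1 + j - 1 = 3 * j by omega] at h3
  rw [h2] at h1
  have h4 : ((-1 : K) ^ j) * (-1) ^ j = 1 := by rw [← mul_pow]; norm_num
  apply mul_left_cancel₀ hf
  push_cast at h1 h3 ⊢
  linear_combination h1 - (-1 : K) ^ j * h3 + (-(descPochhammer K j).eval (-(2 * (j : K) + 1))) * h4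

/-- The middle coefficient. -/
theorem mid_coeff {h : ℕ} (hh : p = 2 * h + 1) {f : K[X]} {c : K} (hf : 4 * f = 4 * X ^ 3 + (X + C c) ^ 2) :
    (4 : K) ^ h * (f ^ h).coeff (p - 1) = ∑ k ∈ Finset.range p, ((t3 k : ℤ) : K) * c ^ k := by
  have h1 : (4 : K) ^ h * (f ^ h).coeff (p - 1) = ((4 * f) ^ h).coeff (p - 1) := by
    rw [mul_pow, show (4 : K[X]) ^ h = C ((4 : K) ^ h) by rw [map_pow, map_ofNat], coeff_C_mul]
  rw [h1, hf, add_pow, finsetSum_coeff]
  have h2 : ∀ j ∈ Finset.range (h + 1), ((4 * X ^ 3 : K[X]) ^ j * ((X + C c) ^ 2) ^ (h - j) *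
      ((Nat.choose h j : ℕ) : K[X])).coeff (p - 1) = ((t3 j : ℤ) : K) * c ^ j := by
    intro j hj
    have hj' : j ≤ h := by simpa [Nat.lt_succ_iff] using hj
    have e1 : (4 * X ^ 3 : K[X]) ^ j * ((X + C c) ^ 2) ^ (h - j) * ((Nat.choose h j : ℕ) : K[X]) =
        C ((4 : K) ^ j * (Nat.choose h j : ℕ)) * (X ^ (3 * j) * (X + C c) ^ (p - 1 - 2 * j)) := by
      rw [mul_pow, ← pow_mul, ← pow_mul, show 2 * (h - j) = p - 1 - 2 * j by omega, C_mul, C_pow,
        map_ofNat, map_natCast]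
      ring
    rw [e1, coeff_C_mul, coeff_X_pow_mul']
    split_ifs with h3
    · rw [coeff_X_add_C_pow, show p - 1 - 2 * j - (p - 1 - 3 * j) = j by omega]
      have e2 : Nat.choose (p - 1 - 2 * j) (p - 1 - 3 * j) = Nat.choose (p - 1 - 2 * j) j := by
        rw [← Nat.choose_symm (show j ≤ p - 1 - 2 * j by omega)]
        congr 1; omega
      rw [e2, cong1 hh j hj', cong2 j (by omega)]
      unfold t3
      have h4 : ((-1 : K) ^ j) * (-1) ^ j = 1 := by rw [← mul_pow]; norm_num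
      push_cast
      linear_combination ((Nat.choose (2 * j) j : ℕ) * (Nat.choose (3 * j) j : ℕ) * c ^ j) * h4
    · rw [mul_zero]
      have : ((t3 j : ℤ) : K) = 0 := by
        obtain ⟨m, hm⟩ := p_dvd_t3 hp.out (k := j) (by omega) (by omega)
        rw [hm]; push_cast
        rw [CharP.cast_eq_zero, zero_mul]
      rw [this, zero_mul]
  rw [Finset.sum_congr rfl h2]
  apply Finset.sum_subset
  · intro x hx; simp only [Finset.mem_range] at hx ⊢; omega
  · intro x hx hx'
    simp only [Finset.mem_range, not_lt] at hx hx'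
    have : ((t3 x : ℤ) : K) = 0 := by
      obtain ⟨m, hm⟩ := p_dvd_t3 hp.out (k := x) (by omega) (by omega)
      rw [hm]; push_cast
      rw [CharP.cast_eq_zero, zero_mul]
    rw [this, zero_mul]

end charp

/-- the ring homomorphism from a quadratic algebra determined by a root -/
def qmap {R K : Type*} [CommRing R] [CommRing K] (f : R →+* K) (a b : R) (u : K)
    (hu : u * u = f a + f b * u) : QuadraticAlgebra R a b →+* K where
  toFun z := f z.re + f z.im * u
  map_one' := by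
    rw [QuadraticAlgebra.re_one, QuadraticAlgebra.im_one]; simp
  map_mul' z w := by
    rw [QuadraticAlgebra.re_mul, QuadraticAlgebra.im_mul]
    simp only [map_add, map_mul]
    linear_combination (-(f z.im * f w.im)) * hu
  map_zero' := by
    rw [QuadraticAlgebra.re_zero, QuadraticAlgebra.im_zero]; simp
  map_add' z w := by
    rw [QuadraticAlgebra.re_add, QuadraticAlgebra.im_add]
    simp only [map_add]
    ring

variable {p : ℕ} [hp : Fact p.Prime]

/-- Descent from the quadratic extension. -/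
theorem descent {K : Type*} [Field K] [hK : CharP K p] (φ : ℤ_[p] →+* K)
    (hφ : ∀ x : ℤ_[p], φ x = 0 → (p : ℤ_[p]) ∣ x) {a b : ℤ_[p]} {u : K} (hu : u * u = φ a + φ b * u)
    (hfr : ∀ x : ℤ_[p], φ x ^ p = φ x) (hup : u ^ p ≠ u) (c : QuadraticAlgebra ℤ_[p] a b) (mi : ℤ_[p])
    (hmi : c * (1 - 27 * c) = QuadraticAlgebra.C mi)
    (hT : ∑ k ∈ Finset.range p, ((t3 k : ℤ) : K) * (qmap φ a b u hu c) ^ k = 0) :
    (p : ℤ_[p]) ^ 2 ∣ ∑ k ∈ Finset.range p, ((u3 k : ℤ) : ℤ_[p]) * mi ^ k := by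
  set z : QuadraticAlgebra ℤ_[p] a b := ∑ k ∈ Finset.range p, ((t3 k : ℤ) : QuadraticAlgebra ℤ_[p] a b) * c ^ k
    with hz
  have h1 : qmap φ a b u hu z = 0 := by
    rw [hz, map_sum]
    simp only [map_mul, map_pow, map_intCast]
    exact hT
  have h1' : φ z.re + φ z.im * u = 0 := h1
  have him : φ z.im = 0 := by
    have h2 : (φ z.re + φ z.im * u) ^ p = 0 := by rw [h1', zero_pow hp.out.ne_zero]
    rw [add_pow_char, mul_pow, hfr, hfr] at h2
    have h3 : φ z.im * (u ^ p - u) = 0 := by linear_combination h2 - h1'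
    rcases mul_eq_zero.1 h3 with h | h
    · exact h
    · exact absurd (sub_eq_zero.1 h) hup
  have hre : φ z.re = 0 := by rw [him, zero_mul, add_zero] at h1'; exact h1'
  obtain ⟨r1, hr1⟩ := hφ _ hre
  obtain ⟨r2, hr2⟩ := hφ _ him
  have hz' : z = (p : QuadraticAlgebra ℤ_[p] a b) * ⟨r1, r2⟩ := by
    ext
    · rw [QuadraticAlgebra.re_mul, QuadraticAlgebra.re_natCast, QuadraticAlgebra.im_natCast, hr1]
      ring
    · rw [QuadraticAlgebra.im_mul, QuadraticAlgebra.re_natCast, QuadraticAlgebra.im_natCast, hr2]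
      ring
  obtain ⟨w, hw⟩ := clausen3 hp.out c
  rw [hmi, ← hz, hz'] at hw
  have h5 : QuadraticAlgebra.C (∑ k ∈ Finset.range p, ((u3 k : ℤ) : ℤ_[p]) * mi ^ k) =
      (p : QuadraticAlgebra ℤ_[p] a b) ^ 2 * (w + (⟨r1, r2⟩ : QuadraticAlgebra ℤ_[p] a b) ^ 2) := by
    have e1 : (QuadraticAlgebra.C (∑ k ∈ Finset.range p, ((u3 k : ℤ) : ℤ_[p]) * mi ^ k) :
        QuadraticAlgebra ℤ_[p] a b) =
        ∑ k ∈ Finset.range p, ((u3 k : ℤ) : QuadraticAlgebra ℤ_[p] a b) * (QuadraticAlgebra.C mi) ^ k := by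
      have e2 : ∀ x : ℤ_[p], (QuadraticAlgebra.C x : QuadraticAlgebra ℤ_[p] a b) =
          algebraMap ℤ_[p] (QuadraticAlgebra ℤ_[p] a b) x := fun x => rfl
      simp only [e2, map_sum, map_mul, map_pow, map_intCast]
    rw [e1]
    linear_combination hw
  have h6 := congrArg QuadraticAlgebra.re h5
  rw [show (QuadraticAlgebra.C (∑ k ∈ Finset.range p, ((u3 k : ℤ) : ℤ_[p]) * mi ^ k) :
    QuadraticAlgebra ℤ_[p] a b).re = ∑ k ∈ Finset.range p, ((u3 k : ℤ) : ℤ_[p]) * mi ^ k from rfl] at h6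
  have h7 : (p : QuadraticAlgebra ℤ_[p] a b) ^ 2 = ((p ^ 2 : ℕ) : QuadraticAlgebra ℤ_[p] a b) := by
    push_cast; rfl
  rw [h7, QuadraticAlgebra.re_mul, QuadraticAlgebra.re_natCast, QuadraticAlgebra.im_natCast] at h6
  rw [h6]
  refine ⟨(w + (⟨r1, r2⟩ : QuadraticAlgebra ℤ_[p] a b) ^ 2).re, ?_⟩
  push_cast
  ring

end Pool.Agent.H475R2
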