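import Pool.Agent.H475R2.K2

/-!
The value modulo `p ^ 2` of the two coefficients of the invariant differential.
-/

set_option autoImplicit false
set_option linter.unusedSectionVars false
set_option linter.unusedSimpArgs false
set_option linter.unusedVariables false

namespace Pool.Agent.H475R2

variable {p : ℕ} [hp : Fact p.Prime]

open PowerSeries in
theorem key_ps {b c α π' : ℤ_[p]} (hp5 : 5 ≤ p) (hc : IsUnit c) (hπ : IsUnit π')
    (hα : α * π' = p) {N D N1 D1 : Polynomial ℤ_[p]}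
    (mN : N.Monic) (dN : N.natDegree = p) (dD : D.natDegree < p) (h0 : N.eval 0 = 0)
    (eN : N = Polynomial.X ^ p + Polynomial.C (p : ℤ_[p]) * N1)
    (eD : D = 1 + Polynomial.C (p : ℤ_[p]) * D1)
    (ode : gp b c * (Polynomial.derivative N * D - N * Polynomial.derivative D) ^ 2 =
      Polynomial.C α ^ 2 * D * gh b c N D)
    (W : PowerSeries ℤ_[p]) (hW : W ^ 2 * (gp b c : PowerSeries ℤ_[p]) = 1)
    (hW0 : constantCoeff W * c = 1) (hW1 : coeff 1 W * c ^ 2 = -1) :
    ∃ ε : ℤ_[p], (ε = 1 ∨ ε = -1) ∧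
      (p : ℤ_[p]) ^ 2 ∣ 2 * c ^ p * coeff (p - 1) W + c ^ (2 * p) * coeff (2 * p - 1) W - ε * π' := by
  have hpp := hp.out
  have hp0 : (p : ℤ_[p]) ≠ 0 := by exact_mod_cast hp.out.ne_zero
  have pz : p ≠ 0 := hpp.ne_zero
  -- degrees of N1, D1
  have dN1 : N1.natDegree < p := by
    have h1 : (N - Polynomial.X ^ p).degree < ((p : ℕ) : WithBot ℕ) := by
      have := Polynomial.degree_sub_lt_left (p := N) (q := Polynomial.X ^ p)
        (by rw [Polynomial.degree_X_pow, Polynomial.degree_eq_natDegree mN.ne_zero, dN])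
        mN.ne_zero (by rw [mN.leadingCoeff, Polynomial.leadingCoeff_X_pow])
      rwa [Polynomial.degree_eq_natDegree mN.ne_zero, dN] at this
    have h2 : N - Polynomial.X ^ p = Polynomial.C (p : ℤ_[p]) * N1 := by rw [eN]; ring
    rw [h2, Polynomial.degree_C_mul hp0] at h1
    rcases eq_or_ne N1 0 with h | h
    · rw [h, Polynomial.natDegree_zero]; exact hpp.pos
    · rw [Polynomial.degree_eq_natDegree h] at h1
      exact_mod_cast h1
  have dD1 : D1.natDegree < p := by
    have h2 : D - 1 = Polynomial.C (p : ℤ_[p]) * D1 := by rw [eD]; ring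
    have h3 : (D - 1).natDegree < p := by
      have := Polynomial.natDegree_sub_le D 1
      rw [Polynomial.natDegree_one, max_eq_left (Nat.zero_le _)] at this
      omega
    rwa [h2, Polynomial.natDegree_C_mul hp0] at h3
  -- the inverse of D
  have uD : IsUnit (D : PowerSeries ℤ_[p]) := by
    rw [PowerSeries.isUnit_iff_constantCoeff, Polynomial.constantCoeff_coe, eD,
      Polynomial.coeff_add, Polynomial.coeff_one_zero, Polynomial.coeff_C_mul]
    have : ¬ (p : ℤ_[p]) ∣ 1 + p * D1.coeff 0 := by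
      intro h
      have h1 : (p : ℤ_[p]) ∣ 1 := by
        have := dvd_sub h (dvd_mul_right (p : ℤ_[p]) (D1.coeff 0))
        simpa using this
      have := PadicInt.prime_p (p := p)
      exact this.not_isUnit (isUnit_of_dvd_one h1)
    rw [PadicInt.isUnit_iff]
    by_contra hne
    have hlt : ‖(1 + p * D1.coeff 0 : ℤ_[p])‖ < 1 := lt_of_le_of_ne (PadicInt.norm_le_one _) hne
    apply this
    rw [← red_eq_zero, ← RingHom.mem_ker, PadicInt.ker_toZMod, IsLocalRing.mem_maximalIdeal, PadicInt.mem_nonunits]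
    exact hlt
  obtain ⟨Di, hDi⟩ := uD.exists_right_inv
  set R0 : PowerSeries ℤ_[p] := (N : PowerSeries ℤ_[p]) * Di with hR0
  have hR0D : R0 * (D : PowerSeries ℤ_[p]) = N := by
    rw [hR0]; linear_combination (N : PowerSeries ℤ_[p]) * hDi
  set R1 : PowerSeries ℤ_[p] := ((N1 : PowerSeries ℤ_[p]) - X ^ p * (D1 : PowerSeries ℤ_[p])) * Di
    with hR1
  have cN : (N : PowerSeries ℤ_[p]) = X ^ p + C (p : ℤ_[p]) * (N1 : PowerSeries ℤ_[p]) := by
    rw [eN]; push_cast; rfl
  have cD : (D : PowerSeries ℤ_[p]) = 1 + C (p : ℤ_[p]) * (D1 : PowerSeries ℤ_[p]) := by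
    rw [eD]; push_cast; rfl
  have hRR : R0 = X ^ p + C (p : ℤ_[p]) * R1 := by
    rw [hR0, hR1, cN]
    rw [cD] at hDi
    linear_combination (X ^ p) * hDi
  have hN10 : N1.coeff 0 = 0 := by
    have e := congrArg (Polynomial.eval 0) eN
    rw [h0] at e
    simp only [Polynomial.eval_add, Polynomial.eval_pow, Polynomial.eval_X, Polynomial.eval_mul,
      Polynomial.eval_C] at e
    rw [zero_pow pz, zero_add] at e
    rcases mul_eq_zero.1 e.symm with h | h
    · exact absurd h hp0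
    · rwa [← Polynomial.coeff_zero_eq_eval_zero] at h
  have hR10 : constantCoeff R1 = 0 := by
    rw [hR1, map_mul, map_sub, map_mul, map_pow, constantCoeff_X, zero_pow pz, zero_mul, sub_zero,
      Polynomial.constantCoeff_coe, hN10, zero_mul]
  have h2p : (p : ℤ_[p]) ∣ coeff (2 * p) R1 := by
    have e : R1 = (N1 : PowerSeries ℤ_[p]) - X ^ p * (D1 : PowerSeries ℤ_[p]) -
        C (p : ℤ_[p]) * ((D1 : PowerSeries ℤ_[p]) * R1) := by
      rw [cD] at hDi
      rw [hR1]
      linear_combination ((N1 : PowerSeries ℤ_[p]) - X ^ p * (D1 : PowerSeries ℤ_[p])) * hDi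
    rw [e, map_sub, map_sub, coeff_C_mul, coeff_X_pow_mul', if_pos (by omega)]
    have e1 : coeff (2 * p) (N1 : PowerSeries ℤ_[p]) = 0 := by
      rw [Polynomial.coeff_coe]
      exact Polynomial.coeff_eq_zero_of_natDegree_lt (by omega)
    have e2 : coeff (2 * p - p) (D1 : PowerSeries ℤ_[p]) = 0 := by
      rw [Polynomial.coeff_coe]
      exact Polynomial.coeff_eq_zero_of_natDegree_lt (by omega)
    rw [e1, e2]
    exact ⟨-coeff (2 * p) ((D1 : PowerSeries ℤ_[p]) * R1), by ring⟩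
  -- the truncation of W
  set T : Polynomial ℤ_[p] := trunc (2 * p) W with hT
  have hTc : ∀ m, m < 2 * p → T.coeff m = coeff m W := by
    intro m hm
    rw [hT, coeff_trunc, if_pos hm]
  have hTW : (X : PowerSeries ℤ_[p]) ^ (2 * p) ∣ (T : PowerSeries ℤ_[p]) - W := by
    rw [X_pow_dvd_iff]
    intro m hm
    rw [map_sub, Polynomial.coeff_coe, hTc m hm, sub_self]
  have hTg : Polynomial.X ^ (2 * p) ∣ T ^ 2 * gp b c - 1 := by
    rw [Polynomial.X_pow_dvd_iff]
    intro m hm
    have : (X : PowerSeries ℤ_[p]) ^ (2 * p) ∣ ((T ^ 2 * gp b c - 1 : Polynomial ℤ_[p]) :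
        PowerSeries ℤ_[p]) := by
      obtain ⟨E, hE⟩ := hTW
      have e : (T : PowerSeries ℤ_[p]) = W + X ^ (2 * p) * E := by linear_combination hE
      refine ⟨(2 * W * E + X ^ (2 * p) * E ^ 2) * (gp b c : PowerSeries ℤ_[p]), ?_⟩
      push_cast
      rw [e]
      linear_combination hW
    have := (X_pow_dvd_iff.1 this) m hm
    rwa [Polynomial.coeff_coe] at this
  -- substitution
  set S : PowerSeries ℤ_[p] := Polynomial.aeval R0 T with hS
  have hR0X : (X : PowerSeries ℤ_[p]) ∣ R0 := by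
    rw [X_dvd_iff, hRR, map_add, map_mul, hR10, mul_zero, add_zero, map_pow, constantCoeff_X,
      zero_pow pz]
  have hSg : (X : PowerSeries ℤ_[p]) ^ (2 * p) ∣ S ^ 2 * Polynomial.aeval R0 (gp b c) - 1 := by
    obtain ⟨E, hE⟩ := hTg
    have := congrArg (Polynomial.aeval R0) hE
    simp only [map_sub, map_mul, map_pow, map_one, Polynomial.aeval_X] at this
    rw [← hS] at this
    rw [this]
    exact (pow_dvd_pow_of_dvd hR0X _).mul_right _
  set γ : PowerSeries ℤ_[p] := Polynomial.aeval R0 (gp b c) with hγ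
  have hγe : γ = 4 * R0 ^ 3 + C b * R0 ^ 2 + 2 * C c * R0 + C c ^ 2 := by
    rw [hγ]; unfold gp
    simp only [map_add, map_mul, map_pow, Polynomial.aeval_X, Polynomial.aeval_C, map_ofNat]
    rfl
  have hγD : γ * (D : PowerSeries ℤ_[p]) ^ 3 = ((gh b c N D : Polynomial ℤ_[p]) : PowerSeries ℤ_[p]) := by
    unfold gh
    push_cast
    have q4 : ((4 : Polynomial ℤ_[p]) : PowerSeries ℤ_[p]) = 4 :=
      map_ofNat (Polynomial.coeToPowerSeries.ringHom (R := ℤ_[p])) 4
    have q2 : ((2 : Polynomial ℤ_[p]) : PowerSeries ℤ_[p]) = 2 :=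
      map_ofNat (Polynomial.coeToPowerSeries.ringHom (R := ℤ_[p])) 2
    rw [← hR0D, hγe, q4, q2]
    ring
  have hder : d⁄dX ℤ_[p] R0 * (D : PowerSeries ℤ_[p]) ^ 2 =
      ((Polynomial.derivative N * D - N * Polynomial.derivative D : Polynomial ℤ_[p]) :
        PowerSeries ℤ_[p]) := by
    have e := congrArg (d⁄dX ℤ_[p]) hR0D
    rw [Derivation.leibniz, PowerSeries.derivative_coe, PowerSeries.derivative_coe] at e
    simp only [smul_eq_mul] at e
    push_cast
    rw [← e, ← hR0D]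
    ring
  have hode2 : (gp b c : PowerSeries ℤ_[p]) * (d⁄dX ℤ_[p] R0) ^ 2 = C α ^ 2 * γ := by
    have e := congrArg (fun f : Polynomial ℤ_[p] => (f : PowerSeries ℤ_[p])) ode
    simp only [Polynomial.coe_mul, Polynomial.coe_pow] at e
    rw [← hder, ← hγD] at e
    have u4 : IsUnit ((D : PowerSeries ℤ_[p]) ^ 4) := uD.pow 4
    apply u4.mul_left_cancel
    have : ((Polynomial.C α : Polynomial ℤ_[p]) : PowerSeries ℤ_[p]) = C α := by
      exact Polynomial.coe_C α
    rw [this] at e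
    linear_combination e
  -- the relation modulo X^(2p)
  have hrel : (X : PowerSeries ℤ_[p]) ^ (2 * p) ∣
      (gp b c : PowerSeries ℤ_[p]) * ((d⁄dX ℤ_[p] R0 * S) ^ 2 - (C α * (T : PowerSeries ℤ_[p])) ^ 2) := by
    have e1 : (X : PowerSeries ℤ_[p]) ^ (2 * p) ∣ C α ^ 2 * (S ^ 2 * γ - 1) := hSg.mul_left _
    have e2 : (X : PowerSeries ℤ_[p]) ^ (2 * p) ∣
        C α ^ 2 * ((T : PowerSeries ℤ_[p]) ^ 2 * (gp b c : PowerSeries ℤ_[p]) - 1) := by
      obtain ⟨E, hE⟩ := hTg
      have := congrArg (fun f : Polynomial ℤ_[p] => (f : PowerSeries ℤ_[p])) hE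
      simp only [Polynomial.coe_mul, Polynomial.coe_pow, Polynomial.coe_sub, Polynomial.coe_one,
        Polynomial.coe_X] at this
      rw [this]
      exact (dvd_mul_right _ _).mul_left _
    have := dvd_sub e1 e2
    have e3 : C α ^ 2 * (S ^ 2 * γ - 1) - C α ^ 2 * ((T : PowerSeries ℤ_[p]) ^ 2 *
        (gp b c : PowerSeries ℤ_[p]) - 1) = (gp b c : PowerSeries ℤ_[p]) * ((d⁄dX ℤ_[p] R0 * S) ^ 2
          - (C α * (T : PowerSeries ℤ_[p])) ^ 2) := by
      linear_combination (-S ^ 2) * hode2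
    rwa [e3] at this
  have ug : IsUnit (gp b c : PowerSeries ℤ_[p]) := IsUnit.of_mul_eq_one (W ^ 2) (by rw [mul_comm]; exact hW)
  have hrel2 : (X : PowerSeries ℤ_[p]) ^ (2 * p) ∣
      (d⁄dX ℤ_[p] R0 * S) ^ 2 - (C α * (T : PowerSeries ℤ_[p])) ^ 2 := (ug.dvd_mul_left).1 hrel
  have hα0 : α ≠ 0 := by
    rintro rfl
    rw [zero_mul] at hα
    exact hp0 hα.symm
  have hW00 : constantCoeff W ≠ 0 := by
    intro h
    rw [h, zero_mul] at hW0
    exact zero_ne_one hW0
  have hTc0 : constantCoeff (T : PowerSeries ℤ_[p]) = constantCoeff W := by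
    rw [Polynomial.constantCoeff_coe, hTc 0 (by have := hpp.pos; omega),
      coeff_zero_eq_constantCoeff_apply]
  have h2 : (2 : ℤ_[p]) ≠ 0 := two_ne_zero
  obtain ⟨ε, hε, hdiv⟩ : ∃ ε : ℤ_[p], (ε = 1 ∨ ε = -1) ∧
      (X : PowerSeries ℤ_[p]) ^ (2 * p) ∣ d⁄dX ℤ_[p] R0 * S - C ε * (C α * (T : PowerSeries ℤ_[p])) := by
    set u := d⁄dX ℤ_[p] R0 * S with hu
    set v := C α * (T : PowerSeries ℤ_[p]) with hv
    have hv0 : constantCoeff v ≠ 0 := by
      rw [hv, map_mul, hTc0]
      exact mul_ne_zero (by simpa using hα0) hW00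
    have hfac : (X : PowerSeries ℤ_[p]) ^ (2 * p) ∣ (u - v) * (u + v) := by
      have : (u - v) * (u + v) = u ^ 2 - v ^ 2 := by ring
      rw [this]; exact hrel2
    have hX := PowerSeries.X_prime (R := ℤ_[p])
    by_cases hxv : (X : PowerSeries ℤ_[p]) ∣ u - v
    · have hn : ¬ (X : PowerSeries ℤ_[p]) ∣ u + v := by
        intro h
        have h3 := dvd_sub h hxv
        have h4 : u + v - (u - v) = 2 * v := by ring
        rw [h4, X_dvd_iff, map_mul] at h3
        rcases mul_eq_zero.1 h3 with h5 | h5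
        · have h6 : constantCoeff (2 : PowerSeries ℤ_[p]) = 2 := map_ofNat _ 2
          rw [h6] at h5
          exact h2 h5
        · exact hv0 h5
      refine ⟨1, Or.inl rfl, ?_⟩
      rw [map_one, one_mul]
      exact hX.pow_dvd_of_dvd_mul_right _ hn hfac
    · refine ⟨-1, Or.inr rfl, ?_⟩
      have e : u - C (-1 : ℤ_[p]) * v = u + v := by rw [map_neg, map_one]; ring
      rw [e]
      exact hX.pow_dvd_of_dvd_mul_left _ hxv hfac
  -- coefficients
  have hco : ∀ m, m < 2 * p → ∑ n ∈ Finset.range (2 * p),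
      coeff n W * coeff m (d⁄dX ℤ_[p] R0 * R0 ^ n) = ε * (α * coeff m W) := by
    intro m hm
    have e1 := (X_pow_dvd_iff.1 hdiv) m hm
    rw [map_sub, coeff_C_mul, coeff_C_mul, Polynomial.coeff_coe, hTc m hm] at e1
    have e2 : S = ∑ n ∈ Finset.range (2 * p), C (coeff n W) * R0 ^ n := by
      rw [hS, Polynomial.aeval_eq_sum_range' (n := 2 * p)]
      · apply Finset.sum_congr rfl
        intro n hn
        rw [hTc n (Finset.mem_range.1 hn), Algebra.smul_def]
        rfl
      · have h9 := natDegree_trunc_lt W (2 * p - 1)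
        have h10 : 2 * p - 1 + 1 = 2 * p := by have := hpp.pos; omega
        rw [h10] at h9
        rw [hT]
        exact h9
    rw [e2, Finset.mul_sum, map_sum] at e1
    rw [← sub_eq_zero, ← e1]
    congr 1
    apply Finset.sum_congr rfl
    intro n _
    rw [← coeff_C_mul]
    congr 1
    ring
  set r := coeff p R0 with hr
  have E1 : (p : ℤ_[p]) ^ 3 ∣ ε * (α * coeff (p - 1) W) - constantCoeff W * (p * r) := by
    rw [← hco (p - 1) (by omega)]
    have hsplit : Finset.range (2 * p) = insert 0 ((Finset.range (2 * p)).erase 0) := by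
      rw [Finset.insert_erase]; simp; exact hpp.pos
    rw [hsplit, Finset.sum_insert (by simp)]
    have e0 : coeff (p - 1) (d⁄dX ℤ_[p] R0 * R0 ^ 0) = p * r := by
      rw [pow_zero, mul_one, PowerSeries.coeff_derivative]
      have h1 : p - 1 + 1 = p := by omega
      have h3 : ((p - 1 : ℕ) : ℤ_[p]) + 1 = p := by
        have : ((p - 1 : ℕ) : ℤ_[p]) + 1 = ((p - 1 + 1 : ℕ) : ℤ_[p]) := by push_cast; ring
        rw [this, h1]
      rw [h1, h3, hr]; ring
    rw [e0, coeff_zero_eq_constantCoeff_apply, add_sub_cancel_left]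
    apply Finset.dvd_sum
    intro n hn
    simp only [Finset.mem_erase, Finset.mem_range] at hn
    exact (claim1 hRR hR10 hp5 n (by omega)).mul_left _
  have E2 : (p : ℤ_[p]) ^ 3 ∣ ε * (α * coeff (2 * p - 1) W) - coeff 1 W * (p * r ^ 2) := by
    rw [← hco (2 * p - 1) (by omega)]
    have hsplit : Finset.range (2 * p) = insert 1 ((Finset.range (2 * p)).erase 1) := by
      rw [Finset.insert_erase]; simp; omega
    rw [hsplit, Finset.sum_insert (by simp)]
    have e1 := claim2_one hRR hR10 h2p hp5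
    rw [← hr] at e1
    have e2 : (p : ℤ_[p]) ^ 3 ∣ ∑ n ∈ (Finset.range (2 * p)).erase 1,
        coeff n W * coeff (2 * p - 1) (d⁄dX ℤ_[p] R0 * R0 ^ n) := by
      apply Finset.dvd_sum
      intro n hn
      simp only [Finset.mem_erase, Finset.mem_range] at hn
      rcases Nat.eq_zero_or_pos n with h | h
      · subst h
        rw [pow_zero, mul_one]
        exact (claim2_zero hRR hR10 h2p).mul_left _
      · exact (claim2_gen hRR hR10 h2p hp5 n (by omega)).mul_left _
    obtain ⟨k, hk⟩ := e1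
    obtain ⟨l, hl⟩ := e2
    refine ⟨coeff 1 W * k + l, ?_⟩
    rw [hl]
    linear_combination coeff 1 W * hk
  -- final computation
  obtain ⟨v, hv⟩ := hπ.exists_right_inv
  have hαv : α = p * v := by rw [← hα]; linear_combination (-α) * hv
  have F1 : (p : ℤ_[p]) ^ 2 ∣ ε * v * coeff (p - 1) W - constantCoeff W * r := by
    obtain ⟨k, hk⟩ := E1
    refine ⟨k, mul_left_cancel₀ hp0 ?_⟩
    rw [hαv] at hk
    linear_combination hk
  have F2 : (p : ℤ_[p]) ^ 2 ∣ ε * v * coeff (2 * p - 1) W - coeff 1 W * r ^ 2 := by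
    obtain ⟨k, hk⟩ := E2
    refine ⟨k, mul_left_cancel₀ hp0 ?_⟩
    rw [hαv] at hk
    linear_combination hk
  have hεε : ε * ε = 1 := by rcases hε with h | h <;> rw [h] <;> ring
  have hr1 : (p : ℤ_[p]) ∣ 1 - c ^ (p - 1) * r := by
    rw [← red_eq_zero]
    have h1 : r = 1 + p * coeff p R1 := by
      rw [hr, hRR, map_add, coeff_X_pow, if_pos rfl, coeff_C_mul]
    have rp : PadicInt.toZMod (p : ℤ_[p]) = 0 := (red_eq_zero _).2 dvd_rfl
    have rc : PadicInt.toZMod c ≠ 0 := (hc.map PadicInt.toZMod).ne_zero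
    rw [h1, map_sub, map_one, map_mul, map_pow, ZMod.pow_card_sub_one_eq_one rc, map_add, map_mul, rp,
      map_one]
    ring
  refine ⟨ε, hε, ?_⟩
  obtain ⟨k1, hk1⟩ := F1
  obtain ⟨k2, hk2⟩ := F2
  obtain ⟨k3, hk3⟩ := hr1
  have hcp : c ^ p = c ^ (p - 1) * c := by
    rw [← pow_succ]; congr 1; have := hpp.pos; omega
  have hc2p : c ^ (2 * p) = (c ^ (p - 1) * c) ^ 2 := by rw [← hcp, ← pow_mul, mul_comm 2 p]
  set cp := c ^ (p - 1) with hcpdef
  have key : v * (2 * c ^ p * coeff (p - 1) W + c ^ (2 * p) * coeff (2 * p - 1) W - ε * π') =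
      (p : ℤ_[p]) ^ 2 * (ε * (2 * c ^ p * k1 + c ^ (2 * p) * k2) - ε * k3 ^ 2) := by
    rw [hcp, hc2p]
    have s1 : v * coeff (p - 1) W = ε * (constantCoeff W * r + p ^ 2 * k1) := by
      linear_combination ε * hk1 - v * coeff (p - 1) W * hεε
    have s2 : v * coeff (2 * p - 1) W = ε * (coeff 1 W * r ^ 2 + p ^ 2 * k2) := by
      linear_combination ε * hk2 - v * coeff (2 * p - 1) W * hεε
    linear_combination (2 * (cp * c)) * s1 + (cp * c) ^ 2 * s2 - ε * hv +
      (2 * cp * ε * r) * hW0 + (cp ^ 2 * ε * r ^ 2) * hW1 + (-ε) * (1 - cp * r + p * k3) * hk3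
  have hvu : IsUnit v := IsUnit.of_mul_eq_one π' (by rw [mul_comm]; exact hv)
  exact dvd_of_unit_mul hvu ⟨_, key⟩

end Pool.Agent.H475R2
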