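import Pool.Agent.H475R2.K3

/-!
The explicit inverse square root of the cubic, and the truncated sums.
-/

set_option autoImplicit false
set_option linter.unusedSectionVars false
set_option linter.unusedSimpArgs false
set_option linter.unusedVariables false

namespace Pool.Agent.H475R2

open PowerSeries

variable {p : ℕ} [hp : Fact p.Prime]

/-- The power series with coefficients `(-1)^n c^(-n-1) B n`. -/
noncomputable def WB (ci : ℤ_[p]) (B : ℕ → ℤ_[p]) : PowerSeries ℤ_[p] :=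
  PowerSeries.mk fun n => (-1) ^ n * ci ^ (n + 1) * B n

theorem WB_sq {b c ci : ℤ_[p]} (hc : c * ci = 1) {B : ℕ → ℤ_[p]} (h0 : B 0 = 1) (h1 : B 1 = 1)
    (h2 : 2 * B 2 = 3 - b)
    (hrec : ∀ k : ℕ, ((k : ℤ_[p]) + 3) * B (k + 3) - (2 * k + 5) * B (k + 2) +
      b * (k + 2) * B (k + 1) - (4 * k + 6) * c * B k = 0) :
    WB ci B ^ 2 * (gp b c : PowerSeries ℤ_[p]) = 1 := by
  set W := WB ci B with hW
  set g : PowerSeries ℤ_[p] := (gp b c : PowerSeries ℤ_[p]) with hg
  have hW' : ∀ n, coeff n W = (-1) ^ n * ci ^ (n + 1) * B n := by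
    intro n; rw [hW]; unfold WB; rw [coeff_mk]
  have q4 : ((4 : Polynomial ℤ_[p]) : PowerSeries ℤ_[p]) = 4 :=
    map_ofNat (Polynomial.coeToPowerSeries.ringHom (R := ℤ_[p])) 4
  have q2 : ((2 : Polynomial ℤ_[p]) : PowerSeries ℤ_[p]) = 2 :=
    map_ofNat (Polynomial.coeToPowerSeries.ringHom (R := ℤ_[p])) 2
  have hge : g = C 4 * X ^ 3 + C b * X ^ 2 + C (2 * c) * X ^ 1 + C (c ^ 2) * X ^ 0 := by
    rw [hg]; unfold gp
    push_cast
    rw [q4, q2, map_mul, map_pow, map_ofNat, map_ofNat]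
    ring
  have hgd : d⁄dX ℤ_[p] g = C 12 * X ^ 2 + C (2 * b) * X ^ 1 + C (2 * c) * X ^ 0 := by
    have e12 : (C (12 : ℤ_[p]) : PowerSeries ℤ_[p]) = C 4 * 3 := by
      rw [show (3 : PowerSeries ℤ_[p]) = C 3 by rw [map_ofNat], ← map_mul]; norm_num
    have e2b : (C (2 * b : ℤ_[p]) : PowerSeries ℤ_[p]) = C b * 2 := by
      rw [show (2 : PowerSeries ℤ_[p]) = C 2 by rw [map_ofNat], ← map_mul, mul_comm]
    rw [hge, e12, e2b]
    simp only [map_add, Derivation.leibniz, Derivation.leibniz_pow, derivative_X, derivative_C,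
      smul_eq_mul, nsmul_eq_mul]
    push_cast
    ring
  have hode : 2 * (g * d⁄dX ℤ_[p] W) + d⁄dX ℤ_[p] g * W = 0 := by
    ext k
    rw [hgd, hge]
    have r : (2 : PowerSeries ℤ_[p]) = C 2 := by rw [map_ofNat]
    rw [r]
    simp only [add_mul, mul_assoc, map_add, coeff_C_mul, coeff_X_pow_mul', coeff_derivative, hW',
      map_zero]
    rcases k with _ | _ | _ | k
    · simp [h0, h1]
      linear_combination (-2 * c * ci) * hc
    · simp [h0, h1]
      linear_combination (2 * c ^ 2 * ci ^ 3) * h2 + (6 * c * ci ^ 2 - 2 * b * ci * (c * ci + 1)) * hc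
    · have hr := hrec 0
      simp [h0, h1] at hr ⊢
      linear_combination (-2 * ci ^ 2) * hr +
        (-6 * B 3 * ci ^ 2 * (c * ci + 1) + 10 * B 2 * ci ^ 2 - 12 * ci) * hc
    · have hr := hrec (k + 1)
      have i1 : k + 1 + 1 + 1 - 3 = k := by omega
      have i2 : k + 1 + 1 + 1 - 2 = k + 1 := by omega
      have i3 : k + 1 + 1 + 1 - 1 = k + 2 := by omega
      have i4 : k + 1 + 1 + 1 - 0 = k + 3 := by omega
      rw [if_pos (by omega), if_pos (by omega), if_pos (by omega), if_pos (by omega), i1, i2, i3, i4]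
      push_cast at hr ⊢
      linear_combination (2 * (-1) ^ k * ci ^ (k + 3)) * hr + ((-1) ^ k * ci ^ (k + 2) *
        (2 * B (k + 4) * (k + 4) * ci * (c * ci + 1) - (4 * k + 14) * ci * B (k + 3) +
          (8 * k + 20) * B (k + 1))) * hc
  have hcc : constantCoeff W = ci := by
    rw [← coeff_zero_eq_constantCoeff_apply, hW', h0]; ring
  have hcg : constantCoeff g = c ^ 2 := by
    rw [hge]
    simp
  apply derivative.ext
  · rw [Derivation.leibniz, Derivation.leibniz_pow, ← map_one (C (R := ℤ_[p])), derivative_C]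
    simp only [smul_eq_mul, nsmul_eq_mul]
    push_cast
    linear_combination W * hode
  · rw [map_mul, map_pow, hcc, hcg, map_one]
    linear_combination (c * ci + 1) * hc

/-- The value of the two coefficients. -/
theorem WB_val {c ci : ℤ_[p]} (hc : c * ci = 1) (hp2 : p ≠ 2) (B : ℕ → ℤ_[p]) :
    2 * c ^ p * coeff (p - 1) (WB ci B) + c ^ (2 * p) * coeff (2 * p - 1) (WB ci B) =
      2 * B (p - 1) - B (2 * p - 1) := by
  have hpp := hp.out
  have hodd := hpp.odd_of_ne_two hp2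
  unfold WB
  rw [coeff_mk, coeff_mk]
  have e1 : p - 1 + 1 = p := by have := hpp.pos; omega
  have e2 : 2 * p - 1 + 1 = 2 * p := by have := hpp.pos; omega
  have s1 : (-1 : ℤ_[p]) ^ (p - 1) = 1 := by
    apply Even.neg_one_pow
    obtain ⟨k, hk⟩ := hodd
    exact ⟨k, by omega⟩
  have s2 : (-1 : ℤ_[p]) ^ (2 * p - 1) = -1 := by
    apply Odd.neg_one_pow
    exact ⟨p - 1, by have := hpp.pos; omega⟩
  rw [e1, e2, s1, s2]
  have f1 : c ^ p * ci ^ p = 1 := by rw [← mul_pow, hc, one_pow]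
  have f2 : c ^ (2 * p) * ci ^ (2 * p) = 1 := by rw [← mul_pow, hc, one_pow]
  linear_combination (2 * B (p - 1)) * f1 - B (2 * p - 1) * f2

/-- The sequence for the curves with a point of order three. -/
noncomputable def B3 (c : ℤ_[p]) (n : ℕ) : ℤ_[p] :=
  ∑ j ∈ Finset.range (n + 1), ((Nat.choose (2 * j) j * Nat.choose (n - j) (2 * j) : ℕ) : ℤ_[p]) * c ^ j

theorem B3_ext (c : ℤ_[p]) (n m : ℕ) (h : n + 1 ≤ m) :
    B3 c n = ∑ j ∈ Finset.range m,
      ((Nat.choose (2 * j) j * Nat.choose (n - j) (2 * j) : ℕ) : ℤ_[p]) * c ^ j := by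
  unfold B3
  apply Finset.sum_subset
  · intro x hx; simp only [Finset.mem_range] at hx ⊢; omega
  · intro x hx hx'
    simp only [Finset.mem_range, not_lt] at hx hx'
    rw [Nat.choose_eq_zero_of_lt (show n - x < 2 * x by omega), mul_zero, Nat.cast_zero, zero_mul]

theorem B3_ext' (c : ℤ_[p]) (n m : ℕ) (h : n ≤ m) :
    B3 c n = ∑ j ∈ Finset.range m, ((Nat.choose (2 * (j + 1)) (j + 1) *
      Nat.choose (n - (j + 1)) (2 * (j + 1)) : ℕ) : ℤ_[p]) * c ^ (j + 1) + 1 := by
  rw [B3_ext c n (m + 1) (by omega), Finset.sum_range_succ']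
  simp

theorem B3_term (q j : ℕ) :
    ((Nat.choose (2 * (j + 1)) (j + 1) : ℕ) : ℚ) * ((q + j + 3) * (Nat.choose (q + 2) (2 * j + 2) : ℕ) -
      (2 * q + 2 * j + 5) * (Nat.choose (q + 1) (2 * j + 2) : ℕ) +
      (q + j + 2) * (Nat.choose q (2 * j + 2) : ℕ)) =
    (4 * q + 4 * j + 6) * ((Nat.choose (2 * j) j : ℕ) * (Nat.choose q (2 * j) : ℕ)) := by
  have h1 : ((Nat.choose (2 * (j + 1)) (j + 1) : ℕ) : ℚ) * (j + 1) =
      2 * (2 * j + 1) * (Nat.choose (2 * j) j : ℕ) := by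
    have := Nat.succ_mul_centralBinom_succ j
    unfold Nat.centralBinom at this
    have h := congrArg (fun x : ℕ => (x : ℚ)) this
    push_cast at h ⊢
    linear_combination h
  have h2 : ((Nat.choose (q + 2) (2 * j + 2) : ℕ) : ℚ) = (Nat.choose q (2 * j) : ℕ) +
      2 * (Nat.choose q (2 * j + 1) : ℕ) + (Nat.choose q (2 * j + 2) : ℕ) := by
    rw [show q + 2 = (q + 1) + 1 from rfl, show 2 * j + 2 = (2 * j + 1) + 1 from rfl,
      Nat.choose_succ_succ, Nat.choose_succ_succ, Nat.choose_succ_succ]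
    push_cast; ring
  have h3 : ((Nat.choose (q + 1) (2 * j + 2) : ℕ) : ℚ) = 
      (Nat.choose q (2 * j + 1) : ℕ) + (Nat.choose q (2 * j + 2) : ℕ) := by
    rw [show 2 * j + 2 = (2 * j + 1) + 1 from rfl, Nat.choose_succ_succ]
    push_cast; ring
  have h4 : ((Nat.choose q (2 * j + 1) : ℕ) : ℚ) * (2 * j + 1) = (Nat.choose q (2 * j) : ℕ) * (q - 2 * j) := by
    rcases le_or_gt (2 * j) q with h | h
    · have := Nat.choose_succ_right_eq q (2 * j)
      have h' := congrArg (fun x : ℕ => (x : ℚ)) this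
      push_cast [Nat.cast_sub h] at h'
      linear_combination h'
    · rw [Nat.choose_eq_zero_of_lt (show q < 2 * j + 1 by omega), Nat.choose_eq_zero_of_lt h]
      simp
  have hj : ((j : ℚ) + 1) ≠ 0 := by positivity
  have hj2 : (2 * (j : ℚ) + 1) ≠ 0 := by positivity
  rw [h2, h3]
  have h1' : ((Nat.choose (2 * (j + 1)) (j + 1) : ℕ) : ℚ) =
      2 * (2 * j + 1) * (Nat.choose (2 * j) j : ℕ) / (j + 1) := by
    rw [eq_div_iff hj]; exact h1
  have h4' : ((Nat.choose q (2 * j + 1) : ℕ) : ℚ) =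
      (Nat.choose q (2 * j) : ℕ) * (q - 2 * j) / (2 * j + 1) := by
    rw [eq_div_iff hj2]; exact h4
  rw [h1', h4']
  field_simp
  ring


theorem B3_termZ (q j : ℕ) :
    ((Nat.choose (2 * (j + 1)) (j + 1) : ℕ) : ℤ) * ((q + j + 3) * (Nat.choose (q + 2) (2 * j + 2) : ℕ) -
      (2 * q + 2 * j + 5) * (Nat.choose (q + 1) (2 * j + 2) : ℕ) +
      (q + j + 2) * (Nat.choose q (2 * j + 2) : ℕ)) =
    (4 * q + 4 * j + 6) * ((Nat.choose (2 * j) j : ℕ) * (Nat.choose q (2 * j) : ℕ)) := by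
  have := B3_term q j
  exact_mod_cast this

theorem B3_rec (c : ℤ_[p]) (k : ℕ) : ((k : ℤ_[p]) + 3) * B3 c (k + 3) - (2 * k + 5) * B3 c (k + 2) +
      1 * (k + 2) * B3 c (k + 1) - (4 * k + 6) * c * B3 c k = 0 := by
  rw [B3_ext' c (k + 3) (k + 5) (by omega), B3_ext' c (k + 2) (k + 5) (by omega),
    B3_ext' c (k + 1) (k + 5) (by omega), B3_ext c k (k + 5) (by omega)]
  have key : ∀ j ∈ Finset.range (k + 5),
      ((k : ℤ_[p]) + 3) * (((Nat.choose (2 * (j + 1)) (j + 1) * Nat.choose (k + 3 - (j + 1)) (2 * (j + 1)) : ℕ) : ℤ_[p]) * c ^ (j + 1)) -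
      (2 * k + 5) * (((Nat.choose (2 * (j + 1)) (j + 1) * Nat.choose (k + 2 - (j + 1)) (2 * (j + 1)) : ℕ) : ℤ_[p]) * c ^ (j + 1)) +
      1 * (k + 2) * (((Nat.choose (2 * (j + 1)) (j + 1) * Nat.choose (k + 1 - (j + 1)) (2 * (j + 1)) : ℕ) : ℤ_[p]) * c ^ (j + 1)) -
      (4 * k + 6) * c * (((Nat.choose (2 * j) j * Nat.choose (k - j) (2 * j) : ℕ) : ℤ_[p]) * c ^ j) = 0 := by
    intro j _
    rcases le_or_gt j k with h | h
    · obtain ⟨q, rfl⟩ := Nat.exists_eq_add_of_le h
      have e1 : j + q + 3 - (j + 1) = q + 2 := by omega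
      have e2 : j + q + 2 - (j + 1) = q + 1 := by omega
      have e3 : j + q + 1 - (j + 1) = q := by omega
      have e4 : j + q - j = q := by omega
      rw [e1, e2, e3, e4]
      have t := congrArg (fun x : ℤ => (x : ℤ_[p])) (B3_termZ q j)
      push_cast at t ⊢
      have e5 : 2 * (j + 1) = 2 * j + 2 := by ring
      rw [e5] at t ⊢
      linear_combination (c ^ (j + 1)) * t
    · rw [Nat.choose_eq_zero_of_lt (show k + 3 - (j + 1) < 2 * (j + 1) by omega),
        Nat.choose_eq_zero_of_lt (show k + 2 - (j + 1) < 2 * (j + 1) by omega),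
        Nat.choose_eq_zero_of_lt (show k + 1 - (j + 1) < 2 * (j + 1) by omega),
        Nat.choose_eq_zero_of_lt (show k - j < 2 * j by omega)]
      simp
  have key2 := Finset.sum_eq_zero key
  simp only [Finset.sum_sub_distrib, Finset.sum_add_distrib, ← Finset.mul_sum] at key2
  linear_combination key2

theorem B3_zero (c : ℤ_[p]) : B3 c 0 = 1 := by
  unfold B3; simp

theorem B3_one (c : ℤ_[p]) : B3 c 1 = 1 := by
  unfold B3; simp [Finset.sum_range_succ]

theorem B3_two (c : ℤ_[p]) : B3 c 2 = 1 := by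
  unfold B3; simp [Finset.sum_range_succ]

/-- The truncated sum. -/
noncomputable def T3 {R : Type*} [CommRing R] (p : ℕ) (c : R) : R :=
  ∑ j ∈ Finset.range p, ((Nat.choose (2 * j) j * Nat.choose (3 * j) j : ℕ) : R) * c ^ j

/-- Second differences of integer polynomials. -/
theorem second_diff (g : Polynomial ℤ) (x : ℤ) :
    x ^ 2 ∣ 2 * g.eval x - g.eval (2 * x) - g.eval 0 := by
  induction g using Polynomial.induction_on' with
  | add f g hf hg =>
    obtain ⟨a, ha⟩ := hf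
    obtain ⟨b, hb⟩ := hg
    refine ⟨a + b, ?_⟩
    simp only [Polynomial.eval_add]
    linear_combination ha + hb
  | monomial n a =>
    simp only [Polynomial.eval_monomial]
    rcases n with _ | _ | n
    · refine ⟨0, ?_⟩; ring
    · refine ⟨0, ?_⟩; ring
    · refine ⟨a * x ^ n * (2 - 2 ^ (n + 2)), ?_⟩
      rw [zero_pow (by omega), mul_pow]
      ring

/-- The polynomial whose values are the descending factorials. -/
theorem exists_poly (j m : ℕ) : ∃ g : Polynomial ℤ, (∀ n : ℕ, j ≤ n → 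
    g.eval ((n : ℤ) + 1) = (Nat.descFactorial (n - j) (2 * m) : ℤ)) ∧
    g.eval 0 = (Nat.ascFactorial (j + 1) (2 * m) : ℤ) := by
  refine ⟨(descPochhammer ℤ (2 * m)).comp (Polynomial.X - Polynomial.C ((j : ℤ) + 1)), ?_, ?_⟩
  · intro n hn
    rw [Polynomial.eval_comp]
    simp only [Polynomial.eval_sub, Polynomial.eval_X, Polynomial.eval_C]
    have : (n : ℤ) + 1 - ((j : ℤ) + 1) = ((n - j : ℕ) : ℤ) := by
      rw [Nat.cast_sub hn]; ring
    rw [this, descPochhammer_eval_eq_descFactorial]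
  · rw [Polynomial.eval_comp]
    simp only [Polynomial.eval_sub, Polynomial.eval_X, Polynomial.eval_C]
    have h := ascPochhammer_eval_neg_eq_descPochhammer ℤ (0 - ((j : ℤ) + 1)) (2 * m)
    rw [pow_mul, neg_one_sq, one_pow, one_mul] at h
    rw [← h]
    have e : -(0 - ((j : ℤ) + 1)) = ((j + 1 : ℕ) : ℤ) := by push_cast; ring
    rw [e, ascPochhammer_nat_eq_natCast_ascFactorial]

theorem T3_term (hp' : p.Prime) (j : ℕ) (hj : j < p) : (p : ℤ) ^ 2 ∣
    2 * (Nat.choose (2 * j) j * Nat.choose (p - 1 - j) (2 * j) : ℕ) -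
      (Nat.choose (2 * j) j * Nat.choose (2 * p - 1 - j) (2 * j) : ℕ) -
      (Nat.choose (2 * j) j * Nat.choose (3 * j) j : ℕ) := by
  obtain ⟨g, hg, hg0⟩ := exists_poly j j
  have h1 := hg (p - 1) (by omega)
  have h2 := hg (2 * p - 1) (by omega)
  have e1 : ((p - 1 : ℕ) : ℤ) + 1 = p := by
    rw [Nat.cast_sub (by omega)]; push_cast; ring
  have e2 : ((2 * p - 1 : ℕ) : ℤ) + 1 = 2 * p := by
    rw [Nat.cast_sub (by omega)]; push_cast; ring
  rw [e1] at h1
  rw [e2] at h2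
  have h3 := second_diff g p
  rw [h1, h2, hg0] at h3
  have f0 : Nat.choose (2 * j) j * Nat.factorial j ^ 2 = Nat.factorial (2 * j) := by
    have := Nat.choose_mul_factorial_mul_factorial (show j ≤ 2 * j by omega)
    rw [show 2 * j - j = j by omega] at this
    rw [← this]; ring
  have f3 : Nat.choose (j + 1 + 2 * j - 1) (2 * j) = Nat.choose (3 * j) j := by
    rw [show j + 1 + 2 * j - 1 = 3 * j by omega]
    rw [← Nat.choose_symm (show 2 * j ≤ 3 * j by omega)]
    congr 1; omega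
  rw [Nat.descFactorial_eq_factorial_mul_choose, Nat.descFactorial_eq_factorial_mul_choose,
    Nat.ascFactorial_eq_factorial_mul_choose', f3, ← f0] at h3
  have hco : IsCoprime ((p : ℤ) ^ 2) (((Nat.factorial j : ℕ) : ℤ) ^ 2) := by
    apply IsCoprime.pow
    rw [Nat.isCoprime_iff_coprime, Nat.Prime.coprime_iff_not_dvd hp']
    intro h
    exact absurd ((hp'.dvd_factorial).1 h) (by omega)
  apply hco.dvd_of_dvd_mul_left
  have e5 : ((Nat.factorial j : ℕ) : ℤ) ^ 2 *
      (2 * (Nat.choose (2 * j) j * Nat.choose (p - 1 - j) (2 * j) : ℕ) -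
      (Nat.choose (2 * j) j * Nat.choose (2 * p - 1 - j) (2 * j) : ℕ) -
      (Nat.choose (2 * j) j * Nat.choose (3 * j) j : ℕ)) =
      2 * ((Nat.choose (2 * j) j * Nat.factorial j ^ 2 * Nat.choose (p - 1 - j) (2 * j) : ℕ) : ℤ) -
      ((Nat.choose (2 * j) j * Nat.factorial j ^ 2 * Nat.choose (2 * p - 1 - j) (2 * j) : ℕ) : ℤ) -
      ((Nat.choose (2 * j) j * Nat.factorial j ^ 2 * Nat.choose (3 * j) j : ℕ) : ℤ) := by
    push_cast; ring
  rw [e5]
  exact h3

theorem T3_congr (hp2 : p ≠ 2) (c : ℤ_[p]) :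
    (p : ℤ_[p]) ^ 2 ∣ 2 * B3 c (p - 1) - B3 c (2 * p - 1) - T3 p c := by
  have hpp := hp.out
  have h1 : B3 c (2 * p - 1) = ∑ j ∈ Finset.range p,
      ((Nat.choose (2 * j) j * Nat.choose (2 * p - 1 - j) (2 * j) : ℕ) : ℤ_[p]) * c ^ j := by
    unfold B3
    symm
    apply Finset.sum_subset
    · intro x hx; simp only [Finset.mem_range] at hx ⊢; omega
    · intro x hx hx'
      simp only [Finset.mem_range, not_lt] at hx hx'
      rw [Nat.choose_eq_zero_of_lt (show 2 * p - 1 - x < 2 * x by have := hpp.pos; omega), mul_zero, Nat.cast_zero,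
        zero_mul]
  rw [h1]
  unfold B3 T3
  rw [show p - 1 + 1 = p by have := hpp.pos; omega, Finset.mul_sum, ← Finset.sum_sub_distrib,
    ← Finset.sum_sub_distrib]
  apply Finset.dvd_sum
  intro j hj
  obtain ⟨k, hk⟩ := T3_term hpp j (Finset.mem_range.1 hj)
  refine ⟨k * c ^ j, ?_⟩
  have := congrArg (fun x : ℤ => (x : ℤ_[p])) hk
  push_cast at this ⊢
  linear_combination (c ^ j) * this

end Pool.Agent.H475R2
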