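import Pool.Agent.H475R2.K4
import Pool.Agent.H475R2.Ell7

/-!
The split case: the truncated sum is congruent to a unit root, up to sign.
-/

set_option autoImplicit false
set_option linter.unusedSectionVars false
set_option linter.unusedSimpArgs false
set_option linter.unusedVariables false

namespace Pool.Agent.H475R2

open WeierstrassCurve Polynomial

/-- Separability from the discriminant. -/
theorem sep_of_dsc {R : Type*} [CommRing R] {ra rb rc : R}
    (hΔ : IsUnit (dsc (C ra) (C rb) (C rc) : R[X])) :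
    IsCoprime (X ^ 3 + C ra * X ^ 2 + C rb * X + C rc)
      (derivative (X ^ 3 + C ra * X ^ 2 + C rb * X + C rc)) := by
  obtain ⟨u, hu⟩ := hΔ.exists_right_inv
  have hd : derivative (X ^ 3 + C ra * X ^ 2 + C rb * X + C rc) = 3 * X ^ 2 + 2 * C ra * X + C rb := by
    simp only [derivative_add, derivative_mul, derivative_X_pow, derivative_C, derivative_X,
      zero_mul, zero_add, mul_one, add_zero, Nat.cast_ofNat, pow_one]
    simp only [map_ofNat]
    ring
  rw [hd]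
  unfold dsc at hu
  refine ⟨16 * u * ((18 * C rb - 6 * C ra ^ 2) * X + (15 * C ra * C rb - 4 * C ra ^ 3 - 27 * C rc)),
    16 * u * ((2 * C ra ^ 2 - 6 * C rb) * X ^ 2 + (2 * C ra ^ 3 - 7 * C ra * C rb + 9 * C rc) * X +
      (C ra ^ 2 * C rb + 3 * C ra * C rc - 4 * C rb ^ 2)), ?_⟩
  linear_combination hu

variable {p : ℕ} [hp : Fact p.Prime]

theorem gp_eq {ra rb rc b c : ℤ_[p]} (ha : 4 * ra = b) (hb : 2 * rb = c) (hc : 4 * rc = c ^ 2) :
    gp b c = 4 * (X ^ 3 + C ra * X ^ 2 + C rb * X + C rc) := by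
  unfold gp
  rw [← ha]
  have h1 : C (4 * rc) = C (c ^ 2) := by rw [hc]
  have h2 : C (2 * rb) = C c := by rw [hb]
  simp only [C_mul, C_pow, map_ofNat] at h1 h2 ⊢
  linear_combination (-2 * X) * h2 - h1

theorem gh_eq {ra rb rc b c : ℤ_[p]} (ha : 4 * ra = b) (hb : 2 * rb = c) (hc : 4 * rc = c ^ 2)
    (N D : ℤ_[p][X]) :
    gh b c N D = 4 * (N ^ 3 + C ra * N ^ 2 * D + C rb * N * D ^ 2 + C rc * D ^ 3) := by
  unfold gh
  rw [← ha]
  have h1 : C (4 * rc) = C (c ^ 2) := by rw [hc]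
  have h2 : C (2 * rb) = C c := by rw [hb]
  simp only [C_mul, C_pow, map_ofNat] at h1 h2 ⊢
  linear_combination (-2 * N * D ^ 2) * h2 - D ^ 3 * h1

theorem isUnit_of_not_dvd {x : ℤ_[p]} (h : ¬ (p : ℤ_[p]) ∣ x) : IsUnit x := by
  rw [PadicInt.isUnit_iff]
  by_contra hne
  have hlt : ‖x‖ < 1 := lt_of_le_of_ne (PadicInt.norm_le_one _) hne
  apply h
  rw [← red_eq_zero, ← RingHom.mem_ker, PadicInt.ker_toZMod, IsLocalRing.mem_maximalIdeal,
    PadicInt.mem_nonunits]
  exact hlt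

theorem isUnit_intCast {m : ℤ} (h : ¬ (p : ℤ) ∣ m) : IsUnit (m : ℤ_[p]) := by
  apply isUnit_of_not_dvd
  rintro hd
  apply h
  rw [← red_eq_zero, map_intCast] at hd
  exact (ZMod.intCast_zmod_eq_zero_iff_dvd m p).1 hd

/-- Hensel: the root of the characteristic polynomial for which `i + j σ` is divisible by `p`. -/
theorem exists_root {t n i j : ℤ} (hn : nf t n i j = p) (hd : ¬ (p : ℤ) ∣ 4 * n - t ^ 2) (hp2 : p ≠ 2) :
    ∃ σ : ℤ_[p], σ ^ 2 - t * σ + n = 0 ∧ (p : ℤ_[p]) ∣ (i : ℤ_[p]) + j * σ := by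
  have hpp := hp.out
  have hpZ : Prime (p : ℤ) := Nat.prime_iff_prime_int.1 hpp
  unfold nf at hn
  have hj : ¬ (p : ℤ) ∣ j := by
    intro h
    have h1 : (p : ℤ) ∣ i ^ 2 := by
      have : i ^ 2 = p - (t * i + n * j) * j := by rw [← hn]; ring
      rw [this]
      exact dvd_sub dvd_rfl (h.mul_left _)
    have h2 := hpZ.dvd_of_dvd_pow h1
    obtain ⟨a, ha⟩ := h2
    obtain ⟨b, hb⟩ := h
    have h3 : (p : ℤ) * (p * (a ^ 2 + t * a * b + n * b ^ 2)) = p * 1 := by
      rw [mul_one]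
      conv_rhs => rw [← hn, ha, hb]
      ring
    have h4 := mul_left_cancel₀ hpZ.ne_zero h3
    exact hpZ.not_isUnit (IsUnit.of_mul_eq_one _ h4)
  have hju := isUnit_intCast hj
  obtain ⟨ji, hji⟩ := hju.exists_right_inv
  set a : ℤ_[p] := -(i * ji) with ha
  set F : ℤ_[p][X] := X ^ 2 - C (t : ℤ_[p]) * X + C (n : ℤ_[p]) with hF
  have hFa : F.eval a = ji ^ 2 * p := by
    have : ((i ^ 2 + t * i * j + n * j ^ 2 : ℤ) : ℤ_[p]) = p := by rw [hn]; simp
    push_cast at this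
    rw [hF]
    simp only [eval_add, eval_sub, eval_pow, eval_X, eval_mul, eval_C]
    rw [ha, ← this]
    linear_combination (-(t : ℤ_[p]) * i * ji - n * (j * ji + 1)) * hji
  have hF' : (derivative F).eval a = 2 * a - t := by
    rw [hF]; simp; left; norm_num
  have hu : IsUnit (2 * a - (t : ℤ_[p])) := by
    have h1 : IsUnit ((2 * i + t * j : ℤ) : ℤ_[p]) := by
      apply isUnit_intCast
      intro h
      have h5 : (p : ℤ) ∣ (4 * n - t ^ 2) * j ^ 2 := by
        have : (4 * n - t ^ 2) * j ^ 2 = 4 * p - (2 * i + t * j) * (2 * i + t * j) := by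
          rw [← hn]; ring
        rw [this]
        exact dvd_sub (dvd_mul_left _ _) (h.mul_left _)
      rcases hpZ.dvd_or_dvd h5 with h6 | h6
      · exact hd h6
      · exact hj (hpZ.dvd_of_dvd_pow h6)
    have h2 : 2 * a - (t : ℤ_[p]) = -(((2 * i + t * j : ℤ) : ℤ_[p]) * ji) := by
      push_cast
      rw [ha]
      linear_combination (t : ℤ_[p]) * hji
    rw [h2]
    exact (h1.mul (IsUnit.of_mul_eq_one _ (by rw [mul_comm]; exact hji))).neg
  have hnorm : ‖(derivative F).eval a‖ = 1 := by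
    rw [hF']; exact PadicInt.isUnit_iff.1 hu
  have hlt : ‖F.eval a‖ < 1 := by
    rw [hFa, ← PadicInt.mem_nonunits, ← IsLocalRing.mem_maximalIdeal, PadicInt.maximalIdeal_eq_span_p,
      Ideal.mem_span_singleton]
    exact dvd_mul_left _ _
  obtain ⟨z, hz, hza, -, -⟩ := hensels_lemma (F := F) (a := a) (by
    simp only [coe_aeval_eq_eval]
    rw [hnorm, one_pow]; exact hlt)
  simp only [coe_aeval_eq_eval] at hz hza
  refine ⟨z, ?_, ?_⟩
  · rw [hF] at hz
    simp only [eval_add, eval_sub, eval_pow, eval_X, eval_mul, eval_C] at hz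
    exact hz
  · rw [hnorm] at hza
    have h1 : (p : ℤ_[p]) ∣ z - a := by
      rw [← Ideal.mem_span_singleton, ← PadicInt.maximalIdeal_eq_span_p, IsLocalRing.mem_maximalIdeal,
        PadicInt.mem_nonunits]
      exact hza
    have h2 : (i : ℤ_[p]) + j * z = j * (z - a) := by
      rw [ha]; linear_combination (-(i : ℤ_[p])) * hji
    rw [h2]
    exact h1.mul_left _

theorem nf_pos {t n i j : ℤ} (hdisc : t ^ 2 < 4 * n) (hij : i ≠ 0 ∨ j ≠ 0) : 0 < nf t n i j := by
  unfold nf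
  by_cases hj : j = 0
  · subst hj
    have : i ≠ 0 := by rcases hij with h | h; exact h; exact absurd rfl h
    have : 0 < i ^ 2 := by positivity
    linarith [this]
  · have h1 : 0 < j ^ 2 := by positivity
    have h2 : 0 < (4 * n - t ^ 2) * j ^ 2 := by
      apply mul_pos _ h1; linarith
    nlinarith [sq_nonneg (2 * i + t * j)]

/-- The point of abscissa zero is of order three. -/
theorem order3 {L : Type*} [Field L] [DecidableEq L] {a b c y0 : L} (ht : (2 : L) ≠ 0)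
    (hy : y0 ≠ 0) (hb : b = y0) (ha : 4 * a = 1)
    (h : (EW a b c).Nonsingular 0 y0) :
    (3 : ℤ) • (Affine.Point.some 0 y0 h : (EW a b c).Point) = 0 := by
  obtain ⟨x3, y3, l, h3, e3, hl, hx3, hy3⟩ := add_self' ht h hy
  have hl2 : l * 2 = 1 := by
    have : y0 * (l * 2 - 1) = 0 := by
      unfold dfx at hl
      rw [hb] at hl
      linear_combination hl
    rcases mul_eq_zero.1 this with h | h
    · exact absurd h hy
    · linear_combination h
  have hx0 : x3 = 0 := by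
    have : (2 * 2) * x3 = 0 := by
      rw [hx3]; linear_combination (2 * l + 1) * hl2 - ha
    rcases mul_eq_zero.1 this with h | h
    · exact absurd h (mul_ne_zero ht ht)
    · exact h
  have hy3' : y3 = -y0 := by rw [hy3, hx0]; ring
  obtain ⟨h', en⟩ := neg_some' h
  have e4 : (Affine.Point.some x3 y3 h3 : (EW a b c).Point) = Affine.Point.some 0 (-y0) h' :=
    some_congr hx0 hy3'
  rw [e4, ← en] at e3
  have : (3 : ℤ) • (Affine.Point.some 0 y0 h : (EW a b c).Point) =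
      (Affine.Point.some 0 y0 h + Affine.Point.some 0 y0 h) + Affine.Point.some 0 y0 h := by
    rw [show (3 : ℤ) = 1 + 1 + 1 by norm_num, add_smul, add_smul, one_smul]
  rw [this, e3]
  exact neg_add_cancel _

theorem zsmul_pm {A : Type*} [AddCommGroup A] {P : A} (h : (3 : ℤ) • P = 0) {i : ℤ} (hi : ¬ (3 : ℤ) ∣ i) :
    i • P = P ∨ i • P = -P := by
  have h1 : i % 3 = 1 ∨ i % 3 = 2 := by omega
  have h2 : i = 3 * (i / 3) + i % 3 := (Int.mul_ediv_add_emod i 3).symm
  rcases h1 with h3 | h3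
  · left
    rw [h2, h3, add_smul, mul_comm, mul_smul, h, smul_zero, zero_add, one_smul]
  · right
    have h4 : i = 3 * (i / 3 + 1) + (-1) := by omega
    rw [h4, add_smul, mul_comm, mul_smul, h, smul_zero, zero_add, neg_smul, one_smul]

/-- The split case. -/
theorem local_split {L : Type*} [Field L] [DecidableEq L] {ι : ℤ_[p][X] →+* L}
    (hι : Function.Injective ι) (hp5 : 5 ≤ p)
    {ra rb rc c σ : ℤ_[p]} (ha : 4 * ra = 1) (hb : 2 * rb = c) (hcc : 4 * rc = c ^ 2) (hc : IsUnit c)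
    (hΔ : IsUnit (dsc (C ra) (C rb) (C rc) : ℤ_[p][X])) {y : L} {d : L → L}
    (hy : y ^ 2 = ι (X ^ 3 + C ra * X ^ 2 + C rb * X + C rc))
    (h1 : ∀ u v, d (u + v) = d u + d v)
    (h2 : ∀ u v, d (u * v) = u * d v + v * d u)
    (h3 : ∀ p : ℤ_[p][X], d (ι p) = 2 * y * ι (derivative p))
    (h4 : d y = ι (3 * X ^ 2 + 2 * C ra * X + C rb))
    {G H G0 H0 : (EW (ι (C ra)) (ι (C rb)) (ι (C rc))).Point} {t n : ℤ}
    (hσ : σ ^ 2 - t * σ + n = 0)
    (hdisc : t ^ 2 < 4 * n)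
    (hGs : (EW (ι (C ra)) (ι (C rb)) (ι (C rc))).Nonsingular (ι X) y)
    (hGe : G = Affine.Point.some (ι X) y hGs)
    {y0 : L} (hG0s : (EW (ι (C ra)) (ι (C rb)) (ι (C rc))).Nonsingular 0 y0)
    (hG0e : G0 = Affine.Point.some 0 y0 hG0s)
    (hHo : Om d (ι (C σ)) H) (hH : Rep ι H H0 n.toNat)
    (hGH : Rep ι (G - H) (G0 - H0) (nf t n 1 (-1)).toNat) {i j : ℤ}
    (hn : nf t n i j = p) (hpσ : (p : ℤ_[p]) ∣ (i : ℤ_[p]) + j * σ)
    (hij : i • G0 + j • H0 = G0 ∨ i • G0 + j • H0 = -G0) :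
    (p : ℤ_[p]) ^ 2 ∣ T3 p c ^ 2 - ((2 * i + t * j : ℤ) ^ 2 - 2 * p : ℤ_[p]) := by
  have hpp := hp.out
  have hp2 : p ≠ 2 := by omega
  have h2L : (2 : L) ≠ 0 := by
    have : ι (C (2 : ℤ_[p])) ≠ 0 := by
      rw [Ne, map_eq_zero_iff ι hι]
      exact C_ne_zero.2 two_ne_zero
    rwa [map_ofNat, map_ofNat] at this
  have hij0 : i ≠ 0 ∨ j ≠ 0 := by
    by_contra hcon
    push Not at hcon
    rw [hcon.1, hcon.2] at hn
    unfold nf at hn
    have := hpp.pos
    simp at hn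
    omega
  have hσ' : ∀ i j : ℤ, (i ≠ 0 ∨ j ≠ 0) → (i : ℤ_[p]) + j * σ ≠ 0 := by
    intro i j hij h
    have h5 : ((nf t n i j : ℤ) : ℤ_[p]) = 0 := by
      unfold nf
      push_cast
      linear_combination ((i : ℤ_[p]) + j * (t - σ)) * h + j ^ 2 * hσ
    have h6 := nf_pos hdisc hij
    have h7 : nf t n i j = 0 := by exact_mod_cast h5
    omega
  have hXG0 : ∀ z : L, XR (0 : L) z G0 := by
    intro z
    rw [hG0e]
    show (0 : L) = 0 * z
    rw [zero_mul]
  obtain ⟨N, D, mN, dN, dD, cc, ode, hx⟩ := ell_concl hι h2L hΔ hy h1 h2 h3 h4 hσ' hdisc hGs hGe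
    (hXG0 1) hHo hH hGH i j hij0
  rw [hn] at dN dD
  simp only [Int.toNat_natCast] at dN dD
  have hN0 : N.eval 0 = 0 := by
    have e : ι (C (N.eval 0)) = 0 := by
      rcases hij with h | h
      · rw [h, hG0e] at hx
        have : ι (C (N.eval 0)) = 0 * ι (C (D.eval 0)) := hx
        rw [this, zero_mul]
      · rw [h] at hx
        have hx' := hx.neg
        rw [neg_neg, hG0e] at hx'
        have : ι (C (N.eval 0)) = 0 * ι (C (D.eval 0)) := hx'
        rw [this, zero_mul]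
    rw [map_eq_zero_iff ι hι] at e
    exact C_eq_zero.1 e
  set α : ℤ_[p] := (i : ℤ_[p]) + j * σ with hα
  set π' : ℤ_[p] := (i : ℤ_[p]) + j * (t - σ) with hπ'
  have hprod : α * π' = p := by
    have : ((nf t n i j : ℤ) : ℤ_[p]) = p := by rw [hn]; simp
    rw [← this, hα, hπ']
    unfold nf
    push_cast
    linear_combination (-(j : ℤ_[p]) ^ 2) * hσ
  have hp0 : (p : ℤ_[p]) ≠ 0 := by exact_mod_cast hp.out.ne_zero
  obtain ⟨v, hv⟩ := hpσ
  have hvπ : v * π' = 1 := by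
    apply mul_left_cancel₀ hp0
    rw [mul_one, ← mul_assoc, ← hv, hprod]
  have hπu : IsUnit π' := IsUnit.of_mul_eq_one v (by rw [mul_comm]; exact hvπ)
  have ode' : gp 1 c * (derivative N * D - N * derivative D) ^ 2 = C α ^ 2 * D * gh 1 c N D := by
    rw [gp_eq ha hb hcc, gh_eq ha hb hcc]
    linear_combination 4 * ode
  have hsep : IsCoprime (gp 1 c) (derivative (gp 1 c)) := by
    have h4u : IsUnit (4 : ℤ_[p][X]) := by
      have : IsUnit (C (4 : ℤ_[p])) := isUnit_C.2 (IsUnit.of_mul_eq_one _ ha)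
      rwa [map_ofNat] at this
    rw [gp_eq ha hb hcc]
    have e : derivative (4 * (X ^ 3 + C ra * X ^ 2 + C rb * X + C rc)) =
        4 * derivative (X ^ 3 + C ra * X ^ 2 + C rb * X + C rc) := by
      rw [show (4 : ℤ_[p][X]) = C 4 by rw [map_ofNat], derivative_C_mul]
    rw [e]
    exact (isCoprime_mul_unit_left h4u _ _).2 (sep_of_dsc hΔ)
  obtain ⟨⟨N1, eN⟩, D1, eD⟩ := frob_red hp5 hc hπu hprod hsep mN dN dD cc hN0 ode'
  obtain ⟨ci, hci⟩ := hc.exists_right_inv
  have hB : ∀ k : ℕ, ((k : ℤ_[p]) + 3) * B3 c (k + 3) - (2 * k + 5) * B3 c (k + 2) +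
      1 * (k + 2) * B3 c (k + 1) - (4 * k + 6) * c * B3 c k = 0 := B3_rec c
  have hW := WB_sq hci (B3_zero c) (B3_one c) (by rw [B3_two]; norm_num) hB
  have hW0 : PowerSeries.constantCoeff (WB ci (B3 c)) * c = 1 := by
    rw [← PowerSeries.coeff_zero_eq_constantCoeff_apply]
    unfold WB
    rw [PowerSeries.coeff_mk, B3_zero]
    linear_combination hci
  have hW1 : PowerSeries.coeff 1 (WB ci (B3 c)) * c ^ 2 = -1 := by
    unfold WB
    rw [PowerSeries.coeff_mk, B3_one]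
    linear_combination (-(c * ci + 1)) * hci
  obtain ⟨ε, hε, hdiv⟩ := key_ps hp5 hc hπu hprod mN dN dD hN0 eN eD ode' (WB ci (B3 c)) hW hW0 hW1
  rw [WB_val hci hp2] at hdiv
  obtain ⟨k1, hk1⟩ := hdiv
  obtain ⟨k2, hk2⟩ := T3_congr hp2 c
  have hT : T3 p c = ε * π' + p ^ 2 * (k1 - k2) := by linear_combination hk1 - hk2
  have hεε : ε * ε = 1 := by rcases hε with h | h <;> rw [h] <;> ring
  have hsum : α + π' = ((2 * i + t * j : ℤ) : ℤ_[p]) := by
    rw [hα, hπ']; push_cast; ring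
  rw [hT, ← hsum]
  refine ⟨2 * ε * π' * (k1 - k2) + p ^ 2 * (k1 - k2) ^ 2 - v ^ 2, ?_⟩
  rw [← hprod]
  have hv2 : α ^ 2 = (α * π') ^ 2 * v ^ 2 := by
    conv_lhs => rw [hv]
    rw [hprod]; ring
  linear_combination π' ^ 2 * hεε - hv2

end Pool.Agent.H475R2
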